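import Pool.Agent.TRS.App

/-!
# Reachable tuples are images of the standard tuple under mapping classes

Helper37, for helper20 (MP_0707f5_ag).
-/

set_option autoImplicit false

namespace Pool.Agent.TRS

open Matrix Pool.Agent.HZ Pool.Agent.PRS

namespace AutM

/-- one elementary move -/
inductive AStp {G : Type} [Group G] : G → G → List G → G → G → List G → Prop
  | move (a b : G) {L L' : List G} : BMove L L' → AStp a b L a b L'
  | twa (a b : G) (L : List G) (k : ℤ) : AStp a b L a (a ^ k * b) L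
  | twb (a b : G) (L : List G) (k : ℤ) : AStp a b L (b ^ k * a) b L
  | sl (a b y : G) (M : List G) : AStp a b (y :: M) (a * y) b (M ++ [b⁻¹ * y * b])
  | ls (a b y : G) (M : List G) : AStp a b (M ++ [y]) (a * (b * y⁻¹ * b⁻¹)) b (b * y * b⁻¹ :: M)

section stp
variable {G : Type} [Group G]

theorem AStp.symm {a b a' b' : G} {L L' : List G} (h : AStp a b L a' b' L') :
    AStp a' b' L' a b L := by
  cases h with
  | move hm => exact AStp.move _ _ hm.symm
  | twa _ k =>
    have h1 := AStp.twa a (a ^ k * b) L (-k)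
    have e : a ^ (-k) * (a ^ k * b) = b := by rw [← mul_assoc, ← _root_.zpow_add]; simp
    rwa [e] at h1
  | twb _ k =>
    have h1 := AStp.twb (b ^ k * a) b L (-k)
    have e : b ^ (-k) * (b ^ k * a) = a := by rw [← mul_assoc, ← _root_.zpow_add]; simp
    rwa [e] at h1
  | sl y M =>
    have h1 := AStp.ls (a * y) b (b⁻¹ * y * b) M
    have e1 : a * y * (b * (b⁻¹ * y * b)⁻¹ * b⁻¹) = a := by group
    have e2 : b * (b⁻¹ * y * b) * b⁻¹ = y := by group
    rwa [e1, e2] at h1
  | ls y M =>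
    have h1 := AStp.sl (a * (b * y⁻¹ * b⁻¹)) b (b * y * b⁻¹) M
    have e1 : a * (b * y⁻¹ * b⁻¹) * (b * y * b⁻¹) = a := by group
    have e2 : b⁻¹ * (b * y * b⁻¹) * b = y := by group
    rwa [e1, e2] at h1

theorem AStp.tr {a₀ b₀ : G} {L₀ : List G} {a b a' b' : G} {L L' : List G}
    (h : AStp a b L a' b' L') (h0 : TR a₀ b₀ L₀ a b L) : TR a₀ b₀ L₀ a' b' L' := by
  cases h with
  | move hm => exact h0.move hm
  | twa _ k => exact h0.twa k
  | twb _ k => exact h0.twb k
  | sl y M => exact h0.sl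
  | ls y M => exact h0.ls

/-- moves lift along homomorphisms -/
theorem AStp.lift {H : Type} [Group H] (f : G →* H) {a b : G} {L : List G} {a' b' : H}
    {M : List H} (h : AStp (f a) (f b) (L.map f) a' b' M) :
    ∃ (a'' b'' : G) (L'' : List G), AStp a b L a'' b'' L'' ∧ f a'' = a' ∧ f b'' = b' ∧
      L''.map f = M := by
  generalize hK : L.map f = K at h
  cases h with
  | move hm =>
    rw [← hK] at hm
    obtain ⟨L', h1, h2⟩ := hm.lift f
    exact ⟨a, b, L', AStp.move _ _ h1, rfl, rfl, h2⟩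
  | twa _ k => exact ⟨a, a ^ k * b, L, AStp.twa _ _ _ k, rfl, by simp, hK⟩
  | twb _ k => exact ⟨b ^ k * a, b, L, AStp.twb _ _ _ k, by simp, rfl, hK⟩
  | sl y M =>
    rw [List.map_eq_cons_iff] at hK
    obtain ⟨y', M', rfl, rfl, rfl⟩ := hK
    exact ⟨_, _, _, AStp.sl a b y' M', by simp, rfl, by simp⟩
  | ls y M =>
    rw [List.map_eq_append_iff] at hK
    obtain ⟨M', T, rfl, rfl, h2⟩ := hK
    rw [List.map_eq_singleton_iff] at h2
    obtain ⟨y', rfl, rfl⟩ := h2
    exact ⟨_, _, _, AStp.ls a b y' M', by simp, rfl, by simp⟩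

end stp

/-- the relation of the standard tuple -/
theorem tX_rel (n : ℕ) : (FreeGroup.of 0 * FreeGroup.of 1 : F n) =
    FreeGroup.of 1 * FreeGroup.of 0 * (tX n).prod := by
  unfold tX
  rw [List.prod_append, List.prod_singleton]
  group

theorem tX_len (n : ℕ) : (tX n).length = n + 1 := by simp [tX, tY]

/-- the endomorphism given by a tuple -/
noncomputable def eN {n : ℕ} (a b : F n) (L : List (F n)) : F n →* F n :=
  FreeGroup.lift (Fin.cons a (Fin.cons b fun i : Fin n => L.getD i 1))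

theorem eN_spec {n : ℕ} (a b : F n) (L : List (F n)) (hl : L.length = n + 1)
    (hr : a * b = b * a * L.prod) :
    eN a b L (FreeGroup.of 0) = a ∧ eN a b L (FreeGroup.of 1) = b ∧ (tX n).map (eN a b L) = L := by
  have h0 : eN a b L (FreeGroup.of 0) = a := by simp [eN]
  have h1 : eN a b L (FreeGroup.of 1) = b := by
    unfold eN
    rw [FreeGroup.lift_apply_of]
    rfl
  have h2 : ∀ i : Fin n, eN a b L (FreeGroup.of i.succ.succ) = L.getD i 1 := by
    intro i
    unfold eN
    rw [FreeGroup.lift_apply_of]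
    rfl
  refine ⟨h0, h1, ?_⟩
  obtain ⟨P, z, rfl⟩ : ∃ P z, L = P ++ [z] := by
    have hne : L ≠ [] := by
      intro h
      rw [h] at hl
      simp at hl
    exact ⟨L.dropLast, L.getLast hne, (List.dropLast_append_getLast hne).symm⟩
  have hP : P.length = n := by simpa using hl
  have h3 : (tY n).map (eN a b (P ++ [z])) = P := by
    apply List.ext_getElem
    · simp [tY, hP]
    · intro i hi hi'
      have hi2 : i < n := by simpa [tY] using hi
      simp only [tY, List.map_map, List.getElem_map, List.getElem_finRange, Function.comp]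
      have h4 := h2 ⟨i, hi2⟩
      simp only [Fin.cast_mk] at *
      rw [h4]
      rw [List.getD_eq_getElem _ _ (by simp; omega)]
      rw [List.getElem_append_left (by omega)]
  unfold tX
  rw [List.map_append, h3, List.map_singleton, map_mul, map_inv, map_list_prod, h3, map_mul, map_mul,
    map_mul, map_inv, map_inv, h0, h1]
  congr 2
  rw [hr, List.prod_append, List.prod_singleton]
  group

/-- two endomorphisms which agree on the standard tuple are equal -/
theorem eq_of_std {n : ℕ} {f g : F n →* F n} (h0 : f (FreeGroup.of 0) = g (FreeGroup.of 0))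
    (h1 : f (FreeGroup.of 1) = g (FreeGroup.of 1)) (h2 : (tX n).map f = (tX n).map g) : f = g := by
  apply FreeGroup.ext_hom
  intro i
  induction i using Fin.cases with
  | zero => exact h0
  | succ i =>
    induction i using Fin.cases with
    | zero => exact h1
    | succ i =>
      have h3 : (FreeGroup.of i.succ.succ : F n) ∈ tX n := by
        unfold tX tY
        simp
      exact List.map_inj_left.1 h2 _ h3

/-- every move of the standard tuple is given by an endomorphism with a right inverse of the same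
kind -/
theorem step_inv {n : ℕ} {a b : F n} {L : List (F n)}
    (h : AStp (FreeGroup.of 0) (FreeGroup.of 1) (tX n) a b L) :
    ∃ (a' b' : F n) (L' : List (F n)), AStp (FreeGroup.of 0) (FreeGroup.of 1) (tX n) a' b' L' ∧
      (eN a b L).comp (eN a' b' L') = MonoidHom.id (F n) := by
  have hs : ∀ {a b : F n} {L : List (F n)}, AStp (FreeGroup.of 0) (FreeGroup.of 1) (tX n) a b L →
      eN a b L (FreeGroup.of 0) = a ∧ eN a b L (FreeGroup.of 1) = b ∧
        (tX n).map (eN a b L) = L := by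
    intro a b L h
    have h1 := h.tr TR.refl
    exact eN_spec a b L (by rw [h1.length, tX_len]) (h1.rel (tX_rel n))
  obtain ⟨e0, e1, e2⟩ := hs h
  have h1 : AStp (eN a b L (FreeGroup.of 0)) (eN a b L (FreeGroup.of 1)) ((tX n).map (eN a b L))
      (FreeGroup.of 0) (FreeGroup.of 1) (tX n) := by
    rw [e0, e1, e2]
    exact h.symm
  obtain ⟨a', b', L', h2, f0, f1, f2⟩ := h1.lift
  refine ⟨a', b', L', h2, ?_⟩
  obtain ⟨g0, g1, g2⟩ := hs h2
  apply eq_of_std
  · simp [g0, f0]
  · simp [g1, f1]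
  · rw [MonoidHom.coe_comp, ← List.map_map, g2, f2]
    simp

theorem step_aut {n : ℕ} {a b : F n} {L : List (F n)}
    (h : AStp (FreeGroup.of 0) (FreeGroup.of 1) (tX n) a b L) :
    ∃ ψ ∈ MC n, ψ (FreeGroup.of 0) = a ∧ ψ (FreeGroup.of 1) = b ∧ (tX n).map ψ = L := by
  obtain ⟨a', b', L', h1, h2⟩ := step_inv h
  obtain ⟨a'', b'', L'', h3, h4⟩ := step_inv h1
  have h5 : eN a'' b'' L'' = eN a b L := by
    have := congrArg (fun f => (eN a b L).comp f) h4
    simp only [← MonoidHom.comp_assoc, h2, MonoidHom.id_comp, MonoidHom.comp_id] at this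
    exact this
  rw [h5] at h4
  have ht := h.tr TR.refl
  obtain ⟨e0, e1, e2⟩ := eN_spec a b L (by rw [ht.length, tX_len]) (ht.rel (tX_rel n))
  refine ⟨MonoidHom.toMulEquiv (eN a b L) (eN a' b' L') h4 h2, ?_, e0, e1, e2⟩
  intro y hy
  have hy' : eN a b L y ∈ L := by
    have h6 := List.mem_map_of_mem (f := eN a b L) hy
    rwa [e2] at h6
  obtain ⟨x, hx, g, e⟩ := ht.conj _ hy'
  refine ⟨x, hx, ?_⟩
  show IsConj (eN a b L y) x
  rw [e, isConj_iff]
  exact ⟨g, by group⟩

theorem MC_mul {n : ℕ} {φ ψ : MulAut (F n)} (hφ : φ ∈ MC n) (hψ : ψ ∈ MC n) : φ * ψ ∈ MC n := by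
  intro y hy
  obtain ⟨y', hy', h1⟩ := hψ y hy
  obtain ⟨y'', hy'', h2⟩ := hφ y' hy'
  refine ⟨y'', hy'', ?_⟩
  have h3 : IsConj (φ (ψ y)) (φ y') := φ.toMonoidHom.map_isConj h1
  exact h3.trans h2

end AutM

open AutM in
theorem thm_Aut : St_Aut := by
  intro n a b L h
  unfold TF at h
  have key : ∀ {a b : F n} {L : List (F n)} {a' b' : F n} {L' : List (F n)},
      AStp a b L a' b' L' →
      (∃ ψ ∈ MC n, ψ (FreeGroup.of 0) = a ∧ ψ (FreeGroup.of 1) = b ∧ (tX n).map ψ = L) →
      ∃ ψ ∈ MC n, ψ (FreeGroup.of 0) = a' ∧ ψ (FreeGroup.of 1) = b' ∧ (tX n).map ψ = L' := by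
    rintro a b L a' b' L' hs ⟨ψ, hψ, rfl, rfl, rfl⟩
    have hs' : AStp (ψ.toMonoidHom (FreeGroup.of 0)) (ψ.toMonoidHom (FreeGroup.of 1))
      ((tX n).map ψ.toMonoidHom) a' b' L' := hs
    obtain ⟨a1, b1, L1, h1, h2, h3, h4⟩ := hs'.lift
    obtain ⟨χ, hχ, g0, g1, g2⟩ := step_aut h1
    refine ⟨ψ * χ, MC_mul hψ hχ, ?_, ?_, ?_⟩
    · rw [← h2, ← g0]
      rfl
    · rw [← h3, ← g1]
      rfl
    · rw [← h4, ← g2, List.map_map]
      rfl
  induction h with
  | refl => exact ⟨1, fun y hy => ⟨y, hy, IsConj.refl _⟩, rfl, rfl, by simp⟩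
  | move _ hm ih => exact key (AStp.move _ _ hm) ih
  | twa k _ ih => exact key (AStp.twa _ _ _ k) ih
  | twb k _ ih => exact key (AStp.twb _ _ _ k) ih
  | sl _ ih => exact key (AStp.sl _ _ _ _) ih
  | ls _ ih => exact key (AStp.ls _ _ _ _) ih

end Pool.Agent.TRS
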