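import Pool.Agent.TRS.App

/-!
# TRS, modules ULT and UFN: functions and ultrafilters
-/

set_option autoImplicit false

namespace Pool.Agent.TRS

theorem thm_Ult : St_Ult := by
  intro Ω f h
  by_contra hinf
  have hne : (Filter.comap f Filter.cofinite).NeBot := by
    rw [Filter.comap_neBot_iff]
    intro t ht
    rw [Filter.mem_cofinite] at ht
    obtain ⟨y, hy, hyt⟩ := Set.Infinite.exists_notMem_finite hinf ht
    obtain ⟨x, rfl⟩ := hy
    exact ⟨x, not_not.mp hyt⟩
  obtain ⟨c, hc⟩ := h (Ultrafilter.of (Filter.comap f Filter.cofinite))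
  have h1 : ∀ᶠ x in Filter.comap f Filter.cofinite, f x ≠ c := by
    rw [Filter.eventually_comap]
    have h2 : ∀ᶠ y in Filter.cofinite, y ≠ c := (Set.finite_singleton c).eventually_cofinite_notMem
    exact h2.mono fun y hy x hx => by rwa [hx]
  have h3 := Ultrafilter.of_le (Filter.comap f Filter.cofinite) h1
  have h4 := Filter.Eventually.and hc h3
  obtain ⟨x, hx1, hx2⟩ := h4.exists
  exact hx2 hx1

theorem thm_Ufn : St_Ufn := by
  intro Ω U f h
  have h1 : ∀ᶠ x in (U : Filter Ω), ∃ c ∈ Set.range f, f x = c :=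
    Filter.Eventually.of_forall fun x => ⟨f x, ⟨x, rfl⟩, rfl⟩
  obtain ⟨c, _, hc⟩ := (Ultrafilter.eventually_exists_mem_iff h).mp h1
  exact ⟨c, hc⟩

end Pool.Agent.TRS
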