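import Pool.Agent.TRS.St1
import Pool.Agent.TRS.Ult
import Pool.Agent.PRS.XPar
import Pool.Agent.PRS.LAM
import Pool.Agent.PRS.XGax

/-!
# Systems of pseudo-reflections on punctured tori: the irreducible case from the S-theorem

Helper20, for MP_0707f5_ag.
-/

set_option autoImplicit false

namespace Pool.Agent.TRS

open Matrix Pool.Agent.HZ Pool.Agent.PRS

theorem Irc_top (n : ℕ) : cl (FreeGroup.of 0 : F n) (FreeGroup.of 1) (tX n) = ⊤ := by
  rw [eq_top_iff, ← FreeGroup.closure_range_of]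
  refine Subgroup.closure_mono ?_
  rintro _ ⟨i, rfl⟩
  rcases Fin.eq_zero_or_eq_succ i with rfl | ⟨j, rfl⟩
  · exact Or.inl (Or.inl rfl)
  · rcases Fin.eq_zero_or_eq_succ j with rfl | ⟨k, rfl⟩
    · exact Or.inl (Or.inr rfl)
    · exact Or.inr (List.mem_append_left _ (List.mem_map.2 ⟨k, List.mem_finRange k, rfl⟩))

theorem Irc_rel (n : ℕ) : (FreeGroup.of 0 : F n) * FreeGroup.of 1 =
    FreeGroup.of 1 * FreeGroup.of 0 * (tX n).prod := by
  rw [tX, List.prod_append, List.prod_singleton]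
  group

theorem Irc_range {n r : ℕ} (ρ : F n →* GL (Fin r) ℂ) (φ : MC n) :
    (fM ρ φ).range = ρ.range := by
  apply le_antisymm
  · rintro _ ⟨x, rfl⟩
    exact ⟨(φ : MulAut (F n)) x, rfl⟩
  · rintro _ ⟨x, rfl⟩
    refine ⟨(φ : MulAut (F n)).symm x, ?_⟩
    show ρ ((φ : MulAut (F n)) ((φ : MulAut (F n)).symm x)) = ρ x
    rw [MulEquiv.apply_symm_apply]

/-- the irreducible case -/
theorem thm_Irc (hTS : St_TS) (hP : St_Pan) (hB : St_Ball) (hG : St_Ger) :
    ∀ (n r : ℕ) (ρ : F n →* GL (Fin r) ℂ), 0 < r → Irr ρ.range → TH n r ρ → FinT ρ := by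
  intro n r ρ hr hirr hT w
  obtain ⟨lam, hlam, hlam'⟩ := thm_LAM
  obtain ⟨-, ⟨M, hM, hev⟩, hPR, hfin⟩ := hP n r ρ hT
  apply thm_Ult
  intro U
  obtain ⟨g1, g2, g3, g4, g5, g6, g7, g8, g9, g10, g11, g12⟩ := hG (MC n) U r
  have hroots : {x : ℂ | x ^ M = 1}.Finite := by
    classical
    refine ((Polynomial.nthRoots M (1 : ℂ)).toFinset.finite_toSet).subset ?_
    intro z hz
    rw [Finset.mem_coe, Multiset.mem_toFinset, Polynomial.mem_nthRoots hM]
    exact hz
  have hmem : ∀ (f : MC n → ℂ) (Z : Set ℂ), Z.Finite → (∀ x, f x ∈ Z) → gm U f ∈ gS U := by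
    intro f Z hZ hf
    rw [g8]
    exact thm_Ufn _ U f (hZ.subset (by rintro _ ⟨x, rfl⟩; exact hf x))
  -- the rank one parts
  obtain ⟨ep, hep⟩ : ∃ ep : F n → MC n → Matrix (Fin r) (Fin r) ℂ, ∀ y φ, ep y φ =
      (lam r (fM ρ φ y))⁻¹ • (fM ρ φ y : Matrix (Fin r) (Fin r) ℂ) - 1 := ⟨_, fun _ _ => rfl⟩
  let c : F n → GR U := fun y => gm U fun φ => (lam r (fM ρ φ y))⁻¹
  let c' : F n → GR U := fun y => gm U fun φ => lam r (fM ρ φ y)
  let z : F n → GR U := fun y => gm U fun φ => 1 + (ep y φ).trace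
  let z' : F n → GR U := fun y => gm U fun φ => (1 + (ep y φ).trace)⁻¹
  have hel : ∀ y, el (gR U (fM ρ)) c y = gA U (ep y) := by
    intro y
    show c y • gR U (fM ρ) y - 1 = gA U (ep y)
    rw [g9, g4, ← g3, g2]
    congr 1
    funext φ
    exact (hep y φ).symm
  have hzero : gA U (fun _ : MC n => (0 : Matrix (Fin r) (Fin r) ℂ)) = 0 := by
    ext i j
    show gm U (fun _ => 0) = 0
    exact map_zero (gm U)
  -- pointwise properties of the letters
  have hroot : ∀ a b L, TF n a b L → ∀ y ∈ L, ∀ φ : MC n,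
      PR (fM ρ φ y) ∧ ∀ x : ℂ, (fM ρ φ y : Matrix (Fin r) (Fin r) ℂ).charpoly.IsRoot x →
        x ^ M = 1 := by
    intro a b L h y hy φ
    refine ⟨hPR φ.1 φ.2 a b L h y hy, ?_⟩
    obtain ⟨B, hB'⟩ := Pre.sublist (List.singleton_sublist.2 hy)
    have h1 := (hev φ.1 φ.2 a b [y] B (TR.reach h hB')).2
    rw [List.prod_singleton] at h1
    exact h1
  have hlet : ∀ a b L, TF n a b L → ∀ y ∈ L, ∀ φ : MC n,
      lam r (fM ρ φ y) ≠ 0 ∧ 1 + (ep y φ).trace ≠ 0 ∧ RO (ep y φ) ∧
        (lam r (fM ρ φ y)) ^ M = 1 ∧ (1 + (ep y φ).trace) ^ M = 1 := by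
    intro a b L h y hy φ
    obtain ⟨h1, h2⟩ := hroot a b L h y hy φ
    obtain ⟨h3, h4, h5, h6⟩ := hlam' r (fM ρ φ y) h1
    rw [hep]
    exact ⟨h3, h4, h5, (h6 M h2).1, (h6 M h2).2⟩
  have hsys : SysT (gS U) (gR U (fM ρ)) (FreeGroup.of 0) (FreeGroup.of 1) (tX n) c c' z z' :=
    { rel := Irc_rel n
      conj := fun a b => by
        show (gm U fun φ => (lam r (fM ρ φ (b⁻¹ * a * b)))⁻¹) = gm U fun φ => (lam r (fM ρ φ a))⁻¹
        congr 1
        funext φ
        rw [map_mul, map_mul, map_inv, hlam]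
      lett := fun a b L h y hy => by
        have key := hlet a b L h y hy
        refine ⟨⟨?_, ?_, ?_, ?_⟩, ⟨?_, ?_⟩, ?_, ?_⟩
        · refine hmem _ _ hroots fun φ => ?_
          show ((lam r (fM ρ φ y))⁻¹) ^ M = 1
          rw [inv_pow, (key φ).2.2.2.1, inv_one]
        · exact hmem _ _ hroots fun φ => (key φ).2.2.2.1
        · exact hmem _ _ hroots fun φ => (key φ).2.2.2.2
        · refine hmem _ _ hroots fun φ => ?_
          show ((1 + (ep y φ).trace)⁻¹) ^ M = 1
          rw [inv_pow, (key φ).2.2.2.2, inv_one]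
        · show gm U _ * gm U _ = 1
          rw [← map_mul, ← map_one (gm U)]
          congr 1
          funext φ
          exact inv_mul_cancel₀ (key φ).1
        · show gm U _ * gm U _ = 1
          rw [← map_mul, ← map_one (gm U)]
          congr 1
          funext φ
          exact mul_inv_cancel₀ (key φ).2.1
        · show _ = gm U _ - 1
          rw [hel, g5, ← map_one (gm U), ← map_sub]
          congr 1
          funext φ
          exact (add_sub_cancel_left _ _).symm
        · intro X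
          obtain ⟨A, rfl⟩ := g10 X
          rw [hel, g1, g1, g5, g4]
          congr 1
          funext φ
          exact (key φ).2.2.1 _
      loops := fun a b N T h => by
        have hft := finite_traces_of_roots r {x : ℂ | x ^ M = 1} hroots
        constructor
        · intro k
          rw [g9, g5]
          refine hmem _ _ hft fun φ => ?_
          refine ⟨_, fun x hx => ?_, rfl⟩
          have h1 := (hev φ.1 φ.2 a b [] (N ++ T) h).1
          rw [List.prod_nil, mul_one] at h1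
          rw [map_zpow] at hx
          exact gax_zpow _ M h1 k x hx
        · rw [g9, g5]
          refine hmem _ _ hft fun φ => ?_
          exact ⟨_, fun x hx => (hev φ.1 φ.2 a b N T h).2 x hx, rfl⟩
      fld := g11
      nat := g12
      par := fun a b y y' L h h0 => by
        rw [hel, hel] at h0 ⊢
        rw [g1, g5, ← map_zero (gm U), g7] at h0
        rw [g1, g1, ← hzero, g6, g6]
        have key : ∀ᶠ φ in (U : Filter (MC n)), ep y φ * ep y' φ = 0 ∧ ep y' φ * ep y φ = 0 := by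
          refine h0.mono fun φ h1 => ?_
          have k1 := hlet a b _ h y (by simp) φ
          have k2 := hlet a b _ h y' (by simp) φ
          have h2 := hfin φ.1 φ.2 a b y y' L h
          have h3 := k1.2.2.1
          have h4 := k2.2.2.1
          have h5 : (ep y φ * ep y' φ).trace = 0 := h1
          rw [hep] at h3 h4
          rw [hep, hep] at h5 ⊢
          exact thm_Par r (fM ρ φ y) (fM ρ φ y') _ _ k1.1 k2.1 h3 h4 h2 h5
        exact ⟨key.mono fun φ h => h.1, key.mono fun φ h => h.2⟩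
      irr := fun a b L h y hy y' hy' h1 h2 => by
        rw [hel, ← hzero, Ne, g6] at h1 h2
        rw [← Ultrafilter.eventually_not] at h1 h2
        obtain ⟨B, hBf, hB'⟩ := hB (n + 2) r
        have h3 : ∀ᶠ φ in (U : Filter (MC n)), ∃ w ∈ B,
            ep y φ * (fM ρ φ w : Matrix (Fin r) (Fin r) ℂ) * ep y' φ ≠ 0 := by
          filter_upwards [h1, h2] with φ k1 k2
          exact hB' (fM ρ φ) (by rw [Irc_range]; exact hirr) _ _ k1 k2
        obtain ⟨v, -, hv⟩ := (Ultrafilter.eventually_exists_mem_iff hBf).1 h3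
        refine ⟨v, ?_, ?_⟩
        · rw [TR.cl_eq h, Irc_top]
          exact Subgroup.mem_top v
        · rw [hel, hel, g9, g1, g1, ← hzero, Ne, g6, ← Ultrafilter.eventually_not]
          exact hv }
  have h1 := hTS (GR U) (F n) r (gS U) (gR U (fM ρ)) (FreeGroup.of 0) (FreeGroup.of 1) (tX n)
    c c' z z' hsys w (by rw [Irc_top]; exact Subgroup.mem_top w)
  rw [g9, g5, g8] at h1
  exact h1

end Pool.Agent.TRS
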