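import Pool.Agent.TRS.App
import Pool.Agent.PRS.IRR

/-!
# Systems of pseudo-reflections on punctured tori: PAN

Helper81, for MP_0707f5_ag.
-/

set_option autoImplicit false

namespace Pool.Agent.TRS

open Matrix Pool.Agent.HZ Pool.Agent.PRS

theorem Pan_mul {n : ℕ} {φ ψ : MulAut (F n)} (hφ : φ ∈ MC n) (hψ : ψ ∈ MC n) : φ * ψ ∈ MC n := by
  intro y hy
  obtain ⟨y', hy', h1⟩ := hψ y hy
  obtain ⟨y'', hy'', h2⟩ := hφ y' hy'
  refine ⟨y'', hy'', IsConj.trans ?_ h2⟩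
  rw [isConj_iff] at h1 ⊢
  obtain ⟨c, hc⟩ := h1
  refine ⟨φ c, ?_⟩
  rw [← hc, MulAut.mul_apply, map_mul, map_mul, map_inv]

theorem Pan_exp {n r M : ℕ} (ρ : F n →* GL (Fin r) ℂ)
    (hexp : ∀ h ∈ ρ.range, ∀ z : ℂ, (h : Matrix (Fin r) (Fin r) ℂ).charpoly.IsRoot z →
      (∃ n > 0, z ^ n = 1) → z ^ M = 1) (u v w : F n)
    (hfin : (ρ '' (Subgroup.closure {u, v} : Subgroup (F n))).Finite)
    (hw : w ∈ Subgroup.closure {u, v}) (x : ℂ)
    (hx : (ρ w : Matrix (Fin r) (Fin r) ℂ).charpoly.IsRoot x) : x ^ M = 1 :=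
  hexp (ρ w) ⟨w, rfl⟩ x hx (quasi_of_finite (ρ w) _ hfin
    (fun k => ⟨w ^ k, Subgroup.pow_mem _ hw k, map_pow ρ w k⟩) x hx)

theorem Pan_ne (n : ℕ) : ∃ y T, tX n = y :: T := by
  cases h : tX n with
  | nil =>
    exfalso
    have h1 := congrArg List.length h
    simp [tX] at h1
  | cons y T => exact ⟨y, T, rfl⟩

/-- **PAN**. -/
theorem thm_Pan (hA : St_Aut) : St_Pan := by
  intro n r ρ hT
  obtain ⟨M, hM, hexp⟩ := exists_exponent ρ.range (range_fg ρ)
  refine ⟨fun φ hφ ψ hψ => Pan_mul hφ hψ, ⟨M, hM, ?_⟩, ?_, ?_⟩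
  · intro φ hφ a b N T hTF
    refine ⟨?_, ?_⟩
    · intro x hx
      have h1 : TF n (a * N.prod) b (T ++ N.map fun y => b⁻¹ * y * b) := TR.blockS4 hTF
      obtain ⟨ψ, hψ, h2, -, -⟩ := hA n _ _ _ h1
      obtain ⟨y₀, T₀, h3⟩ := Pan_ne n
      have h4 := hT.pa (φ * ψ) (Pan_mul hφ hψ) y₀ T₀ h3
      have h5 : (φ * ψ) (FreeGroup.of 0) = φ (a * N.prod) := by
        rw [MulAut.mul_apply, h2]
      rw [h5] at h4
      exact Pan_exp ρ hexp _ _ _ h4 (Subgroup.subset_closure (Set.mem_insert _ _)) x hx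
    · induction N using List.reverseRecOn with
      | nil =>
        intro x hx
        rw [List.prod_nil, map_one, map_one] at hx
        exact hexp 1 (Subgroup.one_mem _) x hx (quasi_of_finite 1 {1} (Set.finite_singleton 1)
          (fun k => by rw [one_pow]; exact Set.mem_singleton _) x hx)
      | append_singleton N' y _ =>
        intro x hx
        obtain ⟨ψ, hψ, -, -, h2⟩ := hA n _ _ _ hTF
        rw [List.map_eq_append_iff] at h2
        obtain ⟨l₁, l₂, h3, h4, -⟩ := h2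
        rw [List.map_eq_append_iff] at h4
        obtain ⟨N₀, l₃, h5, h6, h7⟩ := h4
        rw [List.map_eq_singleton_iff] at h7
        obtain ⟨y₀, h8, h9⟩ := h7
        have h10 : tX n = N₀ ++ y₀ :: l₂ := by
          rw [h3, h5, h8, List.append_assoc, List.singleton_append]
        have h11 := hT.pb (φ * ψ) (Pan_mul hφ hψ) N₀ y₀ l₂ h10
        have h12 : (φ * ψ) N₀.prod = φ N'.prod := by
          rw [MulAut.mul_apply, map_list_prod ψ, h6]
        have h13 : (φ * ψ) y₀ = φ y := by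
          rw [MulAut.mul_apply, h9]
        rw [h12, h13] at h11
        refine Pan_exp ρ hexp _ _ _ h11 ?_ x hx
        rw [List.prod_append, List.prod_singleton, map_mul]
        exact Subgroup.mul_mem _ (Subgroup.subset_closure (Set.mem_insert _ _))
          (Subgroup.subset_closure (Set.mem_insert_of_mem _ (Set.mem_singleton _)))
  · intro φ hφ a b L hTF y hy
    obtain ⟨x, hx, g, rfl⟩ := hTF.conj y hy
    obtain ⟨x', hx', h1⟩ := hφ x hx
    obtain ⟨c, hc⟩ := isConj_iff.1 h1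
    have h2 : φ x = c⁻¹ * x' * c := by
      rw [← hc]
      group
    have e : ρ (φ (g⁻¹ * x * g)) = (ρ (φ g))⁻¹ * ((ρ c)⁻¹ * ρ x' * ρ c) * ρ (φ g) := by
      simp only [map_mul, map_inv, h2]
    rw [e]
    exact ((hT.pr x' hx').conj _).conj _
  · intro φ hφ a b y y' N hTF
    obtain ⟨ψ, hψ, -, -, h2⟩ := hA n _ _ _ hTF
    rw [List.map_eq_cons_iff] at h2
    obtain ⟨y₀, l₁, h3, h4, h5⟩ := h2
    rw [List.map_eq_cons_iff] at h5
    obtain ⟨y₀', l₂, h6, h7, -⟩ := h5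
    have h8 : tX n = [y₀] ++ y₀' :: l₂ := by
      rw [h3, h6, List.singleton_append]
    have h9 := hT.pb (φ * ψ) (Pan_mul hφ hψ) [y₀] y₀' l₂ h8
    have h10 : (φ * ψ) [y₀].prod = φ y := by
      rw [List.prod_singleton, MulAut.mul_apply, h4]
    have h11 : (φ * ψ) y₀' = φ y' := by
      rw [MulAut.mul_apply, h7]
    rw [h10, h11] at h9
    exact finite_closure ρ _ _ h9

end Pool.Agent.TRS
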