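import Pool.Agent.TRS.St2
import Pool.Agent.TRS.Pan
import Pool.Agent.TRS.Irc
import Pool.Agent.PRS.DUA

/-!
# Pseudo-reflections on once punctured tori: D1T

Helper28, for MP_0707f5_ag.
-/

set_option autoImplicit false

namespace Pool.Agent.TRS

open Matrix Pool.Agent.HZ Pool.Agent.PRS
open scoped ComplexOrder

private theorem D1T_tX : ∃ x : F 0, tX 0 = [x] := by
  refine ⟨(tY 0).prod⁻¹ *
    ((FreeGroup.of 0)⁻¹ * (FreeGroup.of 1)⁻¹ * (FreeGroup.of 0 * FreeGroup.of 1)), ?_⟩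
  rw [tX]
  have h : tY 0 = [] := rfl
  rw [h, List.nil_append]

/-- **D1T**. -/
theorem thm_D1T (hW : St_Wrd) (hA : St_Aut) (hL : St_Lam) : St_D1T := by
  intro r ρ hT w
  obtain ⟨lam, hlam, hlam'⟩ := hL
  obtain ⟨M, hM, hexp⟩ := exists_exponent ρ.range (range_fg ρ)
  obtain ⟨x, hx⟩ := D1T_tX
  have hfin : ∀ u v : F 0, TF 0 u v (tX 0) →
      (ρ '' (Subgroup.closure {u, x} : Subgroup (F 0))).Finite := by
    intro u v huv
    obtain ⟨ψ, hψ, h1, -, h3⟩ := hA 0 u v _ huv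
    have h4 := hT.pa ψ hψ x [] hx
    have h5 : ψ x = x := by
      rw [hx] at h3
      simpa using h3
    rwa [h1, h5] at h4
  have hroot : ∀ u v g : F 0, TF 0 u v (tX 0) → g ∈ (Subgroup.closure {u, x} : Subgroup (F 0)) →
      ∀ s : ℂ, (ρ g : Matrix (Fin r) (Fin r) ℂ).charpoly.IsRoot s → s ^ M = 1 :=
    fun u v g huv hg s hs => Pan_exp ρ hexp u x g (hfin u v huv) hg s hs
  have hnorm : ∀ s : ℂ, s ^ M = 1 → ‖s‖ = 1 := fun s hs =>
    Complex.norm_eq_one_of_pow_eq_one hs hM.ne'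
  have hstar : ∀ s : ℂ, s ^ M = 1 → star s = s⁻¹ := by
    intro s hs
    have h1 := hnorm s hs
    have h2 : star s * s = 1 := by
      rw [Complex.star_def, Complex.conj_mul', h1]
      norm_num
    exact eq_inv_of_mul_eq_one_left h2
  let S : Subring (Bool → ℂ) := RingHom.eqLocus (Pi.evalRingHom (fun _ : Bool => ℂ) false)
    (Pi.evalRingHom (fun _ : Bool => ℂ) true)
  have hS : ∀ f : Bool → ℂ, f false = f true → f ∈ S := fun f h => h
  have hPR : PR (ρ x) := hT.pr x (by rw [hx]; exact List.mem_singleton_self x)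
  obtain ⟨h3, h4, h5, h6⟩ := hlam' r (ρ x) hPR
  obtain ⟨h7, h8⟩ := h6 M (hroot (FreeGroup.of 0) (FreeGroup.of 1) x TR.refl
    (Subgroup.subset_closure (by simp)))
  have h9 := hstar _ h8
  have hkey : (lam r (ρ x))⁻¹ • (DUA_fam ρ true x : Matrix (Fin r) (Fin r) ℂ) - 1 =
      -(1 + ((lam r (ρ x))⁻¹ • (ρ x : Matrix (Fin r) (Fin r) ℂ) - 1).trace) •
        ((lam r (ρ x))⁻¹ • (ρ x : Matrix (Fin r) (Fin r) ℂ) - 1)ᴴ := by
    refine DUA_key (ρ x) h3 (hstar _ h7) h4 h9 ?_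
    have := h5 1
    rwa [mul_one] at this
  have hev : ∀ (y : F 0) (β : Bool),
      DUA_ev r β ((fun _ => (lam r (ρ y))⁻¹ : Bool → ℂ) • DUA_rep Bool (DUA_fam ρ) y - 1) =
        (lam r (ρ y))⁻¹ • (DUA_fam ρ β y : Matrix (Fin r) (Fin r) ℂ) - 1 := by
    intro y β
    rw [map_sub, map_one, DUA_smul, DUA_rep_ev]
  have hlt : Lt S (DUA_rep Bool (DUA_fam ρ))
      (fun y _ => (lam r (ρ y))⁻¹) (fun y _ => lam r (ρ y))
      (fun y _ => 1 + ((lam r (ρ y))⁻¹ • (ρ y : Matrix (Fin r) (Fin r) ℂ) - 1).trace)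
      (fun y _ => (1 + ((lam r (ρ y))⁻¹ • (ρ y : Matrix (Fin r) (Fin r) ℂ) - 1).trace)⁻¹) x := by
    refine ⟨⟨hS _ rfl, hS _ rfl, hS _ rfl, hS _ rfl⟩,
      ⟨funext fun β => inv_mul_cancel₀ h3, funext fun β => mul_inv_cancel₀ h4⟩, ?_, ?_⟩
    · funext β
      rw [DUA_tr]
      show (DUA_ev r β ((fun _ => (lam r (ρ x))⁻¹ : Bool → ℂ) •
        DUA_rep Bool (DUA_fam ρ) x - 1)).trace = _
      rw [hev]
      rcases β with _ | _
      · exact (add_sub_cancel_left _ _).symm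
      · rw [hkey]
        set e : Matrix (Fin r) (Fin r) ℂ :=
          (lam r (ρ x))⁻¹ • (ρ x : Matrix (Fin r) (Fin r) ℂ) - 1 with he
        rw [Matrix.trace_smul, Matrix.trace_conjTranspose]
        have h10 : star e.trace = (1 + e.trace)⁻¹ - 1 := by
          rw [← h9, star_add, star_one]
          ring
        rw [h10]
        show -(1 + e.trace) • ((1 + e.trace)⁻¹ - 1) = 1 + e.trace - 1
        rw [smul_eq_mul]
        field_simp
        ring
    · intro X
      refine DUA_ext fun β => ?_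
      rw [DUA_smul, DUA_tr, map_mul, map_mul]
      have hev' : DUA_ev r β (el (DUA_rep Bool (DUA_fam ρ)) (fun y _ => (lam r (ρ y))⁻¹) x) =
        (lam r (ρ x))⁻¹ • (DUA_fam ρ β x : Matrix (Fin r) (Fin r) ℂ) - 1 := hev x β
      rw [hev']
      rcases β with _ | _
      · exact h5 _
      · rw [hkey]
        set e : Matrix (Fin r) (Fin r) ℂ :=
          (lam r (ρ x))⁻¹ • (ρ x : Matrix (Fin r) (Fin r) ℂ) - 1 with he
        set Y := DUA_ev r true X
        have h7 := congrArg Matrix.conjTranspose (h5 Yᴴ)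
        rw [Matrix.conjTranspose_mul, Matrix.conjTranspose_mul, Matrix.conjTranspose_smul,
          Matrix.conjTranspose_conjTranspose, ← Matrix.trace_conjTranspose,
          Matrix.conjTranspose_mul, Matrix.conjTranspose_conjTranspose] at h7
        rw [smul_mul_assoc, smul_mul_assoc, mul_smul_comm, Matrix.trace_smul, smul_smul, smul_smul,
          mul_assoc, h7, Matrix.trace_mul_comm, smul_smul, smul_eq_mul]
        congr 1
        ring
  have h1 := hW (Bool → ℂ) (F 0) r S (DUA_rep Bool (DUA_fam ρ))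
      (fun y _ => (lam r (ρ y))⁻¹) (fun y _ => lam r (ρ y))
      (fun y _ => 1 + ((lam r (ρ y))⁻¹ • (ρ y : Matrix (Fin r) (Fin r) ℂ) - 1).trace)
      (fun y _ => (1 + ((lam r (ρ y))⁻¹ • (ρ y : Matrix (Fin r) (Fin r) ℂ) - 1).trace)⁻¹)
      (FreeGroup.of 0) (FreeGroup.of 1) (tX 0) (Irc_rel 0) (by
        intro y hy
        rw [hx, List.mem_singleton] at hy
        rw [hy]
        exact hlt) (by
        intro y hy y' hy'
        rw [hx, List.mem_singleton] at hy hy'
        rw [hy, hy']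
        exact Or.inl rfl) (by
        intro u v huv g hg
        have hg' : g ∈ (Subgroup.closure {u, x} : Subgroup (F 0)) := by
          have e : ({u} ∪ {y | y ∈ tX 0} : Set (F 0)) = {u, x} := by
            ext y
            simp [hx, or_comm]
          rwa [e] at hg
        apply hS
        rw [DUA_tr, DUA_tr, DUA_rep_ev, DUA_rep_ev]
        show (ρ g : Matrix (Fin r) (Fin r) ℂ).trace =
          (((ρ g)⁻¹ : GL (Fin r) ℂ) : Matrix (Fin r) (Fin r) ℂ)ᴴ.trace
        rw [Matrix.trace_conjTranspose, trace_inv (ρ g) fun s hs =>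
          hnorm s (hroot u v g huv hg' s hs), star_star]) w (by
        rw [Irc_top]
        exact Subgroup.mem_top w)
  have h2 : (DUA_rep Bool (DUA_fam ρ) w).trace false = (DUA_rep Bool (DUA_fam ρ) w).trace true := h1
  rw [DUA_tr, DUA_tr, DUA_rep_ev, DUA_rep_ev] at h2
  have h3' : (ρ w : Matrix (Fin r) (Fin r) ℂ).trace =
      (((ρ w)⁻¹ : GL (Fin r) ℂ) : Matrix (Fin r) (Fin r) ℂ)ᴴ.trace := h2
  rw [h3', Matrix.trace_conjTranspose, star_star, map_inv]

end Pool.Agent.TRS
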