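import Pool.Agent.TRS.St1

/-!
# TRS, module EXP: expansion of `L.prod` and its inverse in linear forms
-/

set_option autoImplicit false

namespace Pool.Agent.TRS

open Matrix Pool.Agent.HZ Pool.Agent.PRS

section exp
variable {R : Type} [CommRing R] {G : Type} [Group G] {r : ℕ} {S : Subring R}
  {ρ : G →* Matrix (Fin r) (Fin r) R} {c c' z z' : G → R} {L : List G}

private theorem exp_kap (hL : ∀ y ∈ L, Lt S ρ c c' z z' y) (A : List G) (hA : ∀ y ∈ A, y ∈ L) :
    (A.map c').prod ∈ S ∧ (A.map c).prod ∈ S ∧ (A.map c').prod * (A.map c).prod = 1 := by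
  induction A with
  | nil => simpa using S.one_mem
  | cons y A ih =>
    obtain ⟨h1, h2, h3⟩ := ih fun x hx => hA x (List.mem_cons_of_mem _ hx)
    have hy := hL y (hA y List.mem_cons_self)
    refine ⟨?_, ?_, ?_⟩
    · rw [List.map_cons, List.prod_cons]
      exact S.mul_mem hy.1.2.1 h1
    · rw [List.map_cons, List.prod_cons]
      exact S.mul_mem hy.1.1 h2
    · rw [List.map_cons, List.prod_cons, List.map_cons, List.prod_cons]
      calc c' y * (A.map c').prod * (c y * (A.map c).prod)
          = (c y * c' y) * ((A.map c').prod * (A.map c).prod) := by ring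
        _ = 1 := by rw [hy.2.1.1, h3, one_mul]

private theorem exp_left (hL : ∀ y ∈ L, Lt S ρ c c' z z' y) (A : List G)
    (hA : ∀ y ∈ A, y ∈ L) :
    ∀ φ : Matrix (Fin r) (Fin r) R →ₗ[R] R,
      (∀ E : List G, E ≠ [] → (∀ y ∈ E, y ∈ L) → φ (ew ρ c E) ∈ S) →
      φ (ρ A.prod) - (A.map c').prod * φ 1 ∈ S := by
  induction A with
  | nil =>
    intro φ _
    simp [S.zero_mem]
  | cons y A ih =>
    intro φ hφ
    have hA' : ∀ x ∈ A, x ∈ L := fun x hx => hA x (List.mem_cons_of_mem _ hx)
    have hyL : y ∈ L := hA y List.mem_cons_self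
    have hy := hL y hyL
    have h1 := ih hA' φ hφ
    have h2 := ih hA' (φ ∘ₗ LinearMap.mulLeft R (el ρ c y)) (by
      intro E _ hE
      have h3 := hφ (y :: E) (List.cons_ne_nil _ _) (by
        intro x hx
        rcases List.mem_cons.1 hx with rfl | hx
        · exact hyL
        · exact hE x hx)
      rw [ew_cons] at h3
      exact h3)
    simp only [LinearMap.comp_apply, LinearMap.mulLeft_apply, mul_one] at h2
    have h3 : φ (el ρ c y) ∈ S := by
      have h4 := hφ [y] (List.cons_ne_nil _ _) (by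
        intro x hx
        rw [List.mem_singleton.1 hx]
        exact hyL)
      rwa [ew_cons, ew_nil, mul_one] at h4
    obtain ⟨k1, -, -⟩ := exp_kap hL A hA'
    have h4 : φ (el ρ c y * ρ A.prod) ∈ S := by
      have h5 := S.add_mem h2 (S.mul_mem k1 h3)
      rwa [sub_add_cancel] at h5
    have e : φ (ρ (y :: A).prod) - ((y :: A).map c').prod * φ 1 =
        c' y * ((φ (ρ A.prod) - (A.map c').prod * φ 1) + φ (el ρ c y * ρ A.prod)) := by
      rw [List.prod_cons, map_mul, hy.map_eq, smul_mul_assoc, add_mul, one_mul, map_smul, map_add,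
        smul_eq_mul, List.map_cons, List.prod_cons]
      ring
    rw [e]
    exact S.mul_mem hy.1.2.1 (S.add_mem h1 h4)

private theorem exp_right (hL : ∀ y ∈ L, Lt S ρ c c' z z' y) (A : List G)
    (hA : ∀ y ∈ A, y ∈ L) :
    ∀ φ : Matrix (Fin r) (Fin r) R →ₗ[R] R,
      (∀ E : List G, E ≠ [] → (∀ y ∈ E, y ∈ L) → φ (ew ρ c E) ∈ S) →
      φ (ρ A.prod⁻¹) - (A.map c).prod * φ 1 ∈ S := by
  induction A with
  | nil =>
    intro φ _
    simp [S.zero_mem]
  | cons y A ih =>
    intro φ hφ
    have hA' : ∀ x ∈ A, x ∈ L := fun x hx => hA x (List.mem_cons_of_mem _ hx)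
    have hyL : y ∈ L := hA y List.mem_cons_self
    have hy := hL y hyL
    have h1 := ih hA' φ hφ
    have h2 := ih hA' (φ ∘ₗ LinearMap.mulRight R (el ρ c y)) (by
      intro E _ hE
      have h3 := hφ (E ++ [y]) (by simp) (by
        intro x hx
        rcases List.mem_append.1 hx with hx | hx
        · exact hE x hx
        · rw [List.mem_singleton.1 hx]
          exact hyL)
      rw [ew_append, ew_cons, ew_nil, mul_one] at h3
      exact h3)
    simp only [LinearMap.comp_apply, LinearMap.mulRight_apply, one_mul] at h2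
    have h3 : φ (el ρ c y) ∈ S := by
      have h4 := hφ [y] (List.cons_ne_nil _ _) (by
        intro x hx
        rw [List.mem_singleton.1 hx]
        exact hyL)
      rwa [ew_cons, ew_nil, mul_one] at h4
    obtain ⟨-, k1, -⟩ := exp_kap hL A hA'
    have h4 : φ (ρ A.prod⁻¹ * el ρ c y) ∈ S := by
      have h5 := S.add_mem h2 (S.mul_mem k1 h3)
      rwa [sub_add_cancel] at h5
    have e : φ (ρ (y :: A).prod⁻¹) - ((y :: A).map c).prod * φ 1 =
        c y * ((φ (ρ A.prod⁻¹) - (A.map c).prod * φ 1) -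
          z' y * φ (ρ A.prod⁻¹ * el ρ c y)) := by
      rw [List.prod_cons, _root_.mul_inv_rev, map_mul, hy.map_inv, mul_smul_comm, mul_sub, mul_one,
        mul_smul_comm, map_smul, map_sub, map_smul, smul_eq_mul, smul_eq_mul, List.map_cons,
        List.prod_cons]
      ring
    rw [e]
    exact S.mul_mem hy.1.1 (S.sub_mem h1 (S.mul_mem hy.1.2.2.2 h4))

end exp

theorem thm_Exp : St_Exp := by
  intro R _ G _ r S ρ c c' z z' L hL
  obtain ⟨h1, h2, h3⟩ := exp_kap hL L fun _ h => h
  exact ⟨(L.map c').prod, h1, (L.map c).prod, h2, h3, fun φ hφ =>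
    ⟨exp_left hL L (fun _ h => h) φ hφ, exp_right hL L (fun _ h => h) φ hφ⟩⟩

end Pool.Agent.TRS
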