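import Pool.Agent.TRS.St2
import Pool.Agent.HZ.RedE

/-!
# TRS, module FI1: one puncture, irreducible representations
-/

set_option autoImplicit false

namespace Pool.Agent.TRS

open Matrix Pool.Agent.HZ Pool.Agent.PRS
open scoped ComplexOrder

variable {r : ℕ}

private theorem fi1_th (σ : RingAut ℂ) (ρ : F 0 →* GL (Fin r) ℂ) (h : TH 0 r ρ) :
    TH 0 r (gal σ ρ) := by
  refine ⟨fun y hy => gal_PR σ ρ y (h.pr y hy), fun φ hφ y T hT => ?_, fun φ hφ N y T hT => ?_⟩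
  · have h1 := (h.pa φ hφ y T hT).image (GeneralLinearGroup.map (n := Fin r) (σ : ℂ →+* ℂ))
    rw [← Set.image_comp] at h1
    exact h1
  · have h1 := (h.pb φ hφ N y T hT).image (GeneralLinearGroup.map (n := Fin r) (σ : ℂ →+* ℂ))
    rw [← Set.image_comp] at h1
    exact h1

private theorem fi1_mulVec (σ : RingAut ℂ) (A : Matrix (Fin r) (Fin r) ℂ) (v : Fin r → ℂ) :
    (A.map σ) *ᵥ v = fun i => σ ((A *ᵥ fun j => σ.symm (v j)) i) := by
  funext i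
  simp only [mulVec, dotProduct, map_sum, map_mul, map_apply, RingEquiv.apply_symm_apply]

private theorem fi1_ca (σ : RingAut ℂ) (A X : Matrix (Fin r) (Fin r) ℂ) (l : ℂ) (h : CA A X l) :
    CA (A.map σ) (X.map σ) (σ l) := by
  intro g
  obtain ⟨i, hi⟩ := h (σ.symm g)
  refine ⟨i, fun v h1 h2 => ?_⟩
  have key : ∀ (B : Matrix (Fin r) (Fin r) ℂ) (c : ℂ), (B.map σ) *ᵥ v = c • v →
      B *ᵥ (fun j => σ.symm (v j)) = σ.symm c • fun j => σ.symm (v j) := by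
    intro B c hB
    rw [fi1_mulVec] at hB
    funext j
    have h3 := congrArg σ.symm (congrFun hB j)
    simpa using h3
  have h3 := key A _ h1
  have h4 := key X _ h2
  rw [map_mul, map_pow, RingEquiv.symm_apply_apply] at h3
  rw [RingEquiv.symm_apply_apply] at h4
  have h5 := hi _ h3 h4
  funext j
  have h6 := congrFun h5 j
  simpa using h6

private theorem fi1_rank (σ : RingAut ℂ) (X : Matrix (Fin r) (Fin r) ℂ) (l : ℂ)
    (h : (X - l • (1 : Matrix (Fin r) (Fin r) ℂ)).rank ≤ 1) :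
    (X.map σ - σ l • (1 : Matrix (Fin r) (Fin r) ℂ)).rank ≤ 1 := by
  obtain ⟨u, f, e⟩ := exists_vecMulVec _ h
  have h1 : X.map σ - σ l • (1 : Matrix (Fin r) (Fin r) ℂ) =
      vecMulVec (fun i => σ (u i)) (fun i => σ (f i)) := by
    ext i j
    have h2 := congrArg σ (congrFun (congrFun e i) j)
    simp only [Matrix.sub_apply, Matrix.smul_apply, smul_eq_mul, vecMulVec_apply, map_sub,
      map_mul] at h2
    simp only [Matrix.sub_apply, Matrix.smul_apply, smul_eq_mul, vecMulVec_apply, Matrix.map_apply]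
    rw [← h2]
    by_cases hij : i = j
    · subst hij
      simp
    · simp [one_apply_ne hij]
  rw [h1]
  exact rank_vecMulVec_le _ _

private theorem fi1_tX : ∃ x : F 0, tX 0 = [x] ∧
    FreeGroup.of 0 * FreeGroup.of 1 = FreeGroup.of 1 * FreeGroup.of 0 * x := by
  refine ⟨_, rfl, ?_⟩
  have h1 : (tY 0).prod = 1 := by simp [tY]
  rw [h1]
  group

private theorem fi1_le (hD : St_D1T) (hPo : St_Po1) (hH : St_Her) (hU : St_Uni)
    (ρ : F 0 →* GL (Fin r) ℂ) (hr : 0 < r) (hirr : Irr ρ.range) (hT : TH 0 r ρ)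
    (hC : ∃ l : ℂ, ∀ x ∈ tX 0,
      ((ρ x : Matrix (Fin r) (Fin r) ℂ) - l • (1 : Matrix (Fin r) (Fin r) ℂ)).rank ≤ 1 ∧
      CA (ρ (FreeGroup.of 0) : Matrix (Fin r) (Fin r) ℂ) (ρ x : Matrix (Fin r) (Fin r) ℂ) l)
    (w : F 0) : ‖(ρ w : Matrix (Fin r) (Fin r) ℂ).trace‖ ≤ r := by
  obtain ⟨x, hx, hrel⟩ := fi1_tX
  obtain ⟨l, hl⟩ := hC
  obtain ⟨h1, h2⟩ := hl x (by rw [hx]; exact List.mem_singleton.2 rfl)
  obtain ⟨H, hH1, hH2, hH3⟩ := hH r ρ.range hr hirr (by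
    rintro _ ⟨y, rfl⟩
    rw [← map_inv]
    exact hD r ρ hT y)
  have h3 := hT.pa 1 (fun y hy => ⟨y, hy, IsConj.refl _⟩) x [] hx
  have h4 := finite_closure ρ (FreeGroup.of 0) x h3
  obtain ⟨s, hs⟩ := hPo r (ρ (FreeGroup.of 0)) (ρ (FreeGroup.of 1)) (ρ x) l H hr
    (by rw [← map_mul, hrel, map_mul, map_mul]) h1 h4 h2 hH1 hH2 (hH3 _ ⟨_, rfl⟩)
    (hH3 _ ⟨_, rfl⟩)
  refine hU r ((s : ℂ) • H) _ hs ?_
  rw [mul_smul_comm, smul_mul_assoc, hH3 _ ⟨w, rfl⟩]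

theorem thm_Fi1 (hC1 : St_C1T) (hD : St_D1T) (hPo : St_Po1) (hH : St_Her) (hU : St_Uni)
    (hK : St_Kro) (hTr : St_Tra) : St_Fi1 := by
  intro r ρ hr hirr hT hC w
  obtain ⟨M, hM, hcyc⟩ := hC1 r ρ hT
  have hfin := hK M r hM
  have hmem : ∀ v : F 0, (ρ v : Matrix (Fin r) (Fin r) ℂ).trace ∈
      {x : ℂ | x ∈ Algebra.adjoin ℤ {x : ℂ | x ^ M = 1} ∧ ∀ σ : RingAut ℂ, ‖σ x‖ ≤ (r : ℝ)} := by
    intro v
    refine ⟨hcyc v, fun σ => ?_⟩
    rw [← gal_trace]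
    refine fi1_le hD hPo hH hU (gal σ ρ) hr (gal_irr σ ρ hirr) (fi1_th σ ρ hT) ?_ v
    obtain ⟨l, hl⟩ := hC
    refine ⟨σ l, fun x hx => ?_⟩
    obtain ⟨h1, h2⟩ := hl x hx
    rw [gal_coe, gal_coe]
    exact ⟨fi1_rank σ _ l h1, fi1_ca σ _ _ l h2⟩
  have h1 := hTr r (ρ w : Matrix (Fin r) (Fin r) ℂ) (hfin.subset (by
    rintro t ⟨k, rfl⟩
    have h2 := hmem (w ^ k)
    rwa [map_pow, Units.val_pow_eq_pow_val] at h2))
  intro z hz
  refine h1 z hz ?_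
  rintro rfl
  have h2 : (0 : ℂ) ∈ spectrum ℂ (ρ w : Matrix (Fin r) (Fin r) ℂ) :=
    Matrix.mem_spectrum_iff_isRoot_charpoly.2 hz
  rw [spectrum.zero_mem_iff] at h2
  exact h2 (ρ w).isUnit

end Pool.Agent.TRS
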