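import Pool.Agent.TRS.St1

/-!
# Module NRM: normal forms of words in two letters
-/

set_option autoImplicit false

namespace Pool.Agent.TRS

section NRM

variable {G : Type} [Group G]

private theorem nrm_rep (a b : G) (k : ℕ) (s : Bool × Bool) :
    gw a b (List.replicate k s) = gl a b s ^ k := by
  simp [gw]

/-- the word `u v u v ...` -/
private def nrmAlt (u v : Bool × Bool) : ℕ → List (Bool × Bool)
  | 0 => []
  | m + 1 => u :: v :: nrmAlt u v m

private theorem nrm_alt (a b : G) (u v : Bool × Bool) (m : ℕ) :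
    gw a b (nrmAlt u v m) = (gl a b u * gl a b v) ^ m := by
  induction m with
  | zero => simp [nrmAlt, gw_nil]
  | succ m ih => rw [nrmAlt, gw_cons, gw_cons, ih, pow_succ', mul_assoc]

private theorem nrm_altc (u v x : Bool × Bool) (m : ℕ) :
    (nrmAlt u v m).count x = (if u = x then m else 0) + (if v = x then m else 0) := by
  induction m with
  | zero => simp [nrmAlt]
  | succ m ih =>
    rw [nrmAlt, List.count_cons, List.count_cons, ih]
    by_cases h1 : u = x <;> by_cases h2 : v = x <;> simp [h1, h2]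
    omega

private theorem nrm_key (a b a' b' : G) (p q m k : ℕ) (s t u v w u' w' : Bool × Bool)
    (g : List (Bool × Bool)) (hg : g.Perm (List.replicate p s ++ List.replicate q t))
    (hp : ∀ x, (if s = x then p else 0) + (if t = x then q else 0) =
      (if u = x then m else 0) + (if v = x then m else 0) + (if w = x then k else 0))
    (h1 : gl a' b' u' = gl a b u * gl a b v) (h2 : gl a' b' w' = gl a b w)
    (hl : m + k < p + q) :
    ∃ g' : List (Bool × Bool), g.Perm g' ∧ ∃ g'' : List (Bool × Bool), g''.length < g.length ∧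
      gw a b g' = gw a' b' g'' := by
  refine ⟨nrmAlt u v m ++ List.replicate k w, hg.trans ?_,
    List.replicate m u' ++ List.replicate k w', ?_, ?_⟩
  · rw [List.perm_iff_count]
    intro x
    rw [List.count_append, List.count_append, nrm_altc, List.count_replicate,
      List.count_replicate, List.count_replicate]
    simpa using hp x
  · rw [hg.length_eq]
    simpa using hl
  · rw [gw_append, gw_append, nrm_alt, nrm_rep, nrm_rep, nrm_rep, h1, h2]

private theorem nrm_count (g : List (Bool × Bool)) (e d : Bool) (h1 : (true, !e) ∉ g)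
    (h2 : (false, !d) ∉ g) :
    g.Perm (List.replicate (g.count (true, e)) (true, e) ++
      List.replicate (g.count (false, d)) (false, d)) := by
  rw [List.perm_iff_count]
  intro x
  rw [List.count_append, List.count_replicate, List.count_replicate]
  have e1 := List.count_eq_zero.2 h1
  have e2 := List.count_eq_zero.2 h2
  rcases x with ⟨x, y⟩
  cases e <;> cases d <;> cases x <;> cases y <;> simp_all

private theorem nrm_cancel (a b : G) (g : List (Bool × Bool)) (t : Bool) (h1 : (t, true) ∈ g)
    (h2 : (t, false) ∈ g) :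
    ∃ g' : List (Bool × Bool), g.Perm g' ∧
      ∃ g'' : List (Bool × Bool), g''.length < g.length ∧ gw a b g' = gw a b g'' := by
  have e1 : g.Perm ((t, true) :: g.erase (t, true)) := List.perm_cons_erase h1
  have h3 : (t, false) ∈ g.erase (t, true) :=
    (List.mem_erase_of_ne (by simp)).2 h2
  have e2 : (g.erase (t, true)).Perm ((t, false) :: (g.erase (t, true)).erase (t, false)) :=
    List.perm_cons_erase h3
  have e3 := e1.trans (e2.cons (t, true))
  refine ⟨_, e3, (g.erase (t, true)).erase (t, false), ?_, ?_⟩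
  · rw [e3.length_eq, List.length_cons, List.length_cons]
    omega
  · rw [gw_cons, gw_cons, ← mul_assoc]
    cases t <;> simp [gl]

end NRM

theorem thm_Nrm : St_Nrm := by
  intro G _ a b g hg
  by_cases hA : ∃ t, (t, true) ∈ g ∧ (t, false) ∈ g
  · obtain ⟨t, h1, h2⟩ := hA
    obtain ⟨g', e1, e2⟩ := nrm_cancel a b g t h1 h2
    exact ⟨g', e1, Or.inl e2⟩
  have hB : ∀ t, ∃ e : Bool, (t, !e) ∉ g := by
    intro t
    by_contra hc
    push Not at hc
    exact hA ⟨t, hc false, hc true⟩
  obtain ⟨e, he⟩ := hB true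
  obtain ⟨d, hd⟩ := hB false
  have hperm := nrm_count g e d he hd
  obtain ⟨p, hp⟩ : ∃ p, p = g.count (true, e) := ⟨_, rfl⟩
  obtain ⟨q, hq⟩ : ∃ q, q = g.count (false, d) := ⟨_, rfl⟩
  rw [← hp, ← hq] at hperm
  have hlen := hperm.length_eq
  rw [List.length_append, List.length_replicate, List.length_replicate] at hlen
  have hpos : 0 < g.length := List.length_pos_of_ne_nil hg
  rcases Nat.eq_zero_or_pos q with hq0 | hq0
  · refine ⟨_, hperm, Or.inr (Or.inl ?_)⟩
    rw [hq0, List.replicate_zero, List.append_nil, nrm_rep]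
    cases e
    · exact ⟨-(p : ℤ), by simp [gl]⟩
    · exact ⟨(p : ℤ), by simp [gl]⟩
  rcases Nat.eq_zero_or_pos p with hp0 | hp0
  · refine ⟨_, hperm, Or.inr (Or.inr (Or.inl ?_))⟩
    rw [hp0, List.replicate_zero, List.nil_append, nrm_rep]
    cases d
    · exact ⟨-(q : ℤ), by simp [gl]⟩
    · exact ⟨(q : ℤ), by simp [gl]⟩
  rcases Nat.lt_or_ge p q with hpq | hpq
  · -- the second pair
    obtain ⟨r, rfl⟩ : ∃ r, q = p + r := ⟨q - p, by omega⟩
    cases e <;> cases d
    · obtain ⟨g', e1, e2⟩ := nrm_key a b (b ^ (1 : ℤ) * a) b p (p + r) p r _ _ (true, false)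
        (false, false) (false, false) (true, false) (false, false) g hperm
        (by rintro ⟨_ | _, _ | _⟩ <;> simp) (by simp [gl]) (by simp [gl]) (by omega)
      exact ⟨g', e1, Or.inr (Or.inr (Or.inr (Or.inr ⟨1, e2⟩)))⟩
    · obtain ⟨g', e1, e2⟩ := nrm_key a b (b ^ (-1 : ℤ) * a) b p (p + r) p r _ _ (true, false)
        (false, true) (false, true) (true, false) (false, true) g hperm
        (by rintro ⟨_ | _, _ | _⟩ <;> simp) (by simp [gl]) (by simp [gl]) (by omega)
      exact ⟨g', e1, Or.inr (Or.inr (Or.inr (Or.inr ⟨-1, e2⟩)))⟩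
    · obtain ⟨g', e1, e2⟩ := nrm_key a b (b ^ (-1 : ℤ) * a) b p (p + r) p r _ _ (false, false)
        (true, true) (false, false) (true, true) (false, false) g hperm
        (by rintro ⟨_ | _, _ | _⟩ <;> simp) (by simp [gl]) (by simp [gl]) (by omega)
      exact ⟨g', e1, Or.inr (Or.inr (Or.inr (Or.inr ⟨-1, e2⟩)))⟩
    · obtain ⟨g', e1, e2⟩ := nrm_key a b (b ^ (1 : ℤ) * a) b p (p + r) p r _ _ (false, true)
        (true, true) (false, true) (true, true) (false, true) g hperm
        (by rintro ⟨_ | _, _ | _⟩ <;> simp) (by simp [gl]) (by simp [gl]) (by omega)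
      exact ⟨g', e1, Or.inr (Or.inr (Or.inr (Or.inr ⟨1, e2⟩)))⟩
  · -- the first pair
    obtain ⟨r, rfl⟩ : ∃ r, p = q + r := ⟨p - q, by omega⟩
    cases e <;> cases d
    · obtain ⟨g', e1, e2⟩ := nrm_key a b a (a ^ (1 : ℤ) * b) (q + r) q q r _ _ (false, false)
        (true, false) (true, false) (false, false) (true, false) g hperm
        (by rintro ⟨_ | _, _ | _⟩ <;> simp) (by simp [gl]) (by simp [gl]) (by omega)
      exact ⟨g', e1, Or.inr (Or.inr (Or.inr (Or.inl ⟨1, e2⟩)))⟩
    · obtain ⟨g', e1, e2⟩ := nrm_key a b a (a ^ (-1 : ℤ) * b) (q + r) q q r _ _ (true, false)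
        (false, true) (true, false) (false, true) (true, false) g hperm
        (by rintro ⟨_ | _, _ | _⟩ <;> simp) (by simp [gl]) (by simp [gl]) (by omega)
      exact ⟨g', e1, Or.inr (Or.inr (Or.inr (Or.inl ⟨-1, e2⟩)))⟩
    · obtain ⟨g', e1, e2⟩ := nrm_key a b a (a ^ (-1 : ℤ) * b) (q + r) q q r _ _ (false, false)
        (true, true) (true, true) (false, false) (true, true) g hperm
        (by rintro ⟨_ | _, _ | _⟩ <;> simp) (by simp [gl]) (by simp [gl]) (by omega)
      exact ⟨g', e1, Or.inr (Or.inr (Or.inr (Or.inl ⟨-1, e2⟩)))⟩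
    · obtain ⟨g', e1, e2⟩ := nrm_key a b a (a ^ (1 : ℤ) * b) (q + r) q q r _ _ (true, true)
        (false, true) (true, true) (false, true) (true, true) g hperm
        (by rintro ⟨_ | _, _ | _⟩ <;> simp) (by simp [gl]) (by simp [gl]) (by omega)
      exact ⟨g', e1, Or.inr (Or.inr (Or.inr (Or.inl ⟨1, e2⟩)))⟩

end Pool.Agent.TRS
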