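import Pool.Agent.TRS.St2
import Pool.Agent.PRS.POSX

/-!
# Definiteness for one puncture
-/

set_option autoImplicit false

namespace Pool.Agent.TRS

open Matrix Pool.Agent.HZ Pool.Agent.PRS Pool.Agent.PRS.Pos
open scoped ComplexOrder

variable {r : ℕ} {H A : Matrix (Fin r) (Fin r) ℂ} {N : ℕ}

private theorem Po1_pow (hAN : A ^ N = 1) {x : Fin r → ℂ} {g : ℂ} (hx : x ≠ 0)
    (h : A *ᵥ x = g • x) : g ^ N = 1 := by
  have h1 := Pos.pow_mulVec h N
  rw [hAN, one_mulVec] at h1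
  have h2 : (g ^ N - 1) • x = 0 := by
    rw [sub_smul, one_smul, ← h1, sub_self]
  exact sub_eq_zero.mp ((smul_eq_zero.mp h2).resolve_right hx)

private theorem hf_sub_left (v v' w : Fin r → ℂ) : hf H (v - v') w = hf H v w - hf H v' w := by
  unfold hf
  rw [star_sub, sub_dotProduct]

/-- the step: from an eigenvector to one in the kernel of `f` -/
private theorem Po1_step (hH : H.IsHermitian) (hA : Aᴴ * H * A = H) (hN : 0 < N)
    (hAN : A ^ N = 1) {u f : Fin r → ℂ} {k : ℂ} (hk0 : k ≠ 0)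
    (hk : ∀ w, hf H u w = k * (f ⬝ᵥ w))
    (hpos : ∀ g, pj A N g u ≠ 0 → 0 < qf H u * qf H (pj A N g u)) {x : Fin r → ℂ} {g : ℂ}
    (hx : x ≠ 0) (hAx : A *ᵥ x = g • x) (hQ : qf H u * qf H x ≤ 0) :
    ∃ x' : Fin r → ℂ, x' ≠ 0 ∧ A *ᵥ x' = g • x' ∧ f ⬝ᵥ x' = 0 ∧ qf H u * qf H x' ≤ 0 := by
  have hgN := Po1_pow hAN hx hAx
  have hg0 : g ≠ 0 := by
    rintro rfl
    rw [zero_pow hN.ne'] at hgN
    exact zero_ne_one hgN
  have hgs := star_mul_self_of_pow hN hgN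
  obtain ⟨w, hwd⟩ : ∃ w, w = pj A N g u := ⟨_, rfl⟩
  have hw : A *ᵥ w = g • w := by rw [hwd]; exact pj_eig hg0 hAN hgN u
  have hN0 : (N : ℂ) ≠ 0 := by exact_mod_cast hN.ne'
  have key2 : ∀ y, A *ᵥ y = g • y → hf H w y = 0 → f ⬝ᵥ y = 0 := by
    intro y hy h0
    have h1 := hf_pj (m := N) hA hgs hy u
    rw [← hwd, h0, hk] at h1
    exact (mul_eq_zero.mp ((mul_eq_zero.mp h1.symm).resolve_left hN0)).resolve_left hk0
  by_cases hw0 : w = 0
  · exact ⟨x, hx, hAx, key2 x hAx (by rw [hw0, hf_zero_left]), hQ⟩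
  have hq : 0 < qf H u * qf H w := by
    rw [hwd]
    exact hpos g (by rw [← hwd]; exact hw0)
  have hqw : qf H w ≠ 0 := by
    intro h0
    rw [h0, mul_zero] at hq
    exact lt_irrefl _ hq
  have hqwC : (qf H w : ℂ) ≠ 0 := by exact_mod_cast hqw
  obtain ⟨c, hc⟩ : ∃ c : ℂ, hf H w x = c * (qf H w : ℂ) :=
    ⟨hf H w x / (qf H w : ℂ), (div_mul_cancel₀ _ hqwC).symm⟩
  have hwx' : hf H w (x - c • w) = 0 := by
    rw [hf_sub_right, hf_smul_right, hf_self hH, hc, sub_self]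
  have hx'w : hf H (x - c • w) w = 0 := by
    rw [hf_conj hH w, hwx', star_zero]
  have hq' : qf H (x - c • w) = qf H x - Complex.normSq c * qf H w := by
    have h1 : hf H (x - c • w) (x - c • w) = hf H x x - star c * (c * (qf H w : ℂ)) := by
      rw [hf_sub_right, hf_smul_right, hx'w, mul_zero, sub_zero, hf_sub_left, hf_smul_left, hc]
    rw [hf_self hH, hf_self hH] at h1
    have h2 : ((qf H (x - c • w) : ℝ) : ℂ) =
        ((qf H x - Complex.normSq c * qf H w : ℝ) : ℂ) := by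
      rw [h1]
      push_cast
      rw [← Complex.mul_conj c, Complex.star_def]
      ring
    exact_mod_cast h2
  have hns := Complex.normSq_nonneg c
  have hQ' : qf H u * qf H (x - c • w) = qf H u * qf H x -
      Complex.normSq c * (qf H u * qf H w) := by
    rw [hq']
    ring
  refine ⟨x - c • w, ?_, ?_, ?_, ?_⟩
  · intro h0
    rw [h0, Pos.qf_zero, mul_zero] at hQ'
    have h3 : Complex.normSq c * (qf H u * qf H w) ≤ 0 := by linarith
    have h4 : Complex.normSq c = 0 := by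
      by_contra h4
      have h5 : 0 < Complex.normSq c := lt_of_le_of_ne hns (Ne.symm h4)
      exact absurd (mul_pos h5 hq) (not_lt.mpr h3)
    rw [Complex.normSq_eq_zero.mp h4, zero_smul, sub_zero] at h0
    exact hx h0
  · rw [mulVec_sub, mulVec_smul, hAx, hw, smul_sub, smul_comm]
  · refine key2 _ ?_ hwx'
    rw [mulVec_sub, mulVec_smul, hAx, hw, smul_sub, smul_comm]
  · rw [hQ']
    have := mul_nonneg hns hq.le
    linarith

/-- **PO1** -/
theorem thm_Po1 : St_Po1 := by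
  intro r A B X l H hr hAB hrank hfin hCA hH hU hA hB
  rcases Nat.lt_or_ge r 2 with h | hr2
  · obtain rfl : r = 1 := by omega
    exact rank_one hH hU
  obtain ⟨u, f, huf⟩ := exists_vecMulVec _ hrank
  have hX : (X : Matrix (Fin r) (Fin r) ℂ) =
      l • (1 : Matrix (Fin r) (Fin r) ℂ) + vecMulVec u f := by rw [← huf]; abel
  have hABm : (A : Matrix (Fin r) (Fin r) ℂ) * (B : Matrix (Fin r) (Fin r) ℂ) =
      (B : Matrix (Fin r) (Fin r) ℂ) * (A : Matrix (Fin r) (Fin r) ℂ) *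
        (X : Matrix (Fin r) (Fin r) ℂ) := by
    have h1 := congrArg (fun g : GL (Fin r) ℂ => (g : Matrix (Fin r) (Fin r) ℂ)) hAB
    simpa only [Units.val_mul] using h1
  have hABv : ∀ v : Fin r → ℂ, (A : Matrix (Fin r) (Fin r) ℂ) *ᵥ
      ((B : Matrix (Fin r) (Fin r) ℂ) *ᵥ v) = (B : Matrix (Fin r) (Fin r) ℂ) *ᵥ
      ((A : Matrix (Fin r) (Fin r) ℂ) *ᵥ ((X : Matrix (Fin r) (Fin r) ℂ) *ᵥ v)) := by
    intro v
    rw [mulVec_mulVec, mulVec_mulVec, mulVec_mulVec, hABm, mul_assoc]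
  have hXiso : (X : Matrix (Fin r) (Fin r) ℂ)ᴴ * H * (X : Matrix (Fin r) (Fin r) ℂ) = H := by
    have h1 : ((A : Matrix (Fin r) (Fin r) ℂ) * (B : Matrix (Fin r) (Fin r) ℂ))ᴴ * H *
        ((A : Matrix (Fin r) (Fin r) ℂ) * (B : Matrix (Fin r) (Fin r) ℂ)) = H := by
      rw [conjTranspose_mul]
      calc (B : Matrix (Fin r) (Fin r) ℂ)ᴴ * (A : Matrix (Fin r) (Fin r) ℂ)ᴴ * H *
          ((A : Matrix (Fin r) (Fin r) ℂ) * (B : Matrix (Fin r) (Fin r) ℂ))
          = (B : Matrix (Fin r) (Fin r) ℂ)ᴴ * ((A : Matrix (Fin r) (Fin r) ℂ)ᴴ * H *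
            (A : Matrix (Fin r) (Fin r) ℂ)) * (B : Matrix (Fin r) (Fin r) ℂ) := by
            simp only [mul_assoc]
        _ = H := by rw [hA, hB]
    have h2 : ((A : Matrix (Fin r) (Fin r) ℂ) * (B : Matrix (Fin r) (Fin r) ℂ))ᴴ * H *
        ((A : Matrix (Fin r) (Fin r) ℂ) * (B : Matrix (Fin r) (Fin r) ℂ)) =
        (X : Matrix (Fin r) (Fin r) ℂ)ᴴ * H * (X : Matrix (Fin r) (Fin r) ℂ) := by
      rw [hABm, conjTranspose_mul, conjTranspose_mul]
      calc (X : Matrix (Fin r) (Fin r) ℂ)ᴴ * ((A : Matrix (Fin r) (Fin r) ℂ)ᴴ *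
          (B : Matrix (Fin r) (Fin r) ℂ)ᴴ) * H * ((B : Matrix (Fin r) (Fin r) ℂ) *
          (A : Matrix (Fin r) (Fin r) ℂ) * (X : Matrix (Fin r) (Fin r) ℂ))
          = (X : Matrix (Fin r) (Fin r) ℂ)ᴴ * ((A : Matrix (Fin r) (Fin r) ℂ)ᴴ *
            ((B : Matrix (Fin r) (Fin r) ℂ)ᴴ * H * (B : Matrix (Fin r) (Fin r) ℂ)) *
            (A : Matrix (Fin r) (Fin r) ℂ)) * (X : Matrix (Fin r) (Fin r) ℂ) := by
            simp only [mul_assoc]
        _ = (X : Matrix (Fin r) (Fin r) ℂ)ᴴ * H * (X : Matrix (Fin r) (Fin r) ℂ) := by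
            rw [hB, hA]
    rw [← h2, h1]
  have hne : vecMulVec u f ≠ 0 := by
    intro h0
    rw [h0, add_zero] at hX
    have hXv : ∀ v : Fin r → ℂ, (X : Matrix (Fin r) (Fin r) ℂ) *ᵥ v = l • v := by
      intro v
      rw [hX, smul_mulVec, one_mulVec]
    have : Nonempty (Fin r) := ⟨⟨0, hr⟩⟩
    obtain ⟨g, hg⟩ := Module.End.exists_eigenvalue
      (Matrix.toLin' (A : Matrix (Fin r) (Fin r) ℂ))
    obtain ⟨v, hv⟩ := hg.exists_hasEigenvector
    have hv0 : v ≠ 0 := hv.2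
    have hvA : (A : Matrix (Fin r) (Fin r) ℂ) *ᵥ v = g • v := by
      have h1 := hv.apply_eq_smul
      rwa [Matrix.toLin'_apply] at h1
    have h1 : ∀ i : ℕ, (A : Matrix (Fin r) (Fin r) ℂ) *ᵥ
        (((B : Matrix (Fin r) (Fin r) ℂ) ^ i) *ᵥ v) =
        (g * l ^ i) • (((B : Matrix (Fin r) (Fin r) ℂ) ^ i) *ᵥ v) := by
      intro i
      induction i with
      | zero => rw [pow_zero, one_mulVec, pow_zero, mul_one, hvA]
      | succ i ih =>
        rw [pow_succ', ← mulVec_mulVec, hABv, hXv, mulVec_smul, ih, mulVec_smul, mulVec_smul,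
          smul_smul, pow_succ]
        congr 1
        ring
    have h2 : ∀ i : ℕ, ((B : Matrix (Fin r) (Fin r) ℂ) ^ i) *ᵥ v ≠ 0 := by
      intro i
      induction i with
      | zero => rw [pow_zero, one_mulVec]; exact hv0
      | succ i ih =>
        rw [pow_succ', ← mulVec_mulVec]
        exact mulVec_ne B ih
    obtain ⟨i, hi⟩ := hCA g
    exact h2 i (hi _ (h1 i) (hXv _))
  have hu : u ≠ 0 := by
    rintro rfl
    apply hne
    ext i j
    rw [vecMulVec_apply, Pi.zero_apply, zero_mul, Matrix.zero_apply]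
  have hf0 : f ≠ 0 := by
    rintro rfl
    apply hne
    ext i j
    rw [vecMulVec_apply, Pi.zero_apply, mul_zero, Matrix.zero_apply]
  have hKiso := isometry_closure (H := H) (S := ({A, X} : Set (GL (Fin r) ℂ))) (by
    rintro y (rfl | rfl)
    · exact hA
    · exact hXiso)
  have hAK : A ∈ Subgroup.closure ({A, X} : Set (GL (Fin r) ℂ)) :=
    Subgroup.subset_closure (by simp)
  have hXK : X ∈ Subgroup.closure ({A, X} : Set (GL (Fin r) ℂ)) :=
    Subgroup.subset_closure (by simp)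
  obtain ⟨hll, hfu, ⟨k, hk0, hk⟩, hspan⟩ := orbit_sign hr2 hH hU _ hKiso hXK hX hu hf0
  -- the order
  obtain ⟨N, hN, hAN⟩ : ∃ N : ℕ, 0 < N ∧ (A : Matrix (Fin r) (Fin r) ℂ) ^ N = 1 :=
    exists_pow _ hAK
  have hpos : ∀ g, pj (A : Matrix (Fin r) (Fin r) ℂ) N g u ≠ 0 →
      0 < qf H u * qf H (pj (A : Matrix (Fin r) (Fin r) ℂ) N g u) := by
    intro g hg
    refine hspan _ ?_ hg
    rw [pj_apply]
    refine Submodule.sum_mem _ fun t _ => Submodule.smul_mem _ _ (Submodule.subset_span ?_)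
    exact ⟨A ^ t, Subgroup.pow_mem _ hAK t, by rw [Units.val_pow_eq_pow_val]⟩
  have hXv : ∀ v : Fin r → ℂ, f ⬝ᵥ v = 0 → (X : Matrix (Fin r) (Fin r) ℂ) *ᵥ v = l • v := by
    intro v hv
    rw [hX, pr_mulVec, hv, zero_smul, add_zero]
  -- all eigenvectors are positive
  have heig : ∀ (g : ℂ) (x : Fin r → ℂ), x ≠ 0 → (A : Matrix (Fin r) (Fin r) ℂ) *ᵥ x = g • x →
      0 < qf H u * qf H x := by
    intro g x hx hAx
    by_contra hQ
    have hQ0 : qf H u * qf H x ≤ 0 := not_lt.mp hQ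
    have hall : ∀ i : ℕ, ∃ y : Fin r → ℂ, y ≠ 0 ∧
        (A : Matrix (Fin r) (Fin r) ℂ) *ᵥ y = (g * l ^ i) • y ∧ qf H u * qf H y ≤ 0 := by
      intro i
      induction i with
      | zero => exact ⟨x, hx, by rw [pow_zero, mul_one, hAx], hQ0⟩
      | succ i ih =>
        obtain ⟨y, hy, hAy, hQy⟩ := ih
        obtain ⟨z, hz, hAz, hfz, hQz⟩ := Po1_step hH hA hN hAN hk0 hk hpos hy hAy hQy
        refine ⟨(B : Matrix (Fin r) (Fin r) ℂ) *ᵥ z, mulVec_ne B hz, ?_, ?_⟩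
        · rw [hABv, hXv z hfz, mulVec_smul, hAz, mulVec_smul, mulVec_smul, smul_smul, pow_succ]
          congr 1
          ring
        · have h1 : qf H ((B : Matrix (Fin r) (Fin r) ℂ) *ᵥ z) = qf H z := by
            unfold qf
            rw [hf_inv hB]
          rw [h1]
          exact hQz
    obtain ⟨i, hi⟩ := hCA g
    obtain ⟨y, hy, hAy, hQy⟩ := hall i
    obtain ⟨z, hz, hAz, hfz, -⟩ := Po1_step hH hA hN hAN hk0 hk hpos hy hAy hQy
    exact hz (hi z hAz (hXv z hfz))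
  -- the sum over the eigenvalues
  have hζ := Complex.isPrimitiveRoot_exp N hN.ne'
  obtain ⟨ζ, hζd⟩ : ∃ ζ, ζ = Complex.exp (2 * Real.pi * Complex.I / N) := ⟨_, rfl⟩
  rw [← hζd] at hζ
  have hE : ∀ s : ℕ, DatA H A N (ζ ^ s) := fun s => ⟨hA, hN, hAN, by
    rw [← pow_mul, mul_comm, pow_mul, hζ.pow_eq_one, one_pow]⟩
  have hN0 : (N : ℂ) ≠ 0 := by exact_mod_cast hN.ne'
  have hsum : ∀ v : Fin r → ℂ, (N : ℝ) * N * qf H v =
      ∑ s ∈ Finset.range N, qf H (pj (A : Matrix (Fin r) (Fin r) ℂ) N (ζ ^ s) v) := by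
    intro v
    have h1 : ∀ S : Finset ℕ, hf H v (∑ s ∈ S, pj (A : Matrix (Fin r) (Fin r) ℂ) N (ζ ^ s) v) =
        ∑ s ∈ S, hf H v (pj (A : Matrix (Fin r) (Fin r) ℂ) N (ζ ^ s) v) := by
      intro S
      induction S using Finset.induction_on with
      | empty => rw [Finset.sum_empty, Finset.sum_empty, hf_zero_right]
      | insert s S hs ih => rw [Finset.sum_insert hs, Finset.sum_insert hs, hf_add_right, ih]
    have h2 := h1 (Finset.range N)
    rw [sum_pj hN hζ, hf_smul_right] at h2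
    have h3 : ∀ s ∈ Finset.range N,
        (N : ℂ) * hf H v (pj (A : Matrix (Fin r) (Fin r) ℂ) N (ζ ^ s) v) =
        ((qf H (pj (A : Matrix (Fin r) (Fin r) ℂ) N (ζ ^ s) v) : ℝ) : ℂ) := by
      intro s _
      rw [← hf_self hH, (hE s).hf ((hE s).eig v)]
    have h4 : ((N : ℝ) * N * qf H v : ℂ) =
        ((∑ s ∈ Finset.range N, qf H (pj (A : Matrix (Fin r) (Fin r) ℂ) N (ζ ^ s) v) : ℝ) : ℂ) := by
      rw [Complex.ofReal_sum, ← Finset.sum_congr rfl h3, ← Finset.mul_sum, ← h2, hf_self hH]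
      push_cast
      ring
    exact_mod_cast h4
  have hNR : (0 : ℝ) < N := by exact_mod_cast hN
  have hfinal : ∀ x : Fin r → ℂ, x ≠ 0 → 0 < qf H u * qf H x := by
    intro x hx
    have hnn : ∀ s : ℕ, pj (A : Matrix (Fin r) (Fin r) ℂ) N (ζ ^ s) x ≠ 0 →
        0 < qf H u * qf H (pj (A : Matrix (Fin r) (Fin r) ℂ) N (ζ ^ s) x) := fun s hs =>
      heig _ _ hs ((hE s).eig x)
    have h1 : 0 < ∑ s ∈ Finset.range N,
        qf H u * qf H (pj (A : Matrix (Fin r) (Fin r) ℂ) N (ζ ^ s) x) := by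
      refine Finset.sum_pos' (fun s _ => ?_) ?_
      · by_cases h : pj (A : Matrix (Fin r) (Fin r) ℂ) N (ζ ^ s) x = 0
        · rw [h, Pos.qf_zero, mul_zero]
        · exact (hnn s h).le
      · by_contra h2
        have h3 : ∀ s ∈ Finset.range N, pj (A : Matrix (Fin r) (Fin r) ℂ) N (ζ ^ s) x = 0 := by
          intro s hs
          by_contra h4
          exact h2 ⟨s, hs, hnn s h4⟩
        have h4 := sum_pj (P := (A : Matrix (Fin r) (Fin r) ℂ)) hN hζ x
        rw [Finset.sum_eq_zero h3] at h4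
        exact (smul_ne_zero hN0 hx) h4.symm
    rw [← Finset.mul_sum, ← hsum] at h1
    have h2 : qf H u * ((N : ℝ) * N * qf H x) = ((N : ℝ) * N) * (qf H u * qf H x) := by ring
    rw [h2] at h1
    exact (mul_pos_iff_of_pos_left (mul_pos hNR hNR)).mp h1
  refine ⟨qf H u, Matrix.PosDef.of_dotProduct_mulVec_pos ?_ fun x hx => ?_⟩
  · unfold Matrix.IsHermitian
    rw [conjTranspose_smul, hH.eq, Complex.star_def, Complex.conj_ofReal]
  · have h5 : star x ⬝ᵥ (((qf H u : ℂ) • H) *ᵥ x) = ((qf H u * qf H x : ℝ) : ℂ) := by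
      rw [smul_mulVec, dotProduct_smul]
      have h6 : star x ⬝ᵥ (H *ᵥ x) = ((qf H x : ℝ) : ℂ) := hf_self hH x
      rw [h6]
      push_cast
      rfl
    rw [h5]
    exact_mod_cast hfinal x hx

end Pool.Agent.TRS
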