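import Pool.Agent.TRS.St1

/-!
# TRS, module SPL: the shape of a word, up to rotation
-/

set_option autoImplicit false

namespace Pool.Agent.TRS

open Matrix Pool.Agent.HZ Pool.Agent.PRS

section spl
variable {G : Type}

/-- the longest beginning without group letters -/
private theorem spl_e (w : List (Sy G)) : ∃ (E : List G) (w' : List (Sy G)),
    w = E.map Sy.e ++ w' ∧ (w' = [] ∨ ∃ s w'', w' = Sy.g s :: w'') := by
  induction w with
  | nil => exact ⟨[], [], rfl, Or.inl rfl⟩
  | cons x w ih =>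
    cases x with
    | g s => exact ⟨[], Sy.g s :: w, rfl, Or.inr ⟨s, w, rfl⟩⟩
    | e y =>
      obtain ⟨E, w', h, h'⟩ := ih
      exact ⟨y :: E, w', by rw [h]; rfl, h'⟩

/-- the longest beginning with group letters only -/
private theorem spl_g (w : List (Sy G)) : ∃ (g : List (Bool × Bool)) (w' : List (Sy G)),
    w = g.map Sy.g ++ w' ∧ (w' = [] ∨ ∃ y w'', w' = Sy.e y :: w'') := by
  induction w with
  | nil => exact ⟨[], [], rfl, Or.inl rfl⟩
  | cons x w ih =>
    cases x with
    | e y => exact ⟨[], Sy.e y :: w, rfl, Or.inr ⟨y, w, rfl⟩⟩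
    | g s =>
      obtain ⟨g, w', h, h'⟩ := ih
      exact ⟨s :: g, w', by rw [h]; rfl, h'⟩

private theorem rot_append {α : Type} (u v : List α) : (u ++ v).IsRotated (v ++ u) :=
  ⟨u.length, by simp⟩

end spl

theorem thm_Spl : St_Spl := by
  intro G _ w
  -- the beginning of group letters
  obtain ⟨g₀, w₀, h0, h0'⟩ := spl_g w
  rcases h0' with h0' | ⟨y, w₁, h0'⟩
  · left
    exact ⟨g₀, by rw [h0, h0', List.append_nil]⟩
  right
  -- rotate
  have hr : w.IsRotated (w₀ ++ g₀.map Sy.g) := by
    rw [h0]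
    exact rot_append _ _
  obtain ⟨E, w₂, h2, h2'⟩ := spl_e (w₁ ++ g₀.map Sy.g)
  have hr1 : w.IsRotated ((y :: E).map Sy.e ++ w₂) := by
    rw [h0'] at hr
    rw [List.cons_append, h2] at hr
    exact hr
  obtain ⟨g, w₃, h3, h3'⟩ := spl_g w₂
  rcases h3' with h3' | ⟨y', w₄, h3'⟩
  · left
    refine ⟨y :: E, g, List.cons_ne_nil _ _, ?_⟩
    rw [h3, h3', List.append_nil] at hr1
    exact hr1
  have hg : g ≠ [] := by
    rintro rfl
    rw [List.map_nil, List.nil_append, h3'] at h3
    rcases h2' with h2' | ⟨s, w₅, h2'⟩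
    · rw [h2'] at h3
      exact absurd h3 (by simp)
    · rw [h2'] at h3
      simp at h3
  rcases Nat.eq_zero_or_pos (gn w₄) with h4 | h4
  · -- no more group letters
    left
    have hw4 : ∃ F : List G, w₄ = F.map Sy.e := by
      obtain ⟨F, w₅, h5, h5'⟩ := spl_e w₄
      rcases h5' with h5' | ⟨s, w₆, h5'⟩
      · exact ⟨F, by rw [h5, h5', List.append_nil]⟩
      · exfalso
        rw [h5, h5', gn_append, gn_cons_g] at h4
        omega
    obtain ⟨F, hF⟩ := hw4
    refine ⟨(y' :: F) ++ (y :: E), g, by simp, ?_⟩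
    refine hr1.trans ?_
    rw [h3, h3', hF, ← List.append_assoc]
    refine (rot_append _ _).trans ?_
    rw [List.map_append, List.append_assoc]
    exact List.IsRotated.refl _
  · right
    refine ⟨E.map Sy.e ++ g.map Sy.g, w₄, y, y', ?_, h4, ?_⟩
    · rw [gn_append, gn_map_e, gn_map_g, zero_add]
      exact List.length_pos_iff.2 hg
    · rw [h3, h3'] at hr1
      simpa using hr1

end Pool.Agent.TRS
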