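import Pool.Agent.TRS.St1

/-!
# Systems of pseudo-reflections on punctured tori, module SW0: swaps without rank one parts
-/

set_option autoImplicit false

namespace Pool.Agent.TRS

open Matrix Pool.Agent.HZ Pool.Agent.PRS

section sw
variable {R : Type} [CommRing R] {G : Type} [Group G] {r : ℕ}

/-- two elements one of which is a unit of `S` times the other one, up to elements of `S` -/
private theorem Sw0_iff {S : Subring R} {κ κ' x y : R} (hκ : κ ∈ S) (hκ' : κ' ∈ S)
    (h1 : κ * κ' = 1) (h : x - κ * y ∈ S) : x ∈ S ↔ y ∈ S := by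
  constructor
  · intro hx
    have h2 : κ * y ∈ S := by
      have h3 := S.sub_mem hx h
      rwa [sub_sub_cancel] at h3
    have h3 := S.mul_mem hκ' h2
    rwa [← mul_assoc, mul_comm κ' κ, h1, one_mul] at h3
  · intro hy
    have h3 := S.add_mem h (S.mul_mem hκ hy)
    rwa [sub_add_cancel] at h3

/-- the linear form -/
private noncomputable def Sw0_phi (A B : Matrix (Fin r) (Fin r) R) :
    Matrix (Fin r) (Fin r) R →ₗ[R] R :=
  (Matrix.traceLinearMap (Fin r) R R).comp ((LinearMap.mulLeft R A).comp (LinearMap.mulRight R B))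

private theorem Sw0_phi_app (A B X : Matrix (Fin r) (Fin r) R) :
    Sw0_phi A B X = (A * (X * B)).trace := rfl

private theorem Sw0_cyc (ρ : G →* Matrix (Fin r) (Fin r) R) (x y : G) :
    (ρ (x * y)).trace = (ρ (y * x)).trace := by
  rw [map_mul, map_mul, Matrix.trace_mul_comm]

/-- expansion of `P` and of its inverse in the middle of a word -/
private theorem Sw0_mid (hE : St_Exp) (S : Subring R) (ρ : G →* Matrix (Fin r) (Fin r) R)
    (c c' z z' : G → R) (a b : G) (L : List G) (hL : ∀ y ∈ L, Lt S ρ c c' z z' y) (n : ℕ)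
    (hQ : ∀ g : List (Bool × Bool), g.length = n + 1 → QQ S ρ c L a b g) :
    ∃ κ ∈ S, ∃ κ' ∈ S, κ * κ' = 1 ∧ ∀ p q : List (Bool × Bool), p.length + q.length = n + 1 →
      (ρ (gw a b p * L.prod * gw a b q)).trace - κ * (ρ (gw a b p * gw a b q)).trace ∈ S ∧
      (ρ (gw a b p * L.prod⁻¹ * gw a b q)).trace - κ' * (ρ (gw a b p * gw a b q)).trace ∈ S := by
  obtain ⟨κ, hκ, κ', hκ', h1, h2⟩ := hE R G r S ρ c c' z z' L hL
  refine ⟨κ, hκ, κ', hκ', h1, fun p q hpq => ?_⟩
  have h3 := h2 (Sw0_phi (ρ (gw a b p)) (ρ (gw a b q))) (fun E hne hEL => by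
    rw [Sw0_phi_app, Matrix.trace_mul_comm, mul_assoc, ← map_mul, ← gw_append]
    exact hQ (q ++ p) (by rw [List.length_append]; omega) E hne hEL)
  rw [Sw0_phi_app, Sw0_phi_app, Sw0_phi_app, one_mul, ← map_mul, ← map_mul, ← map_mul, ← map_mul,
    ← map_mul, ← mul_assoc, ← mul_assoc] at h3
  exact h3

/-- swap of the two first letters -/
private theorem Sw0_el (hE : St_Exp) (S : Subring R) (ρ : G →* Matrix (Fin r) (Fin r) R)
    (c c' z z' : G → R) (a b : G) (L : List G) (hr : a * b = b * a * L.prod)
    (hL : ∀ y ∈ L, Lt S ρ c c' z z' y) (n : ℕ)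
    (hQ : ∀ g : List (Bool × Bool), g.length = n + 1 → QQ S ρ c L a b g)
    (s t : Bool × Bool) (w : List (Bool × Bool)) (hw : w.length + 2 = n + 1)
    (h : (ρ (gw a b (s :: t :: w))).trace ∈ S) : (ρ (gw a b (t :: s :: w))).trace ∈ S := by
  obtain ⟨κ, hκ, κ', hκ', h1, h2⟩ := Sw0_mid hE S ρ c c' z z' a b L hL n hQ
  have h1' : κ' * κ = 1 := by rw [mul_comm, h1]
  have hP : L.prod = a⁻¹ * b⁻¹ * (a * b) := by rw [hr]; group
  -- the four rules
  have r1 : (ρ (gw a b ((true, true) :: (false, true) :: w))).trace ∈ S ↔
      (ρ (gw a b ((false, true) :: (true, true) :: w))).trace ∈ S := by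
    refine Sw0_iff hκ hκ' h1 ?_
    have h3 := (h2 [(false, true), (true, true)] w (by
      simp only [List.length_cons, List.length_nil]
      omega)).1
    have e1 : gw a b [(false, true), (true, true)] * L.prod * gw a b w =
        gw a b ((true, true) :: (false, true) :: w) := by
      simp only [gw_cons, gw_nil, gl, hP]
      group
    have e2 : gw a b [(false, true), (true, true)] * gw a b w =
        gw a b ((false, true) :: (true, true) :: w) := by
      simp only [gw_cons, gw_nil, gl]
      group
    rwa [e1, e2] at h3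
  have r2 : (ρ (gw a b ((true, false) :: (false, true) :: w))).trace ∈ S ↔
      (ρ (gw a b ((false, true) :: (true, false) :: w))).trace ∈ S := by
    refine Sw0_iff hκ' hκ h1' ?_
    have h3 := (h2 [(false, true)] ((true, false) :: w) (by
      simp only [List.length_cons, List.length_nil]
      omega)).2
    have e1 : gw a b [(false, true)] * L.prod⁻¹ * gw a b ((true, false) :: w) =
        gw a b ((true, false) :: (false, true) :: w) := by
      simp only [gw_cons, gw_nil, gl, hP]
      group
    have e2 : gw a b [(false, true)] * gw a b ((true, false) :: w) =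
        gw a b ((false, true) :: (true, false) :: w) := by
      simp only [gw_cons, gw_nil, gl]
      group
    rwa [e1, e2] at h3
  have r3 : (ρ (gw a b ((false, false) :: (true, true) :: w))).trace ∈ S ↔
      (ρ (gw a b ((true, true) :: (false, false) :: w))).trace ∈ S := by
    refine Sw0_iff hκ hκ' h1 ?_
    have h3 := (h2 [(true, true)] ((false, false) :: w) (by
      simp only [List.length_cons, List.length_nil]
      omega)).1
    have e1 : gw a b [(true, true)] * L.prod * gw a b ((false, false) :: w) =
        gw a b ((false, false) :: (true, true) :: w) := by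
      simp only [gw_cons, gw_nil, gl, hP]
      group
    have e2 : gw a b [(true, true)] * gw a b ((false, false) :: w) =
        gw a b ((true, true) :: (false, false) :: w) := by
      simp only [gw_cons, gw_nil, gl]
      group
    rwa [e1, e2] at h3
  have r4 : (ρ (gw a b ((false, false) :: (true, false) :: w))).trace ∈ S ↔
      (ρ (gw a b ((true, false) :: (false, false) :: w))).trace ∈ S := by
    refine Sw0_iff hκ' hκ h1' ?_
    have h3 := (h2 [] ((true, false) :: (false, false) :: w) (by
      simp only [List.length_cons, List.length_nil]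
      omega)).2
    have e1 : gw a b [] * L.prod⁻¹ * gw a b ((true, false) :: (false, false) :: w) =
        gw a b ((false, false) :: (true, false) :: w) := by
      simp only [gw_cons, gw_nil, gl, hP]
      group
    have e2 : gw a b [] * gw a b ((true, false) :: (false, false) :: w) =
        gw a b ((true, false) :: (false, false) :: w) := by
      rw [gw_nil, one_mul]
    rwa [e1, e2] at h3
  -- letters of the same kind
  have h5 : ∀ s' t' : Bool × Bool, gl a b s' * gl a b t' = gl a b t' * gl a b s' →
      gw a b (s' :: t' :: w) = gw a b (t' :: s' :: w) := by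
    intro s' t' e
    rw [gw_cons, gw_cons, gw_cons, gw_cons, ← mul_assoc, ← mul_assoc, e]
  rcases s with ⟨_ | _, _ | _⟩ <;> rcases t with ⟨_ | _, _ | _⟩
  · exact h
  · rwa [h5 (false, true) (false, false) (by simp only [gl]; group)]
  · exact r4.1 h
  · exact r3.1 h
  · rwa [h5 (false, false) (false, true) (by simp only [gl]; group)]
  · exact h
  · exact r2.2 h
  · exact r1.2 h
  · exact r4.2 h
  · exact r2.1 h
  · exact h
  · rwa [h5 (true, true) (true, false) (by simp only [gl]; group)]
  · exact r3.2 h
  · exact r1.1 h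
  · rwa [h5 (true, false) (true, true) (by simp only [gl]; group)]
  · exact h

/-- permutations, with a fixed beginning -/
private theorem Sw0_perm {S : Subring R} {ρ : G →* Matrix (Fin r) (Fin r) R} {a b : G} {n : ℕ}
    (H : ∀ (s t : Bool × Bool) (w : List (Bool × Bool)), w.length + 2 = n + 1 →
      (ρ (gw a b (s :: t :: w))).trace ∈ S → (ρ (gw a b (t :: s :: w))).trace ∈ S)
    {g g' : List (Bool × Bool)} (hp : g.Perm g') : ∀ u : List (Bool × Bool),
      (u ++ g).length = n + 1 → (ρ (gw a b (u ++ g))).trace ∈ S →
      (ρ (gw a b (u ++ g'))).trace ∈ S := by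
  induction hp with
  | nil => exact fun u _ h => h
  | @cons x l l' _ ih =>
    intro u hu h
    have h1 := ih (u ++ [x]) (by simpa using hu) (by simpa using h)
    simpa using h1
  | @swap x y l =>
    intro u hu h
    have e : ∀ x' y' : Bool × Bool, (ρ (gw a b (u ++ x' :: y' :: l))).trace =
        (ρ (gw a b (x' :: y' :: (l ++ u)))).trace := by
      intro x' y'
      rw [gw_append, Sw0_cyc, ← gw_append]
      rfl
    rw [e] at h ⊢
    exact H y x (l ++ u) (by
      simp only [List.length_append, List.length_cons] at hu ⊢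
      omega) h
  | @trans l₁ l₂ l₃ h12 _ ih1 ih2 =>
    intro u hu h
    refine ih2 u ?_ (ih1 u hu h)
    rw [List.length_append, ← h12.length_eq, ← List.length_append]
    exact hu

end sw

theorem thm_Sw0 (hE : St_Exp) : St_Sw0 := by
  intro R _ G _ r S ρ c c' z z' a b L hr hL n hQ g g' hp hg h
  exact Sw0_perm (n := n) (Sw0_el hE S ρ c c' z z' a b L hr hL n hQ) hp [] hg h

end Pool.Agent.TRS
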