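import Pool.Agent.TRS.St1

/-!
# TRS, module SWP: swaps of letters in one run
-/

set_option autoImplicit false

namespace Pool.Agent.TRS

open Matrix Pool.Agent.HZ Pool.Agent.PRS

section
variable {R : Type} [CommRing R] {G : Type} [Group G] {r : ℕ}

/-- the linear form `tr (U * X * V)` -/
private noncomputable def Swp_f (U V : Matrix (Fin r) (Fin r) R) :
    Matrix (Fin r) (Fin r) R →ₗ[R] R :=
  (Matrix.traceLinearMap (Fin r) R R) ∘ₗ (LinearMap.mulLeft R U) ∘ₗ (LinearMap.mulRight R V)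

private theorem Swp_f_apply (U V X : Matrix (Fin r) (Fin r) R) :
    Swp_f U V X = (U * (X * V)).trace := rfl

/-- the data which are used for one element `Q = P` or `Q = P⁻¹` -/
private def SwpQ (S : Subring R) (ρ : G →* Matrix (Fin r) (Fin r) R) (c : G → R) (L : List G)
    (Q : G) : Prop :=
  ∃ k ∈ S, ∃ k' ∈ S, k * k' = 1 ∧ ∀ φ : Matrix (Fin r) (Fin r) R →ₗ[R] R,
    (∀ E : List G, E ≠ [] → (∀ y ∈ E, y ∈ L) → φ (ew ρ c E) ∈ S) → φ (ρ Q) - k * φ 1 ∈ S

/-- separated runs -/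
private def SwpT (S : Subring R) (ρ : G →* Matrix (Fin r) (Fin r) R) (c : G → R) (L : List G)
    (a b : G) (n : ℕ) : Prop :=
  ∀ (X Y : List (Sy G)) (y y' : G), y ∈ L → y' ∈ L → InL L X → InL L Y → 0 < gn X → 0 < gn Y →
      gn X + gn Y ≤ n + 1 → (el ρ c y * wv ρ c a b X * el ρ c y' * wv ρ c a b Y).trace ∈ S

variable {S : Subring R} {ρ : G →* Matrix (Fin r) (Fin r) R} {c : G → R} {L : List G} {a b : G}
  {n : ℕ}

/-- inserting a product of rank one parts -/
private theorem Swp_ins (hT : SwpT S ρ c L a b n) {h₁ h₂ : List (Bool × Bool)}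
    (hn : h₁.length + h₂.length = n + 1) (hq : h₁ = [] ∨ h₂ = [] → QQ S ρ c L a b (h₁ ++ h₂))
    {E : List G} (hE : E ≠ []) (hEL : ∀ y ∈ E, y ∈ L) {E' : List G} (hE' : E' ≠ [])
    (hEL' : ∀ y ∈ E', y ∈ L) :
    Swp_f (ew ρ c E * ρ (gw a b h₁)) (ρ (gw a b h₂)) (ew ρ c E') ∈ S := by
  rw [Swp_f_apply]
  by_cases e1 : h₁ = []
  · have h1 := hq (Or.inl e1) (E ++ E') (by simp [hE]) (by
      intro y hy
      rcases List.mem_append.1 hy with hy | hy
      · exact hEL y hy
      · exact hEL' y hy)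
    subst e1
    rw [List.nil_append, ew_append] at h1
    rw [gw_nil, map_one, mul_one, ← mul_assoc]
    exact h1
  by_cases e2 : h₂ = []
  · have h1 := hq (Or.inr e2) (E' ++ E) (by simp [hE]) (by
      intro y hy
      rcases List.mem_append.1 hy with hy | hy
      · exact hEL' y hy
      · exact hEL y hy)
    subst e2
    rw [List.append_nil, ew_append] at h1
    rw [gw_nil, map_one, mul_one, Matrix.trace_mul_comm, ← mul_assoc]
    exact h1
  obtain ⟨y, E₁, rfl⟩ := List.exists_cons_of_ne_nil hE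
  obtain ⟨y', E₁', rfl⟩ := List.exists_cons_of_ne_nil hE'
  have l1 := List.length_pos_of_ne_nil e1
  have l2 := List.length_pos_of_ne_nil e2
  have h1 := hT (E₁.map Sy.e ++ h₁.map Sy.g) (E₁'.map Sy.e ++ h₂.map Sy.g) y y'
    (hEL y List.mem_cons_self) (hEL' y' List.mem_cons_self)
    (InL_append.2 ⟨InL_map_e.2 fun x hx => hEL x (List.mem_cons_of_mem _ hx), InL_map_g _⟩)
    (InL_append.2 ⟨InL_map_e.2 fun x hx => hEL' x (List.mem_cons_of_mem _ hx), InL_map_g _⟩)
    (by rw [gn_append, gn_map_e, gn_map_g]; omega) (by rw [gn_append, gn_map_e, gn_map_g]; omega)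
    (by rw [gn_append, gn_map_e, gn_map_g, gn_append, gn_map_e, gn_map_g]; omega)
  rw [wv_append, wv_append, wv_map_e, wv_map_e, wv_map_g, wv_map_g] at h1
  rw [ew_cons, ew_cons]
  simp only [mul_assoc] at h1 ⊢
  exact h1

/-- first kind: the new word is the old one with `Q` inserted -/
private theorem Swp_one (hT : SwpT S ρ c L a b n) {Q : G} (hQ : SwpQ S ρ c L Q)
    {h h₁ h₂ g' : List (Bool × Bool)} (hh : h = h₁ ++ h₂) (hn : h.length = n + 1)
    (hq : QQ S ρ c L a b h) (hg : gw a b g' = gw a b h₁ * Q * gw a b h₂) :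
    QQ S ρ c L a b g' := by
  subst hh
  intro E hE hEL
  obtain ⟨k, hk, k', hk', hkk, H⟩ := hQ
  have h1 := H (Swp_f (ew ρ c E * ρ (gw a b h₁)) (ρ (gw a b h₂))) fun E' hE' hEL' =>
    Swp_ins hT (by rwa [List.length_append] at hn) (fun _ => hq) hE hEL hE' hEL'
  rw [Swp_f_apply, Swp_f_apply, one_mul] at h1
  have h2 := hq E hE hEL
  rw [gw_append, map_mul, ← mul_assoc] at h2
  have h3 := S.add_mem h1 (S.mul_mem hk h2)
  rw [sub_add_cancel] at h3
  rw [hg, map_mul, map_mul]
  simp only [mul_assoc] at h3 ⊢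
  exact h3

/-- second kind: the old word is the new one with `Q` inserted -/
private theorem Swp_two (hT : SwpT S ρ c L a b n) {Q : G} (hQ : SwpQ S ρ c L Q)
    {g h₁ h₂ g' : List (Bool × Bool)} (hh : g' = h₁ ++ h₂) (hn : g'.length = n + 1)
    (e1 : h₁ ≠ []) (e2 : h₂ ≠ [])
    (hq : QQ S ρ c L a b g) (hg : gw a b g = gw a b h₁ * Q * gw a b h₂) :
    QQ S ρ c L a b g' := by
  subst hh
  intro E hE hEL
  obtain ⟨k, hk, k', hk', hkk, H⟩ := hQ
  have h1 := H (Swp_f (ew ρ c E * ρ (gw a b h₁)) (ρ (gw a b h₂))) fun E' hE' hEL' =>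
    Swp_ins hT (by rwa [List.length_append] at hn) (fun h => by
      rcases h with h | h
      · exact absurd h e1
      · exact absurd h e2) hE hEL hE' hEL'
  rw [Swp_f_apply, Swp_f_apply, one_mul] at h1
  have h2 := hq E hE hEL
  rw [hg, map_mul, map_mul] at h2
  have h2' : (ew ρ c E * ρ (gw a b h₁) * (ρ Q * ρ (gw a b h₂))).trace ∈ S := by
    simp only [mul_assoc] at h2 ⊢
    exact h2
  have h3 := S.sub_mem h2' h1
  rw [sub_sub_cancel] at h3
  have h4 := S.mul_mem hk' h3
  rw [← mul_assoc, mul_comm k' k, hkk, one_mul] at h4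
  rw [gw_append, map_mul, ← mul_assoc]
  exact h4

/-- one swap -/
private theorem Swp_adj (hrel : a * b = b * a * L.prod) (hT : SwpT S ρ c L a b n)
    (hP : SwpQ S ρ c L L.prod) (hP' : SwpQ S ρ c L L.prod⁻¹) (g₁ g₂ : List (Bool × Bool))
    (s t : Bool × Bool) (hn : (g₁ ++ s :: t :: g₂).length = n + 1)
    (hq : QQ S ρ c L a b (g₁ ++ s :: t :: g₂)) : QQ S ρ c L a b (g₁ ++ t :: s :: g₂) := by
  have hn' : (g₁ ++ t :: s :: g₂).length = n + 1 := by
    simpa using hn
  have eP : L.prod = a⁻¹ * b⁻¹ * (a * b) := by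
    rw [hrel]
    group
  rcases s with ⟨_ | _, _ | _⟩ <;> rcases t with ⟨_ | _, _ | _⟩
  -- s = b⁻¹, t = b⁻¹
  · exact hq
  -- s = b⁻¹, t = b
  · intro E hE hEL
    have h1 := hq E hE hEL
    have e : gw a b (g₁ ++ (false, true) :: (false, false) :: g₂) =
        gw a b (g₁ ++ (false, false) :: (false, true) :: g₂) := by
      rw [gw_append, gw_append, gw_cons, gw_cons, gw_cons, gw_cons]
      simp [gl]
    rw [e]
    exact h1
  -- s = b⁻¹, t = a⁻¹
  · refine Swp_one (h₁ := g₁) hT hP rfl hn hq ?_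
    rw [gw_append, gw_cons, gw_cons, gw_cons, gw_cons, eP]
    simp only [gl]
    group
  -- s = b⁻¹, t = a
  · refine Swp_two (h₁ := g₁ ++ [(true, true)]) (h₂ := (false, false) :: g₂) hT hP (by simp) hn'
      (by simp) (by simp) hq ?_
    rw [gw_append, gw_append, gw_cons, gw_cons, gw_cons, gw_cons, gw_nil, eP]
    simp only [gl]
    group
  -- s = b, t = b⁻¹
  · intro E hE hEL
    have h1 := hq E hE hEL
    have e : gw a b (g₁ ++ (false, false) :: (false, true) :: g₂) =
        gw a b (g₁ ++ (false, true) :: (false, false) :: g₂) := by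
      rw [gw_append, gw_append, gw_cons, gw_cons, gw_cons, gw_cons]
      simp [gl]
    rw [e]
    exact h1
  -- s = b, t = b
  · exact hq
  -- s = b, t = a⁻¹
  · refine Swp_one (h₁ := g₁ ++ [(false, true)]) (h₂ := (true, false) :: g₂) hT hP' (by simp) hn
      hq ?_
    rw [gw_append, gw_append, gw_cons, gw_cons, gw_cons, gw_cons, gw_nil, eP]
    simp only [gl]
    group
  -- s = b, t = a
  · refine Swp_one (h₁ := g₁ ++ [(false, true), (true, true)]) (h₂ := g₂) hT hP (by simp) hn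
      hq ?_
    rw [gw_append, gw_append, gw_cons, gw_cons, gw_cons, gw_cons, gw_nil, eP]
    simp only [gl]
    group
  -- s = a⁻¹, t = b⁻¹
  · refine Swp_one (h₁ := g₁) hT hP' rfl hn hq ?_
    rw [gw_append, gw_cons, gw_cons, gw_cons, gw_cons, eP]
    simp only [gl]
    group
  -- s = a⁻¹, t = b
  · refine Swp_two (h₁ := g₁ ++ [(false, true)]) (h₂ := (true, false) :: g₂) hT hP' (by simp) hn'
      (by simp) (by simp) hq ?_
    rw [gw_append, gw_append, gw_cons, gw_cons, gw_cons, gw_cons, gw_nil, eP]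
    simp only [gl]
    group
  -- s = a⁻¹, t = a⁻¹
  · exact hq
  -- s = a⁻¹, t = a
  · intro E hE hEL
    have h1 := hq E hE hEL
    have e : gw a b (g₁ ++ (true, true) :: (true, false) :: g₂) =
        gw a b (g₁ ++ (true, false) :: (true, true) :: g₂) := by
      rw [gw_append, gw_append, gw_cons, gw_cons, gw_cons, gw_cons]
      simp [gl]
    rw [e]
    exact h1
  -- s = a, t = b⁻¹
  · refine Swp_one (h₁ := g₁ ++ [(true, true)]) (h₂ := (false, false) :: g₂) hT hP (by simp) hn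
      hq ?_
    rw [gw_append, gw_append, gw_cons, gw_cons, gw_cons, gw_cons, gw_nil, eP]
    simp only [gl]
    group
  -- s = a, t = b
  · refine Swp_one (h₁ := g₁ ++ [(true, true), (false, true)]) (h₂ := g₂) hT hP' (by simp) hn
      hq ?_
    rw [gw_append, gw_append, gw_cons, gw_cons, gw_cons, gw_cons, gw_nil, eP]
    simp only [gl]
    group
  -- s = a, t = a⁻¹
  · intro E hE hEL
    have h1 := hq E hE hEL
    have e : gw a b (g₁ ++ (true, false) :: (true, true) :: g₂) =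
        gw a b (g₁ ++ (true, true) :: (true, false) :: g₂) := by
      rw [gw_append, gw_append, gw_cons, gw_cons, gw_cons, gw_cons]
      simp [gl]
    rw [e]
    exact h1
  -- s = a, t = a
  · exact hq

end

theorem thm_Swp (hTwr : St_Twr) (hExp : St_Exp) : St_Swp := by
  intro R _ G _ r S ρ c c' z z' a b L hrel hL hD n hPP g g' hgg hn hq
  have hT : SwpT S ρ c L a b n := hTwr R G r S ρ c c' z z' a b L hL hD n hPP
  obtain ⟨κ, hκ, κ', hκ', hkk, H⟩ := hExp R G r S ρ c c' z z' L hL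
  have hP : SwpQ S ρ c L L.prod := ⟨κ, hκ, κ', hκ', hkk, fun φ hφ => (H φ hφ).1⟩
  have hP' : SwpQ S ρ c L L.prod⁻¹ :=
    ⟨κ', hκ', κ, hκ, by rw [mul_comm]; exact hkk, fun φ hφ => (H φ hφ).2⟩
  have key : ∀ l₁ l₂ : List (Bool × Bool), l₁.Perm l₂ → ∀ g₁ : List (Bool × Bool),
      (g₁ ++ l₁).length = n + 1 → QQ S ρ c L a b (g₁ ++ l₁) → QQ S ρ c L a b (g₁ ++ l₂) := by
    intro l₁ l₂ h
    induction h with
    | nil => exact fun _ _ h => h
    | @cons x l₁ l₂ _ ih =>
      intro g₁ h1 h2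
      have h3 := ih (g₁ ++ [x]) (by simpa using h1) (by simpa using h2)
      simpa using h3
    | swap x y l =>
      intro g₁ h1 h2
      exact Swp_adj hrel hT hP hP' g₁ l y x h1 h2
    | @trans l₁ l₂ l₃ h12 _ ih1 ih2 =>
      intro g₁ h1 h2
      refine ih2 g₁ ?_ (ih1 g₁ h1 h2)
      rw [List.length_append, ← h12.length_eq, ← List.length_append]
      exact h1
  exact key g g' hgg [] hn hq

end Pool.Agent.TRS
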