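import Pool.Agent.TRS.St1

/-!
# TRS, module TWR: words with two runs
-/

set_option autoImplicit false

namespace Pool.Agent.TRS

open Matrix Pool.Agent.HZ Pool.Agent.PRS

section twr
variable {R : Type} [CommRing R] {G : Type} [Group G] {r : ℕ} {S : Subring R}
  {ρ : G →* Matrix (Fin r) (Fin r) R} {c c' z z' : G → R} {a b : G} {L : List G}

/-- the third case of the dichotomy -/
private theorem twr_zero {e e' : Matrix (Fin r) (Fin r) R}
    (h : ∀ g ∈ cl a b L, e * ρ g * e' = 0) (X : List (Sy G)) (hX : InL L X) :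
    ∀ g ∈ cl a b L, e * ρ g * wv ρ c a b X * e' = 0 := by
  induction X with
  | nil =>
    intro g hg
    rw [wv_nil, mul_one]
    exact h g hg
  | cons x X ih =>
    intro g hg
    cases x with
    | g s =>
      have h1 := ih (InL_cons_g.1 hX) (g * gl a b s) (Subgroup.mul_mem _ hg (gl_mem a b L s))
      rw [map_mul] at h1
      rw [wv_cons, sv_g]
      simpa only [mul_assoc] using h1
    | e y =>
      obtain ⟨hy, hX'⟩ := InL_cons_e.1 hX
      have h1 := ih hX' (g * y) (Subgroup.mul_mem _ hg (cl_L a b hy))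
      have h2 := ih hX' g hg
      rw [map_mul] at h1
      rw [wv_cons, sv_e]
      have e1 : e * ρ g * (el ρ c y * wv ρ c a b X) * e' =
          c y • (e * (ρ g * ρ y) * wv ρ c a b X * e') - e * ρ g * wv ρ c a b X * e' := by
        rw [el, sub_mul, one_mul, smul_mul_assoc, mul_sub, sub_mul, mul_smul_comm,
          smul_mul_assoc]
        simp only [mul_assoc]
      rw [e1, h1, h2, smul_zero, sub_zero]

/-- the identity for two rank one matrices -/
private theorem twr_id {e e' : Matrix (Fin r) (Fin r) R} (he : RO e) (he' : RO e')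
    (X Y W W' : Matrix (Fin r) (Fin r) R) :
    (e * X * e' * Y).trace * (e * W * e' * W').trace =
      (e * X * e' * W').trace * (e * W * e' * Y).trace := by
  have h1 : e' * (Y * e * X) * e' = (e * X * e' * Y).trace • e' := by
    rw [he']
    congr 1
    rw [← mul_assoc, ← mul_assoc, Matrix.trace_mul_comm (e' * Y * e) X, ← mul_assoc,
      Matrix.trace_mul_comm (X * (e' * Y)) e]
    simp only [mul_assoc]
  have h2 : e * (X * e' * W') * e = (e * X * e' * W').trace • e := by
    rw [he]
    simp only [mul_assoc]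
  have h3 : (e * W * (e' * (Y * e * X) * e') * W').trace =
      (e * X * e' * Y).trace * (e * W * e' * W').trace := by
    rw [h1, mul_smul_comm, smul_mul_assoc, Matrix.trace_smul, smul_eq_mul]
  have h4 : (e * (X * e' * W') * e * (W * e' * Y)).trace =
      (e * X * e' * W').trace * (e * W * e' * Y).trace := by
    rw [h2, smul_mul_assoc, Matrix.trace_smul, smul_eq_mul]
    simp only [mul_assoc]
  rw [← h3, ← h4]
  have e1 : e * W * (e' * (Y * e * X) * e') * W' = (e * W * e' * Y) * (e * X * e' * W') := by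
    simp only [mul_assoc]
  have e2 : e * (X * e' * W') * e * (W * e' * Y) = (e * X * e' * W') * (e * W * e' * Y) := by
    simp only [mul_assoc]
  rw [e1, e2, Matrix.trace_mul_comm]

end twr

theorem thm_Twr : St_Twr := by
  intro R _ G _ r S ρ c c' z z' a b L hL hD n hP X Y y y' hy hy' hX hY hX0 hY0 hn
  have ro : RO (el ρ c y) := (hL y hy).2.2.2
  have ro' : RO (el ρ c y') := (hL y' hy').2.2.2
  rcases hD y hy y' hy' with h | h | h
  · -- equal rank one parts
    rw [← h, ro, smul_mul_assoc, Matrix.trace_smul, smul_eq_mul]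
    have h1 := hP (Sy.e y :: X) (InL_cons_e.2 ⟨hy, hX⟩) (by rw [gn_cons_e]; omega)
    have h2 := hP (Sy.e y :: Y) (InL_cons_e.2 ⟨hy, hY⟩) (by rw [gn_cons_e]; omega)
    rw [wv_cons, sv_e] at h1 h2
    exact S.mul_mem h1 h2
  · -- linked letters
    obtain ⟨W, W', hW, hW', t, ht, htt⟩ := h
    have h1 := hP (Sy.e y :: (X ++ Sy.e y' :: W'.map Sy.e)) (by
      rw [InL_cons_e, InL_append, InL_cons_e, InL_map_e]
      exact ⟨hy, hX, hy', hW'⟩) (by
      rw [gn_cons_e, gn_append, gn_cons_e, gn_map_e]
      omega)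
    have h2 := hP (Sy.e y :: (W.map Sy.e ++ Sy.e y' :: Y)) (by
      rw [InL_cons_e, InL_append, InL_cons_e, InL_map_e]
      exact ⟨hy, hW, hy', hY⟩) (by
      rw [gn_cons_e, gn_append, gn_cons_e, gn_map_e]
      omega)
    rw [wv_cons, wv_append, wv_cons, sv_e, sv_e, wv_map_e] at h1 h2
    have h3 := twr_id ro ro' (wv ρ c a b X) (wv ρ c a b Y) (ew ρ c W) (ew ρ c W')
    have h4 : (el ρ c y * wv ρ c a b X * el ρ c y' * wv ρ c a b Y).trace =
        t * ((el ρ c y * wv ρ c a b X * el ρ c y' * ew ρ c W').trace *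
          (el ρ c y * ew ρ c W * el ρ c y' * wv ρ c a b Y).trace) := by
      rw [← h3]
      calc (el ρ c y * wv ρ c a b X * el ρ c y' * wv ρ c a b Y).trace
          = (el ρ c y * wv ρ c a b X * el ρ c y' * wv ρ c a b Y).trace *
            (t * (el ρ c y * ew ρ c W * el ρ c y' * ew ρ c W').trace) := by rw [htt, mul_one]
        _ = _ := by ring
    rw [h4]
    refine S.mul_mem ht (S.mul_mem ?_ ?_)
    · simpa only [mul_assoc] using h1
    · simpa only [mul_assoc] using h2
  · -- separated letters
    have h1 := twr_zero (c := c) h X hX 1 (Subgroup.one_mem _)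
    rw [map_one, mul_one] at h1
    rw [h1, zero_mul, Matrix.trace_zero]
    exact S.zero_mem

end Pool.Agent.TRS
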