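import Pool.Agent.TRS.St1
import Pool.Agent.PRS.XKW

/-!
# TRS, module WR1: words with at most one run
-/

set_option autoImplicit false

namespace Pool.Agent.TRS

open Matrix Pool.Agent.HZ Pool.Agent.PRS

theorem thm_Wr1 (hNrm : St_Nrm) (hSwp : St_Swp) (hSw0 : St_Sw0) : St_Wr1 := by
  intro R _ G _ r S ρ c c' z z' a b L hrel hLt hDT hKG n hPP
  -- words which are short in some pair
  have hP : ∀ u v, TR a b L u v L → ∀ E : List G, (∀ y ∈ E, y ∈ L) → ∀ g : List (Bool × Bool),
      g.length ≤ n → (ew ρ c E * ρ (gw u v g)).trace ∈ S := by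
    intro u v h E hE g hg
    have h1 := hPP u v h (E.map Sy.e ++ g.map Sy.g)
      (InL_append.2 ⟨InL_map_e.2 hE, InL_map_g g⟩)
      (by rw [gn_append, gn_map_e, gn_map_g, Nat.zero_add]; exact hg)
    rwa [wv_append, wv_map_e, wv_map_g] at h1
  -- powers
  have hK : ∀ u v, TR a b L u v L → ∀ E : List G, (∀ y ∈ E, y ∈ L) → ∀ k : ℤ,
      (ew ρ c E * ρ (u ^ k)).trace ∈ S := by
    intro u v h E hE k
    have h1 := (thm_KW R G r S ρ c c' z z' u L hLt).2 (hKG u v h) k (E.map fun y => ((0 : ℤ), y))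
      (by
        intro p hp
        obtain ⟨y, hy, rfl⟩ := List.mem_map.1 hp
        exact hE y hy)
    have h2 : xw ρ c u (E.map fun y => ((0 : ℤ), y)) = ew ρ c E := by
      rw [xw, ew, List.map_map]
      congr 1
      apply List.map_congr_left
      intro y _
      simp
    rw [h2, trace_mul_comm] at h1
    exact h1
  -- normal forms
  have hF : ∀ u v, TR a b L u v L → ∀ g : List (Bool × Bool), g.length = n + 1 →
      ∃ g' : List (Bool × Bool), g.Perm g' ∧ ∀ E : List G, (∀ y ∈ E, y ∈ L) →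
        (ew ρ c E * ρ (gw u v g')).trace ∈ S := by
    intro u v h g hg
    obtain ⟨g', hp, hc⟩ := hNrm G u v g (by rintro rfl; simp at hg)
    refine ⟨g', hp, fun E hE => ?_⟩
    rcases hc with ⟨g'', hl, e⟩ | ⟨k, e⟩ | ⟨k, e⟩ | ⟨k, g'', hl, e⟩ | ⟨k, g'', hl, e⟩
    · rw [e]
      exact hP u v h E hE g'' (by omega)
    · rw [e]
      exact hK u v h E hE k
    · rw [e, show v ^ k = (v⁻¹) ^ (-k) by rw [_root_.inv_zpow, _root_.zpow_neg, inv_inv]]
      exact hK _ _ h.rot' E hE (-k)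
    · rw [e]
      exact hP _ _ (h.twa k) E hE g'' (by omega)
    · rw [e]
      exact hP _ _ (h.twb k) E hE g'' (by omega)
  intro u v h
  have hrel' := h.rel hrel
  have hDT' : DT S ρ c u v L := by
    intro y hy y' hy'
    rw [h.cl_eq]
    exact hDT y hy y' hy'
  have hQ : ∀ g : List (Bool × Bool), g.length = n + 1 → QQ S ρ c L u v g := by
    intro g hg
    obtain ⟨g', hp, hE⟩ := hF u v h g hg
    refine hSwp R G r S ρ c c' z z' u v L hrel' hLt hDT' n (hPP u v h) g' g hp.symm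
      (by rw [← hp.length_eq, hg]) ?_
    exact fun E _ hE' => hE E hE'
  intro g hg
  refine ⟨hQ g hg, ?_⟩
  obtain ⟨g', hp, hE⟩ := hF u v h g hg
  refine hSw0 R G r S ρ c c' z z' u v L hrel' hLt n hQ g' g hp.symm
    (by rw [← hp.length_eq, hg]) ?_
  have h1 := hE [] (by simp)
  rwa [ew_nil, one_mul] at h1

end Pool.Agent.TRS
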