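import Pool.Agent.TRS.St1
import Pool.Agent.PRS.XKW

/-!
# WRD: all traces of the group of one tuple with the dichotomy (helper17)
-/

set_option autoImplicit false
set_option linter.unusedSectionVars false

namespace Pool.Agent.TRS

open Matrix Pool.Agent.HZ Pool.Agent.PRS

section wrd
variable {R : Type} [CommRing R] {G : Type} [Group G] {r : ℕ} {S : Subring R}
  {ρ : G →* Matrix (Fin r) (Fin r) R} {c c' z z' : G → R}

/-- traces of words are invariant under rotation -/
private theorem wrd_tr {a b : G} {w w' : List (Sy G)} (h : w.IsRotated w') :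
    (wv ρ c a b w).trace = (wv ρ c a b w').trace := by
  obtain ⟨n, hn, rfl⟩ := List.isRotated_iff_mod.1 h
  rw [List.rotate_eq_drop_append_take hn, wv_append, trace_mul_comm, ← wv_append,
    List.take_append_drop]

private theorem wrd_gn {w w' : List (Sy G)} (h : w.IsRotated w') : gn w = gn w' :=
  h.perm.countP_eq _

private theorem wrd_in {L : List G} {w w' : List (Sy G)} (h : w.IsRotated w') (hw : InL L w) :
    InL L w' := fun y hy => hw y (h.mem_iff.2 hy)

/-- words without group letters -/
private theorem wrd_zero (w : List (Sy G)) (h : gn w = 0) : ∃ E : List G, w = E.map Sy.e := by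
  induction w with
  | nil => exact ⟨[], rfl⟩
  | cons s w ih =>
    rcases s with s | y
    · rw [gn_cons_g] at h
      omega
    · rw [gn_cons_e] at h
      obtain ⟨E, rfl⟩ := ih h
      exact ⟨y :: E, rfl⟩

/-- words with exponents zero -/
private theorem wrd_xw (u : G) (E : List G) :
    xw ρ c u (E.map fun y => ((0 : ℤ), y)) = ew ρ c E := by
  induction E with
  | nil => rfl
  | cons y E ih =>
    have h1 : xw ρ c u ((y :: E).map fun y => ((0 : ℤ), y)) =
        ρ (u ^ (0 : ℤ)) * el ρ c y * xw ρ c u (E.map fun y => ((0 : ℤ), y)) := by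
      rw [xw, List.map_cons, List.map_cons, List.prod_cons]
      rfl
    rw [h1, ih, ew_cons, zpow_zero, map_one, one_mul]

/-- traces of products of rank one parts -/
private theorem wrd_ew {u : G} {L : List G} (hL : ∀ y ∈ L, Lt S ρ c c' z z' y)
    (hK : KG S ρ u L) (E : List G) (hE : ∀ y ∈ E, y ∈ L) : (ew ρ c E).trace ∈ S := by
  have h1 : KX S ρ c u L := (thm_KW R G r S ρ c c' z z' u L hL).2 hK
  have h2 := h1 0 (E.map fun y => ((0 : ℤ), y)) (by
    intro p hp
    obtain ⟨y, hy, rfl⟩ := List.mem_map.1 hp
    exact hE y hy)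
  rwa [wrd_xw, zpow_zero, map_one, one_mul] at h2

private theorem wrd_dt {a b u v : G} {L : List G} (hD : DT S ρ c a b L) (h : TR a b L u v L) :
    DT S ρ c u v L := by
  intro y hy y' hy'
  rcases hD y hy y' hy' with h1 | h1 | h1
  · exact Or.inl h1
  · exact Or.inr (Or.inl h1)
  · refine Or.inr (Or.inr fun g hg => h1 g ?_)
    rwa [h.cl_eq] at hg

end wrd

theorem thm_Wrd (h1 : St_Wr1) (h2 : St_Spl) (h3 : St_Twr) : St_Wrd := by
  intro R _ G _ r S ρ c c' z z' a b L hrel hL hD hK
  have key : ∀ n : ℕ, ∀ u v, TR a b L u v L → PP S ρ c L n u v := by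
    intro n
    induction n with
    | zero =>
      intro u v huv w hw hg
      obtain ⟨E, rfl⟩ := wrd_zero w (Nat.le_zero.1 hg)
      rw [wv_map_e]
      exact wrd_ew hL (hK u v huv) E (InL_map_e.1 hw)
    | succ n ih =>
      intro u v huv w hw hg
      rcases Nat.lt_or_ge n (gn w) with hlt | hle
      · have hgn : gn w = n + 1 := by omega
        rcases h2 G w with ⟨g, rfl⟩ | ⟨E, g, hE, hr⟩ | ⟨X, Y, y, y', hX, hY, hr⟩
        · rw [gn_map_g] at hgn
          rw [wv_map_g]
          exact (h1 R G r S ρ c c' z z' a b L hrel hL hD hK n ih u v huv g hgn).2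
        · have hin := wrd_in hr hw
          rw [InL_append, InL_map_e] at hin
          rw [wrd_gn hr, gn_append, gn_map_e, gn_map_g, zero_add] at hgn
          rw [wrd_tr hr, wv_append, wv_map_e, wv_map_g]
          exact (h1 R G r S ρ c c' z z' a b L hrel hL hD hK n ih u v huv g hgn).1 E hE hin.1
        · have hin := wrd_in hr hw
          rw [InL_cons_e, InL_append, InL_cons_e] at hin
          rw [wrd_gn hr, gn_cons_e, gn_append, gn_cons_e] at hgn
          rw [wrd_tr hr, wv_cons, wv_append, wv_cons, sv_e, sv_e]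
          have h4 := h3 R G r S ρ c c' z z' u v L hL (wrd_dt hD huv) n (ih u v huv) X Y y y'
            hin.1 hin.2.2.1 hin.2.1 hin.2.2.2 hX hY (by omega)
          simpa only [mul_assoc] using h4
      · exact ih u v huv w hw hle
  have fin : ∀ g ∈ cl a b L, ∀ w : List (Sy G), InL L w → (wv ρ c a b w * ρ g).trace ∈ S := by
    intro g hg
    unfold cl at hg
    have hgl : ∀ (s : Bool × Bool) (y : G), (∀ w : List (Sy G), InL L w →
        (wv ρ c a b w * ρ y).trace ∈ S) → ∀ w : List (Sy G), InL L w →
        (wv ρ c a b w * ρ (gl a b s * y)).trace ∈ S := by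
      intro s y ih w hw
      have e : wv ρ c a b w * ρ (gl a b s * y) = wv ρ c a b (w ++ [Sy.g s]) * ρ y := by
        rw [wv_append, wv_cons, wv_nil, sv_g, mul_one, map_mul, mul_assoc]
      rw [e]
      exact ih _ (InL_append.2 ⟨hw, InL_cons_g.2 fun y hy => by simp at hy⟩)
    induction hg using Subgroup.closure_induction_left with
    | one =>
      intro w hw
      rw [map_one, mul_one]
      exact key (gn w) a b TR.refl w hw le_rfl
    | mul_left x hx y _ ih =>
      rcases hx with (hx | hx) | hx
      · have hx' : x = gl a b (true, true) := hx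
        rw [hx']
        exact hgl _ y ih
      · have hx' : x = gl a b (false, true) := hx
        rw [hx']
        exact hgl _ y ih
      · have hx' : x ∈ L := hx
        intro w hw
        have e : wv ρ c a b w * ρ (x * y) =
            c' x • (wv ρ c a b w * ρ y + wv ρ c a b (w ++ [Sy.e x]) * ρ y) := by
          rw [wv_append, wv_cons, wv_nil, sv_e, mul_one, map_mul, (hL x hx').map_eq]
          simp only [smul_mul_assoc, mul_smul_comm]
          congr 1
          noncomm_ring
        rw [e, trace_smul, trace_add, smul_eq_mul]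
        exact S.mul_mem (hL x hx').1.2.1 (S.add_mem (ih w hw)
          (ih _ (InL_append.2 ⟨hw, InL_cons_e.2 ⟨hx', fun y hy => by simp at hy⟩⟩)))
    | inv_mul_cancel x hx y _ ih =>
      rcases hx with (hx | hx) | hx
      · have hx' : x⁻¹ = gl a b (true, false) := congrArg _ hx
        rw [hx']
        exact hgl _ y ih
      · have hx' : x⁻¹ = gl a b (false, false) := congrArg _ hx
        rw [hx']
        exact hgl _ y ih
      · have hx' : x ∈ L := hx
        intro w hw
        have e : wv ρ c a b w * ρ (x⁻¹ * y) =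
            c x • (wv ρ c a b w * ρ y - z' x • (wv ρ c a b (w ++ [Sy.e x]) * ρ y)) := by
          rw [wv_append, wv_cons, wv_nil, sv_e, mul_one, map_mul, (hL x hx').map_inv]
          simp only [smul_mul_assoc, mul_smul_comm, sub_mul, mul_sub, one_mul, mul_assoc]
        obtain ⟨h5, _, _, h6⟩ := (hL x hx').1
        rw [e, trace_smul, trace_sub, trace_smul, smul_eq_mul, smul_eq_mul]
        exact S.mul_mem h5 (S.sub_mem (ih w hw) (S.mul_mem h6
          (ih _ (InL_append.2 ⟨hw, InL_cons_e.2 ⟨hx', fun y hy => by simp at hy⟩⟩))))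
  intro g hg
  have h4 := fin g hg [] fun y hy => by simp at hy
  rwa [wv_nil, one_mul] at h4

end Pool.Agent.TRS
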