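import Pool.Agent.TRS.C1T
import Pool.Agent.TRS.D1T
import Pool.Agent.TRS.PO1
import Pool.Agent.TRS.FI1
import Pool.Agent.TRS.Aut
import Pool.Agent.TRS.WRD
import Pool.Agent.TRS.WR1
import Pool.Agent.TRS.SPL
import Pool.Agent.TRS.TWR
import Pool.Agent.TRS.NRM
import Pool.Agent.TRS.SWP
import Pool.Agent.TRS.SW0
import Pool.Agent.TRS.EXP
import Pool.Agent.PRS.FinA

/-!
# One puncture: finite image if the scalar has order at least the rank

Helper15, for MP_0707f5_ag.
-/

set_option autoImplicit false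

namespace Pool.Agent.TRS

open Matrix Pool.Agent.HZ Pool.Agent.PRS
open scoped ComplexOrder

variable {r : ℕ}

/-- irreducible representations under the condition (A) -/
theorem To2_fi1 : St_Fi1 := by
  have hW : St_Wrd := thm_Wrd (thm_Wr1 thm_Nrm (thm_Swp thm_Twr thm_Exp) (thm_Sw0 thm_Exp)) thm_Spl
    thm_Twr
  exact thm_Fi1 (thm_C1T hW thm_Aut thm_LAM) (thm_D1T hW thm_Aut thm_LAM) thm_Po1 thm_Her thm_UNI
    thm_KRO thm_TRA

private theorem to2_conj {G : Type} [Group G] {A X : G} {B : G}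
    (h1 : B * A * B⁻¹ ∈ Subgroup.closure {A, X}) (h2 : B * X * B⁻¹ ∈ Subgroup.closure {A, X}) :
    ∀ κ ∈ Subgroup.closure {A, X}, B * κ * B⁻¹ ∈ Subgroup.closure {A, X} := by
  intro κ hκ
  have h3 : (Subgroup.closure {A, X}).map (MulAut.conj B).toMonoidHom ≤
      Subgroup.closure {A, X} := by
    rw [MonoidHom.map_closure, Subgroup.closure_le]
    rintro _ ⟨y, hy, rfl⟩
    rcases hy with rfl | hy
    · simpa [MulAut.conj_apply] using h1
    · rw [Set.mem_singleton_iff.1 hy]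
      simpa [MulAut.conj_apply] using h2
  have h4 := h3 ⟨κ, hκ, rfl⟩
  simpa [MulAut.conj_apply] using h4

private theorem to2_scalar {G : Type} [Group G] (A B X : G) (hX : ∀ g, X * g = g * X)
    (hrel : A * B = B * A * X) (hK : Finite (Subgroup.closure {A, X} : Subgroup G))
    (hB : IsOfFinOrder B) : Finite (Subgroup.closure {A, B} : Subgroup G) := by
  set K := Subgroup.closure {A, X} with hKd
  have hA : A ∈ K := Subgroup.subset_closure (by simp)
  have hXK : X ∈ K := Subgroup.subset_closure (by simp)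
  have e1 : B⁻¹ * A * B⁻¹⁻¹ = A * X := by
    rw [inv_inv, mul_assoc, hrel]
    group
  have e2 : B * A * B⁻¹ = A * X⁻¹ := by
    have h1 : A * B * X⁻¹ = B * A := by rw [hrel]; group
    rw [← h1]
    have h2 : B * X⁻¹ = X⁻¹ * B := by
      have h3 := hX B
      rw [eq_inv_mul_iff_mul_eq, ← mul_assoc, h3, mul_assoc, mul_inv_cancel, mul_one]
    rw [mul_assoc A, h2]
    group
  have e3 : ∀ C : G, C * X * C⁻¹ = X := by
    intro C
    rw [← hX C]
    group
  have c1 : ∀ κ ∈ K, B * κ * B⁻¹ ∈ K := to2_conj (by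
    rw [e2]
    exact Subgroup.mul_mem _ hA (Subgroup.inv_mem _ hXK)) (by rw [e3]; exact hXK)
  have c2 : ∀ κ ∈ K, B⁻¹ * κ * B ∈ K := by
    have h1 := to2_conj (A := A) (X := X) (B := B⁻¹) (by
      rw [e1]
      exact Subgroup.mul_mem _ hA hXK) (by rw [e3]; exact hXK)
    intro κ hκ
    have h2 := h1 κ hκ
    rwa [inv_inv] at h2
  have c3 : ∀ (i : ℤ), ∀ κ ∈ K, B ^ i * κ * (B ^ i)⁻¹ ∈ K := by
    intro i
    induction i using Int.induction_on with
    | zero =>
      intro κ hκ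
      simpa using hκ
    | succ i ih =>
      intro κ hκ
      have h1 := ih _ (c1 κ hκ)
      have e : B ^ (i : ℤ) * (B * κ * B⁻¹) * (B ^ (i : ℤ))⁻¹ =
          B ^ ((i : ℤ) + 1) * κ * (B ^ ((i : ℤ) + 1))⁻¹ := by
        rw [_root_.zpow_add_one]
        group
      rwa [e] at h1
    | pred i ih =>
      intro κ hκ
      have h1 := ih _ (c2 κ hκ)
      have e : B ^ (-(i : ℤ)) * (B⁻¹ * κ * B) * (B ^ (-(i : ℤ)))⁻¹ =
          B ^ (-(i : ℤ) - 1) * κ * (B ^ (-(i : ℤ) - 1))⁻¹ := by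
        rw [_root_.zpow_sub_one]
        group
      rwa [e] at h1
  have hfB : (Subgroup.zpowers B : Set G).Finite := finite_zpowers.2 hB
  have hT : (Set.image2 (fun κ b : G => κ * b) (K : Set G) (Subgroup.zpowers B : Set G)).Finite :=
    Set.Finite.image2 _ (Set.toFinite _) hfB
  have hsub : (Subgroup.closure {A, B} : Set G) ⊆
      Set.image2 (fun κ b : G => κ * b) (K : Set G) (Subgroup.zpowers B : Set G) := by
    let T : Subgroup G :=
      { carrier := Set.image2 (fun κ b : G => κ * b) (K : Set G) (Subgroup.zpowers B : Set G)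
        one_mem' := ⟨1, K.one_mem, 1, Subgroup.one_mem _, one_mul 1⟩
        mul_mem' := by
          rintro _ _ ⟨κ, hκ, _, ⟨i, rfl⟩, rfl⟩ ⟨κ', hκ', _, ⟨j, rfl⟩, rfl⟩
          refine ⟨κ * (B ^ i * κ' * (B ^ i)⁻¹), K.mul_mem hκ (c3 i κ' hκ'), B ^ (i + j),
            ⟨i + j, rfl⟩, ?_⟩
          simp only
          rw [_root_.zpow_add]
          group
        inv_mem' := by
          rintro _ ⟨κ, hκ, _, ⟨i, rfl⟩, rfl⟩
          refine ⟨B ^ (-i) * κ⁻¹ * (B ^ (-i))⁻¹, c3 (-i) _ (K.inv_mem hκ), B ^ (-i), ⟨-i, rfl⟩, ?_⟩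
          simp only
          rw [_root_.zpow_neg]
          group }
    show (Subgroup.closure {A, B} : Set G) ⊆ (T : Set G)
    rw [SetLike.coe_subset_coe, Subgroup.closure_le]
    rintro x (rfl | hx)
    · exact ⟨x, hA, 1, Subgroup.one_mem _, mul_one x⟩
    · rw [Set.mem_singleton_iff.1 hx]
      exact ⟨1, K.one_mem, B, Subgroup.mem_zpowers B, one_mul B⟩
  exact (hT.subset hsub).to_subtype

/-- a scalar of order at least the rank satisfies the condition, if `X` is not scalar -/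
private theorem to2_ca (A X : GL (Fin r) ℂ) (l : ℂ) (hl0 : l ≠ 0)
    (hl : ∀ k : ℕ, 0 < k → k < r → l ^ k ≠ 1)
    (hX : (X : Matrix (Fin r) (Fin r) ℂ) ≠ l • 1) :
    CA (A : Matrix (Fin r) (Fin r) ℂ) (X : Matrix (Fin r) (Fin r) ℂ) l := by
  intro g
  by_contra hcon
  push Not at hcon
  choose v hv1 hv2 hv3 using hcon
  apply hX
  have hr : 0 < r := by
    by_contra h
    obtain rfl : r = 0 := by omega
    exact hv3 0 (Subsingleton.elim _ _)
  have hg : g ≠ 0 := by
    rintro rfl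
    have h1 := hv1 0
    rw [zero_mul, zero_smul] at h1
    have h2 : ((A⁻¹ : GL (Fin r) ℂ) : Matrix (Fin r) (Fin r) ℂ) *ᵥ
        ((A : Matrix (Fin r) (Fin r) ℂ) *ᵥ v 0) = v 0 := by
      rw [mulVec_mulVec, ← Units.val_mul, inv_mul_cancel, Units.val_one, one_mulVec]
    rw [h1, mulVec_zero] at h2
    exact hv3 0 h2.symm
  have hinj : Function.Injective fun i : Fin r => g * l ^ (i : ℕ) := by
    have key : ∀ i j : Fin r, (i : ℕ) < j → g * l ^ (i : ℕ) ≠ g * l ^ (j : ℕ) := by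
      intro i j hij h
      have h1 := mul_left_cancel₀ hg h
      have h2 : l ^ ((j : ℕ) - i) = 1 := by
        have h3 : l ^ (i : ℕ) * l ^ ((j : ℕ) - i) = l ^ (i : ℕ) * 1 := by
          rw [← pow_add, Nat.add_sub_cancel' hij.le, mul_one, h1]
        exact mul_left_cancel₀ (pow_ne_zero _ hl0) h3
      exact hl _ (by omega) (by omega) h2
    intro i j h
    rcases lt_trichotomy (i : ℕ) j with h1 | h1 | h1
    · exact absurd h (key i j h1)
    · exact Fin.ext h1
    · exact absurd h.symm (key j i h1)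
  have hli : LinearIndependent ℂ fun i : Fin r => v (i : ℕ) := by
    refine Module.End.eigenvectors_linearIndependent'
      (Matrix.mulVecLin (A : Matrix (Fin r) (Fin r) ℂ)) (fun i : Fin r => g * l ^ (i : ℕ)) hinj
      (fun i : Fin r => v (i : ℕ)) fun i => ?_
    exact ⟨Module.End.mem_eigenspace_iff.2 (hv1 i), hv3 i⟩
  have : Nonempty (Fin r) := ⟨⟨0, hr⟩⟩
  have htop := hli.span_eq_top_of_card_eq_finrank (by simp)
  apply Matrix.toLin'.injective
  apply LinearMap.ext_on_range htop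
  intro i
  rw [Matrix.toLin'_apply, Matrix.toLin'_apply, hv2, smul_mulVec, one_mulVec]

private theorem to2_tX : ∃ x : F 0, tX 0 = [x] ∧
    FreeGroup.of 0 * FreeGroup.of 1 = FreeGroup.of 1 * FreeGroup.of 0 * x := by
  refine ⟨_, rfl, ?_⟩
  have h1 : (tY 0).prod = 1 := by simp [tY]
  rw [h1]
  group

private theorem to2_range (ρ : F 0 →* GL (Fin r) ℂ) :
    ρ.range = Subgroup.closure {ρ (FreeGroup.of 0), ρ (FreeGroup.of 1)} := by
  rw [MonoidHom.range_eq_map, ← FreeGroup.closure_range_of, MonoidHom.map_closure]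
  congr 1
  ext y
  constructor
  · rintro ⟨_, ⟨i, rfl⟩, rfl⟩
    fin_cases i
    · exact Or.inl rfl
    · exact Or.inr rfl
  · rintro (rfl | rfl)
    · exact ⟨_, ⟨0, rfl⟩, rfl⟩
    · exact ⟨_, ⟨1, rfl⟩, rfl⟩

private theorem to2_fo {G : Type*} [Group G] (H : Subgroup G) (hH : Finite H) (g : G)
    (hg : g ∈ H) : IsOfFinOrder g := by
  have h := isOfFinOrder_of_finite (⟨g, hg⟩ : H)
  exact MonoidHom.isOfFinOrder H.subtype h

private theorem to2_irr (ρ : F 0 →* GL (Fin r) ℂ) (hr : 0 < r) (hirr : Irr ρ.range)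
    (hT : TH 0 r ρ) (l : ℂ)
    (h1 : ∀ x ∈ tX 0,
      ((ρ x : Matrix (Fin r) (Fin r) ℂ) - l • (1 : Matrix (Fin r) (Fin r) ℂ)).rank ≤ 1)
    (h2 : ∀ k : ℕ, 0 < k → k < r → l ^ k ≠ 1) : ∀ w, Quasi (ρ w) := by
  obtain ⟨x, hx, hrel⟩ := to2_tX
  have hpa : ∀ φ ∈ MC 0, Finite (Subgroup.closure {ρ (φ (FreeGroup.of 0)), ρ (φ x)} :
      Subgroup (GL (Fin r) ℂ)) := fun φ hφ => finite_closure ρ _ _ (hT.pa φ hφ x [] hx)
  have hone : (1 : MulAut (F 0)) ∈ MC 0 := fun y hy => ⟨y, hy, IsConj.refl _⟩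
  by_cases hX : (ρ x : Matrix (Fin r) (Fin r) ℂ) = l • 1
  · have hfA := hpa 1 hone
    simp only [MulAut.one_apply] at hfA
    have hBo : IsOfFinOrder (ρ (FreeGroup.of 1)) := by
      have h3 : TF 0 (FreeGroup.of 1)⁻¹ ((FreeGroup.of 1)⁻¹ * FreeGroup.of 0 * FreeGroup.of 1)
          (tX 0) := TR.refl.rot'
      obtain ⟨ψ, hψ, h4, -, -⟩ := thm_Aut 0 _ _ _ h3
      have h5 := hpa ψ hψ
      rw [h4, map_inv] at h5
      have h6 : IsOfFinOrder ((ρ (FreeGroup.of 1))⁻¹) := by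
        exact to2_fo _ h5 _ (Subgroup.subset_closure (Or.inl rfl))
      exact isOfFinOrder_inv_iff.1 h6
    have h8 : Finite (Subgroup.closure {ρ (FreeGroup.of 0), ρ (FreeGroup.of 1)} :
        Subgroup (GL (Fin r) ℂ)) := by
      refine to2_scalar _ _ (ρ x) (fun g => ?_) (by rw [← map_mul, hrel, map_mul, map_mul]) hfA hBo
      apply Units.ext
      rw [Units.val_mul, Units.val_mul, hX, smul_mul_assoc, one_mul, mul_smul_comm, mul_one]
    rw [← to2_range] at h8
    intro w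
    refine quasi_of_finite _ (ρ.range : Set (GL (Fin r) ℂ)) (Set.toFinite _) fun k => ?_
    exact ⟨w ^ k, map_pow ρ w k⟩
  · have hl0 : l ≠ 0 ∨ r = 1 := by
      by_cases h : l = 0
      · right
        by_contra hr1
        have h3 := h1 x (by rw [hx]; simp)
        rw [h, zero_smul, sub_zero] at h3
        have h4 : ((ρ x : Matrix (Fin r) (Fin r) ℂ)).rank = r := by
          rw [Matrix.rank_of_isUnit _ (ρ x).isUnit, Fintype.card_fin]
        omega
      · exact Or.inl h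
    refine To2_fi1 r ρ hr hirr hT ?_
    rcases hl0 with hl0 | hr1
    · refine ⟨l, fun y hy => ⟨h1 y hy, ?_⟩⟩
      rw [hx, List.mem_singleton] at hy
      subst hy
      exact to2_ca _ _ l hl0 h2 hX
    · subst hr1
      refine ⟨2, fun y hy => ⟨?_, ?_⟩⟩
      · refine (Matrix.rank_le_card_width _).trans ?_
        simp
      · rw [hx, List.mem_singleton] at hy
        subst hy
        have h5 : (ρ y : Matrix (Fin 1) (Fin 1) ℂ) = 1 := by
          have h6 := congrArg (fun g : GL (Fin 1) ℂ => (g : Matrix (Fin 1) (Fin 1) ℂ).det)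
            (congrArg ρ hrel)
          simp only [map_mul, Units.val_mul, det_mul] at h6
          have h7 : (ρ y : Matrix (Fin 1) (Fin 1) ℂ).det = 1 := by
            have h8 : (ρ (FreeGroup.of 0) : Matrix (Fin 1) (Fin 1) ℂ).det ≠ 0 :=
              ((Matrix.isUnit_iff_isUnit_det _).1 (ρ (FreeGroup.of 0)).isUnit).ne_zero
            have h9 : (ρ (FreeGroup.of 1) : Matrix (Fin 1) (Fin 1) ℂ).det ≠ 0 :=
              ((Matrix.isUnit_iff_isUnit_det _).1 (ρ (FreeGroup.of 1)).isUnit).ne_zero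
            have h10 : (ρ (FreeGroup.of 1) : Matrix (Fin 1) (Fin 1) ℂ).det *
                (ρ (FreeGroup.of 0) : Matrix (Fin 1) (Fin 1) ℂ).det *
                (ρ y : Matrix (Fin 1) (Fin 1) ℂ).det =
                (ρ (FreeGroup.of 1) : Matrix (Fin 1) (Fin 1) ℂ).det *
                (ρ (FreeGroup.of 0) : Matrix (Fin 1) (Fin 1) ℂ).det * 1 := by
              rw [← h6]
              ring
            exact mul_left_cancel₀ (mul_ne_zero h9 h8) h10
          ext i j
          rw [Subsingleton.elim i 0, Subsingleton.elim j 0, one_apply_eq]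
          rwa [det_fin_one] at h7
        refine to2_ca _ _ 2 two_ne_zero (fun k hk hk1 => by omega) ?_
        rw [h5]
        intro h6
        have h7 := congrFun (congrFun h6 0) 0
        rw [Matrix.smul_apply, one_apply_eq, smul_eq_mul, mul_one] at h7
        norm_num at h7

private theorem to2_rank {G : Type} [Group G] {r s : ℕ} {ρ : G →* GL (Fin r) ℂ}
    {σ : G →* GL (Fin s) ℂ} (h : Sub ρ σ) (x : G) (c : ℂ)
    (hc : ((ρ x : Matrix (Fin r) (Fin r) ℂ) - c • (1 : Matrix (Fin r) (Fin r) ℂ)).rank ≤ 1) :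
    ((σ x : Matrix (Fin s) (Fin s) ℂ) - c • (1 : Matrix (Fin s) (Fin s) ℂ)).rank ≤ 1 := by
  rcases h with ⟨A, L, hLA, h⟩ | ⟨B, R, hBR, h⟩
  · have e : (σ x : Matrix (Fin s) (Fin s) ℂ) - c • (1 : Matrix (Fin s) (Fin s) ℂ) =
        L * (((ρ x : Matrix (Fin r) (Fin r) ℂ) - c • (1 : Matrix (Fin r) (Fin r) ℂ)) * A) := by
      rw [Matrix.sub_mul, h x, Matrix.smul_mul, Matrix.one_mul, Matrix.mul_sub, Matrix.mul_smul,
        hLA, ← Matrix.mul_assoc, hLA, Matrix.one_mul]
    rw [e]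
    exact (Matrix.rank_mul_le_right _ _).trans ((Matrix.rank_mul_le_left _ _).trans hc)
  · have e : (σ x : Matrix (Fin s) (Fin s) ℂ) - c • (1 : Matrix (Fin s) (Fin s) ℂ) =
        B * ((ρ x : Matrix (Fin r) (Fin r) ℂ) - c • (1 : Matrix (Fin r) (Fin r) ℂ)) * R := by
      rw [Matrix.mul_sub, h x, Matrix.mul_smul, Matrix.mul_one, Matrix.sub_mul, Matrix.mul_assoc,
        hBR, Matrix.mul_one, Matrix.smul_mul, hBR]
    rw [e]
    exact (Matrix.rank_mul_le_left _ _).trans ((Matrix.rank_mul_le_right _ _).trans hc)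

private theorem to2_le {G : Type} [Group G] {r s : ℕ} {ρ : G →* GL (Fin r) ℂ}
    {σ : G →* GL (Fin s) ℂ} (h : Sub ρ σ) : s ≤ r := by
  rcases h with ⟨A, L, hLA, -⟩ | ⟨B, R, hBR, -⟩
  · have h1 : (1 : Matrix (Fin s) (Fin s) ℂ).rank ≤ r := by
      rw [← hLA]
      exact (Matrix.rank_mul_le_left _ _).trans ((Matrix.rank_le_card_width _).trans (by simp))
    rwa [Matrix.rank_one, Fintype.card_fin] at h1
  · have h1 : (1 : Matrix (Fin s) (Fin s) ℂ).rank ≤ r := by
      rw [← hBR]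
      exact (Matrix.rank_mul_le_left _ _).trans ((Matrix.rank_le_card_width _).trans (by simp))
    rwa [Matrix.rank_one, Fintype.card_fin] at h1

private theorem to2_th {n r s : ℕ} {ρ : F n →* GL (Fin r) ℂ} {σ : F n →* GL (Fin s) ℂ}
    (h : TH n r ρ) (hs : Sub ρ σ) : TH n s σ where
  pr := fun y hy => PR_sub hs (h.pr y hy)
  pa := fun φ hφ y T hT => finite_sub hs (h.pa φ hφ y T hT)
  pb := fun φ hφ N y T hT => finite_sub hs (h.pb φ hφ N y T hT)

/-- **One puncture.**  If the local monodromy is `l` times a pseudo-reflection with `l` of order at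
least the rank, then all eigenvalues are roots of unity. -/
theorem thm_To2 (r : ℕ) (ρ : F 0 →* GL (Fin r) ℂ) (hT : TH 0 r ρ) (l : ℂ)
    (h1 : ∀ x ∈ tX 0,
      ((ρ x : Matrix (Fin r) (Fin r) ℂ) - l • (1 : Matrix (Fin r) (Fin r) ℂ)).rank ≤ 1)
    (h2 : ∀ k : ℕ, 0 < k → k < r → l ^ k ≠ 1) : ∀ w, Quasi (ρ w) := by
  refine quasi_of_sub (F := F 0) (fun s σ => TH 0 s σ ∧ (∀ x ∈ tX 0,
      ((σ x : Matrix (Fin s) (Fin s) ℂ) - l • (1 : Matrix (Fin s) (Fin s) ℂ)).rank ≤ 1) ∧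
      ∀ k : ℕ, 0 < k → k < s → l ^ k ≠ 1) ?_ ?_ r ρ ⟨hT, h1, h2⟩
  · rintro r s ρ σ ⟨a1, a2, a3⟩ hs
    exact ⟨to2_th a1 hs, fun x hx => to2_rank hs x l (a2 x hx),
      fun k hk hks => a3 k hk (lt_of_lt_of_le hks (to2_le hs))⟩
  · rintro r ρ hr hirr ⟨a1, a2, a3⟩
    exact to2_irr ρ hr hirr a1 l a2 a3

end Pool.Agent.TRS
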