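import Pool.Agent.TRS.St1
import Pool.Agent.PRS.FinX

/-! # TRS: the annuli -/

set_option autoImplicit false

namespace Pool.Agent.TRS

open Matrix Pool.Agent.HZ Pool.Agent.PRS

theorem thm_Ann : St_Ann := by
  intro R _ G _ r S ρ a₀ b₀ L₀ c c' z z' hS a b L hT
  have key : ∀ a' N, RP a L a' N → ∃ b' T, TR a₀ b₀ L₀ a' b' (N ++ T) := by
    rintro a' N ⟨T, hT'⟩
    obtain ⟨b', hb⟩ := hT.rch hT'
    exact ⟨b', T, hb⟩
  have hX : SysX S ρ a L c c' z z' := by
    refine ⟨hS.conj, ?_, ?_, hS.fld, hS.nat, ?_⟩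
    · intro a' N hN y hy
      obtain ⟨b', T, h⟩ := key a' N hN
      exact hS.lett a' b' _ h y (List.mem_append_left _ hy)
    · intro a' N hN
      obtain ⟨b', T, h⟩ := key a' N hN
      refine ⟨?_, (hS.loops a' b' N T h).2⟩
      have h1 := h.blockS4
      exact (hS.loops (a' * N.prod) b' [] _ h1).1
    · intro a' y y' N hN
      obtain ⟨b', T, h⟩ := key a' _ hN
      exact hS.par a' b' y y' (N ++ T) h
  exact uq_of thm_Zz R G r S ρ a L c c' z z' hX

end Pool.Agent.TRS
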