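import Pool.Agent.TRS.App

/-!
# Irreducibility is seen by finitely many words

Helper66, for MP_0707f5_ag.
-/

set_option autoImplicit false

namespace Pool.Agent.TRS

open Matrix Pool.Agent.HZ Pool.Agent.PRS

/-- the generators and their inverses -/
def gens (n : ℕ) : Set (FreeGroup (Fin n)) :=
  Set.range (fun i : Fin n => FreeGroup.of i) ∪ Set.range (fun i : Fin n => (FreeGroup.of i)⁻¹)

theorem gens_finite (n : ℕ) : (gens n).Finite :=
  (Set.finite_range _).union (Set.finite_range _)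

/-- the products of at most `k` generators and inverses of generators -/
def bl (n : ℕ) : ℕ → Set (FreeGroup (Fin n))
  | 0 => {1}
  | k + 1 => bl n k ∪ Set.image2 (fun s w => s * w) (gens n) (bl n k)

theorem bl_finite (n k : ℕ) : (bl n k).Finite := by
  induction k with
  | zero => exact Set.finite_singleton 1
  | succ k ih => exact ih.union (Set.Finite.image2 _ (gens_finite n) ih)

theorem one_mem_bl (n k : ℕ) : (1 : FreeGroup (Fin n)) ∈ bl n k := by
  induction k with
  | zero => exact Set.mem_singleton 1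
  | succ k ih => exact Or.inl ih

/-- the span of the images of a vector -/
def Wk {n r : ℕ} (σ : FreeGroup (Fin n) →* GL (Fin r) ℂ) (v : Fin r → ℂ) (k : ℕ) :
    Submodule ℂ (Fin r → ℂ) :=
  Submodule.span ℂ ((fun w => (σ w : Matrix (Fin r) (Fin r) ℂ) *ᵥ v) '' bl n k)

theorem mem_Wk {n r : ℕ} (σ : FreeGroup (Fin n) →* GL (Fin r) ℂ) (v : Fin r → ℂ) (k : ℕ) :
    v ∈ Wk σ v k := by
  refine Submodule.subset_span ⟨1, one_mem_bl n k, ?_⟩
  simp

theorem Wk_mono {n r : ℕ} (σ : FreeGroup (Fin n) →* GL (Fin r) ℂ) (v : Fin r → ℂ) (k : ℕ) :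
    Wk σ v k ≤ Wk σ v (k + 1) :=
  Submodule.span_mono (Set.image_mono Set.subset_union_left)

theorem Wk_step {n r : ℕ} (σ : FreeGroup (Fin n) →* GL (Fin r) ℂ) (v : Fin r → ℂ) (k : ℕ)
    (s : FreeGroup (Fin n)) (hs : s ∈ gens n) (x : Fin r → ℂ) (hx : x ∈ Wk σ v k) :
    (σ s : Matrix (Fin r) (Fin r) ℂ) *ᵥ x ∈ Wk σ v (k + 1) := by
  have h1 : Wk σ v k ≤ (Wk σ v (k + 1)).comap
      (Matrix.toLin' (σ s : Matrix (Fin r) (Fin r) ℂ)) := by
    refine Submodule.span_le.2 ?_
    rintro _ ⟨w, hw, rfl⟩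
    refine Submodule.subset_span ⟨s * w, Or.inr ⟨s, hs, w, hw, rfl⟩, ?_⟩
    simp [Matrix.mulVec_mulVec]
  exact h1 hx

theorem Wk_stab {n r : ℕ} (σ : FreeGroup (Fin n) →* GL (Fin r) ℂ) (v : Fin r → ℂ) (k : ℕ)
    (h : Wk σ v (k + 1) = Wk σ v k) : Stab σ.range (Wk σ v k) := by
  have key : ∀ w : FreeGroup (Fin n), ∀ x ∈ Wk σ v k,
      (σ w : Matrix (Fin r) (Fin r) ℂ) *ᵥ x ∈ Wk σ v k := by
    intro w
    induction w using FreeGroup.induction_on with
    | C1 => intro x hx; simpa using hx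
    | of i =>
      intro x hx
      have := Wk_step σ v k (FreeGroup.of i) (Or.inl ⟨i, rfl⟩) x hx
      rwa [h] at this
    | inv_of i _ =>
      intro x hx
      have := Wk_step σ v k (FreeGroup.of i)⁻¹ (Or.inr ⟨i, rfl⟩) x hx
      rwa [h] at this
    | mul a b ha hb =>
      intro x hx
      have := ha _ (hb x hx)
      rw [Matrix.mulVec_mulVec] at this
      simpa using this
  rintro γ ⟨w, rfl⟩ x hx
  exact key w x hx

theorem Wk_top {n r : ℕ} (σ : FreeGroup (Fin n) →* GL (Fin r) ℂ) (hirr : Irr σ.range)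
    (v : Fin r → ℂ) (hv : v ≠ 0) : Wk σ v r = ⊤ := by
  have key : ∀ k : ℕ, k + 1 ≤ Module.finrank ℂ (Wk σ v k) ∨ Wk σ v k = ⊤ := by
    intro k
    induction k with
    | zero =>
      left
      rw [Nat.zero_add, Nat.one_le_iff_ne_zero, ← Nat.pos_iff_ne_zero]
      have : Nontrivial (Wk σ v 0) := by
        refine ⟨⟨⟨v, mem_Wk σ v 0⟩, 0, ?_⟩⟩
        intro h
        exact hv (congrArg Subtype.val h)
      exact Module.finrank_pos
    | succ k ih =>
      rcases ih with ih | ih
      · by_cases h : Wk σ v (k + 1) = Wk σ v k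
        · right
          rcases hirr _ (Wk_stab σ v k h) with h1 | h1
          · exfalso
            have := mem_Wk σ v k
            rw [h1] at this
            exact hv ((Submodule.mem_bot ℂ).1 this)
          · rw [h, h1]
        · left
          have h1 : Wk σ v k < Wk σ v (k + 1) := lt_of_le_of_ne (Wk_mono σ v k) (Ne.symm h)
          have h2 := Submodule.finrank_lt_finrank_of_lt h1
          omega
      · right
        exact top_le_iff.1 (ih ▸ Wk_mono σ v k)
  rcases key r with h | h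
  · have h1 := Submodule.finrank_le (Wk σ v r)
    rw [Module.finrank_fin_fun] at h1
    omega
  · exact h

theorem thm_Ball : St_Ball := by
  intro n r
  refine ⟨bl n r, bl_finite n r, ?_⟩
  intro σ hirr E E' hE hE'
  obtain ⟨i, j, hij⟩ : ∃ i j, E i j ≠ 0 := by
    by_contra hc
    push Not at hc
    exact hE (Matrix.ext hc)
  obtain ⟨i', j', hij'⟩ : ∃ i j, E' i j ≠ 0 := by
    by_contra hc
    push Not at hc
    exact hE' (Matrix.ext hc)
  by_contra hc
  push Not at hc
  have hv : (fun a => E' a j') ≠ 0 := fun h => hij' (congrFun h i')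
  have htop := Wk_top σ hirr _ hv
  have hle : Wk σ (fun a => E' a j') r ≤
      LinearMap.ker ((LinearMap.proj i : (Fin r → ℂ) →ₗ[ℂ] ℂ) ∘ₗ Matrix.toLin' E) := by
    refine Submodule.span_le.2 ?_
    rintro _ ⟨w, hw, rfl⟩
    have h1 := congrFun (congrFun (hc w hw) i) j'
    rw [SetLike.mem_coe, LinearMap.mem_ker]
    change (E *ᵥ ((σ w : Matrix (Fin r) (Fin r) ℂ) *ᵥ fun a => E' a j')) i = 0
    rw [Matrix.mulVec_mulVec]
    exact h1
  rw [htop] at hle
  have h2 : Pi.single j 1 ∈
      LinearMap.ker ((LinearMap.proj i : (Fin r → ℂ) →ₗ[ℂ] ℂ) ∘ₗ Matrix.toLin' E) :=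
    hle trivial
  rw [LinearMap.mem_ker] at h2
  apply hij
  simpa using h2

end Pool.Agent.TRS
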