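import Pool.Agent.TRS.St1
import Pool.Agent.PRS.XKW

/-!
# TRS DIC: there is a reachable tuple with the dichotomy

For MP_0707f5_ag.
-/

set_option autoImplicit false

namespace Pool.Agent.TRS

open Matrix Pool.Agent.HZ Pool.Agent.PRS

section lems
variable {R : Type} [CommRing R] {G : Type} [Group G] {r : ℕ}

private theorem dic_xw (ρ : G →* Matrix (Fin r) (Fin r) R) (c : G → R) (a : G) (E : List G) :
    xw ρ c a (E.map fun y => ((0 : ℤ), y)) = ew ρ c E := by
  unfold xw ew
  rw [List.map_map]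
  congr 1
  apply List.map_congr_left
  intro y _
  simp

private theorem dic_tr {S : Subring R} {ρ : G →* Matrix (Fin r) (Fin r) R} {c c' z z' : G → R}
    {a : G} {L : List G} (hL : ∀ y ∈ L, Lt S ρ c c' z z' y) (hK : KG S ρ a L)
    (E : List G) (hE : ∀ y ∈ E, y ∈ L) : (ew ρ c E).trace ∈ S := by
  have h1 := (thm_KW R G r S ρ c c' z z' a L hL).2 hK 0 (E.map fun y => ((0 : ℤ), y)) (by
    intro p hp
    obtain ⟨y, hy, rfl⟩ := List.mem_map.1 hp
    exact hE y hy)
  rw [dic_xw, _root_.zpow_zero, map_one, one_mul] at h1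
  exact h1

private theorem dic_lk {S : Subring R} {ρ : G →* Matrix (Fin r) (Fin r) R} {c : G → R}
    {C M : List G} {y y' : G} (h : Lk S ρ c C y y') : Lk S ρ c (C ++ M) y y' := by
  obtain ⟨W, W', hW, hW', t, ht, e⟩ := h
  exact ⟨W, W', fun x hx => List.mem_append_left _ (hW x hx),
    fun x hx => List.mem_append_left _ (hW' x hx), t, ht, e⟩

private theorem dic_max {ρ : G →* Matrix (Fin r) (Fin r) R} {c : G → R} {a₀ b₀ : G} {L₀ : List G}
    {y : G} (hy : y ∈ L₀) (he : el ρ c y ≠ 0) : ∃ a b C M, Mxc ρ c a₀ b₀ L₀ a b C M := by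
  classical
  let P : ℕ → Prop := fun n => ∃ a b C M, TR a₀ b₀ L₀ a b (C ++ M) ∧ Cn ρ c C ∧ C.length = n
  obtain ⟨B, hB⟩ := Pre.sublist (List.singleton_sublist.2 hy)
  have h1 : P 1 := ⟨a₀, b₀, [y], B, TR.refl.reach hB, Cn.one he, rfl⟩
  have hbd : ∀ n, P n → n ≤ L₀.length := by
    rintro n ⟨a, b, C, M, hT, _, rfl⟩
    rw [← hT.length, List.length_append]
    exact Nat.le_add_right _ _
  have h2 : P (Nat.findGreatest P L₀.length) := Nat.findGreatest_spec (hbd 1 h1) h1
  obtain ⟨a, b, C, M, hT, hC, hl⟩ := h2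
  refine ⟨a, b, C, M, hT, hC, ?_⟩
  intro a' b' C' M' hT' hC'
  rw [hl]
  have h3 : P C'.length := ⟨a', b', C', M', hT', hC', rfl⟩
  exact Nat.le_findGreatest (hbd _ h3) h3

end lems

/-- **DIC**. -/
theorem thm_Dic (hZer : St_Zer) (hLnk : St_Lnk) (hAnn : St_Ann) : St_Dic := by
  intro R _ G _ r S ρ a₀ b₀ L₀ c c' z z' hS
  by_cases h0 : ∀ y ∈ L₀, el ρ c y = 0
  · refine ⟨a₀, b₀, L₀, TR.refl, ?_⟩
    intro y hy y' _
    right
    right
    intro g _
    rw [h0 y hy, zero_mul, zero_mul]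
  · push Not at h0
    obtain ⟨x, hx, he⟩ := h0
    obtain ⟨a, b, C, M, hm⟩ := dic_max (a₀ := a₀) (b₀ := b₀) hx he
    refine ⟨a, b, C ++ M, hm.1, ?_⟩
    have hz := hZer R G r S ρ a₀ b₀ L₀ c c' z z' hS a b C M hm
    have hlt := hS.lett a b (C ++ M) hm.1
    intro y hy y' hy'
    rcases List.mem_append.1 hy with hy | hy
    · rcases List.mem_append.1 hy' with hy' | hy'
      · have hl := hLnk R G r S ρ c C hm.2.1
          (fun u hu => (hlt u (List.mem_append_left _ hu)).2.2.2) hS.fld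
          (fun E hE => dic_tr hlt (hAnn R G r S ρ a₀ b₀ L₀ c c' z z' hS a b (C ++ M) hm.1) E
            (fun u hu => List.mem_append_left _ (hE u hu))) y hy y' hy'
        rcases hl with h | h
        · exact Or.inl h
        · exact Or.inr (Or.inl (dic_lk h))
      · right
        right
        intro g _
        rw [hz y' hy', mul_zero]
    · right
      right
      intro g _
      rw [hz y hy, zero_mul, zero_mul]

end Pool.Agent.TRS
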