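import Pool.Agent.TRS.App

/-!
# Systems of pseudo-reflections on punctured tori, module GER: germs of families of matrices
-/

set_option autoImplicit false

namespace Pool.Agent.TRS

open Matrix Pool.Agent.HZ Pool.Agent.PRS

variable {Ω : Type} (U : Ultrafilter Ω)

private theorem Ger_gm (f g : Ω → ℂ) : gm U f = gm U g ↔ ∀ᶠ x in (U : Filter Ω), f x = g x :=
  Filter.Germ.coe_eq

private theorem Ger_app {r : ℕ} (A : Ω → Matrix (Fin r) (Fin r) ℂ) (i j : Fin r) :
    gA U A i j = gm U fun x => A x i j := rfl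

private theorem Ger_cst (f : Ω → ℂ) : gm U f ∈ gS U ↔ ∃ c : ℂ, ∀ᶠ x in (U : Filter Ω), f x = c := by
  constructor
  · rintro ⟨c, hc⟩
    exact ⟨c, (Ger_gm U f (fun _ => c)).1 hc.symm⟩
  · rintro ⟨c, hc⟩
    exact ⟨c, ((Ger_gm U f (fun _ => c)).2 hc).symm⟩

theorem thm_Ger : St_Ger := by
  intro Ω U r
  refine ⟨?_, ?_, ?_, ?_, ?_, ?_, Ger_gm U, Ger_cst U, ?_, ?_, ?_, ?_⟩
  · intro A B
    ext i j
    rw [Matrix.mul_apply, Ger_app]
    simp only [Ger_app]
    simp only [← map_mul, ← map_sum]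
    congr 1
    funext x
    rw [Matrix.mul_apply, Finset.sum_apply]
    rfl
  · intro A B
    ext i j
    rw [Matrix.sub_apply, Ger_app, Ger_app, Ger_app, ← map_sub]
    rfl
  · ext i j
    rw [Ger_app]
    by_cases h : i = j
    · subst h
      rw [Matrix.one_apply_eq]
      simp only [Matrix.one_apply_eq]
      exact map_one (gm U)
    · rw [Matrix.one_apply_ne h]
      simp only [Matrix.one_apply_ne h]
      exact map_zero (gm U)
  · intro c A
    ext i j
    rw [Matrix.smul_apply, Ger_app, Ger_app, smul_eq_mul, ← map_mul]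
    rfl
  · intro A
    simp only [Matrix.trace, Matrix.diag_apply, Ger_app]
    rw [← map_sum]
    congr 1
    funext x
    rw [Finset.sum_apply]
  · intro A B
    constructor
    · intro h
      have h1 : ∀ i j, ∀ᶠ x in (U : Filter Ω), A x i j = B x i j := fun i j =>
        (Ger_gm U _ _).1 (congrFun (congrFun h i) j)
      have h2 : ∀ᶠ x in (U : Filter Ω), ∀ i j, A x i j = B x i j :=
        Filter.eventually_all.2 fun i => Filter.eventually_all.2 fun j => h1 i j
      exact h2.mono fun x hx => Matrix.ext hx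
    · intro h
      ext i j
      rw [Ger_app, Ger_app, Ger_gm]
      exact h.mono fun x hx => by rw [hx]
  · intro n fam w
    rfl
  · intro X
    have h : ∀ i j, ∃ f : Ω → ℂ, gm U f = X i j := fun i j =>
      Filter.Germ.inductionOn (X i j) fun f => ⟨f, rfl⟩
    choose f hf using h
    refine ⟨fun x => Matrix.of fun i j => f i j x, ?_⟩
    ext i j
    rw [Ger_app, ← hf i j]
    rfl
  · rintro s ⟨c, rfl⟩ hs
    have hc : c ≠ 0 := by
      rintro rfl
      exact hs (map_zero _)
    refine ⟨((gm U).comp (Pi.constRingHom Ω ℂ)) c⁻¹, ⟨c⁻¹, rfl⟩, ?_⟩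
    rw [← map_mul, mul_inv_cancel₀ hc, map_one]
  · intro m hm
    have hc : (m : ℂ) ≠ 0 := Nat.cast_ne_zero.2 hm.ne'
    refine ⟨((gm U).comp (Pi.constRingHom Ω ℂ)) (m : ℂ)⁻¹, ⟨(m : ℂ)⁻¹, rfl⟩, ?_⟩
    rw [← map_natCast ((gm U).comp (Pi.constRingHom Ω ℂ)) m, ← map_mul, mul_inv_cancel₀ hc, map_one]

end Pool.Agent.TRS
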