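import Pool.Agent.TRS.St1

/-!
# TRS, module LNK: letters of a connected list are linked
-/

set_option autoImplicit false

namespace Pool.Agent.TRS

open Matrix Pool.Agent.HZ Pool.Agent.PRS

section
variable {R : Type} [CommRing R] {G : Type} [Group G] {r : ℕ} {S : Subring R}
  {ρ : G →* Matrix (Fin r) (Fin r) R} {c : G → R}

private theorem lnk_mono {C D : List G} (h : ∀ x ∈ C, x ∈ D) {y y' : G} (hl : Lk S ρ c C y y') :
    Lk S ρ c D y y' := by
  obtain ⟨W, W', h1, h2, t, ht, h3⟩ := hl
  exact ⟨W, W', fun x hx => h x (h1 x hx), fun x hx => h x (h2 x hx), t, ht, h3⟩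

private theorem lnk_symm {C : List G} {y y' : G} (hl : Lk S ρ c C y y') : Lk S ρ c C y' y := by
  obtain ⟨W, W', h1, h2, t, ht, h3⟩ := hl
  refine ⟨W', W, h2, h1, t, ht, ?_⟩
  rw [← h3, mul_assoc (el ρ c y' * ew ρ c W'), Matrix.trace_mul_comm, mul_assoc (el ρ c y * ew ρ c W)]

private theorem lnk_new {C : List G} {x y y' : G} (hx : x ∈ C) (hy : y ∈ C)
    (hro : RO (el ρ c x)) (hf : ∀ s ∈ S, s ≠ 0 → ∃ t ∈ S, s * t = 1)
    (htr : (el ρ c x * el ρ c y).trace ∈ S) (hne : (el ρ c x * el ρ c y).trace ≠ 0)
    (h : el ρ c y' = el ρ c x ∨ Lk S ρ c C y' x) : Lk S ρ c C y' y := by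
  obtain ⟨t, ht, h1⟩ := hf _ htr hne
  rcases h with h | ⟨W, W', h2, h3, t', ht', h4⟩
  · refine ⟨[], [], fun x hx => absurd hx List.not_mem_nil, fun x hx => absurd hx List.not_mem_nil,
      t, ht, ?_⟩
    rw [ew_nil, mul_one, mul_one, h, mul_comm]
    exact h1
  · refine ⟨W ++ [x], x :: W', fun u hu => ?_, fun u hu => ?_, t * t', S.mul_mem ht ht', ?_⟩
    · rcases List.mem_append.1 hu with hu | hu
      · exact h2 u hu
      · rw [List.mem_singleton.1 hu]
        exact hx
    · rcases List.mem_cons.1 hu with hu | hu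
      · rw [hu]
        exact hx
      · exact h3 u hu
    · have e1 : el ρ c y' * ew ρ c (W ++ [x]) * el ρ c y * ew ρ c (x :: W') =
          (el ρ c x * el ρ c y).trace • (el ρ c y' * ew ρ c W * el ρ c x * ew ρ c W') := by
        rw [ew_append, ew_cons, ew_nil, mul_one, ew_cons]
        have e2 : el ρ c y' * (ew ρ c W * el ρ c x) * el ρ c y * (el ρ c x * ew ρ c W') =
            el ρ c y' * ew ρ c W * (el ρ c x * el ρ c y * el ρ c x) * ew ρ c W' := by
          simp only [mul_assoc]
        rw [e2, hro (el ρ c y), mul_smul_comm, smul_mul_assoc]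
      rw [e1, Matrix.trace_smul, smul_eq_mul]
      linear_combination (t' * (el ρ c y' * ew ρ c W * el ρ c x * ew ρ c W').trace) * h1 + h4

end

theorem thm_Lnk : St_Lnk := by
  intro R _ G _ r S ρ c C hC
  induction hC with
  | one _ =>
    intro _ _ _ u hu u' hu'
    rw [List.mem_singleton.1 hu, List.mem_singleton.1 hu']
    exact Or.inl rfl
  | @snoc C y hC hx ih =>
    intro hro hf htr
    obtain ⟨x, hxC, hne⟩ := hx
    have hsub : ∀ u ∈ C, u ∈ C ++ [y] := fun u hu => List.mem_append_left _ hu
    have ih' := ih (fun u hu => hro u (hsub u hu)) hf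
      (fun E hE => htr E fun u hu => hsub u (hE u hu))
    have hyD : y ∈ C ++ [y] := by simp
    have htr' : (el ρ c x * el ρ c y).trace ∈ S := by
      have h1 := htr [x, y] (fun u hu => by
        rcases List.mem_cons.1 hu with hu | hu
        · rw [hu]
          exact hsub x hxC
        · rw [List.mem_singleton.1 hu]
          exact hyD)
      rwa [ew_cons, ew_cons, ew_nil, mul_one] at h1
    have hnew : ∀ u ∈ C, Lk S ρ c (C ++ [y]) u y := by
      intro u hu
      refine lnk_new (hsub x hxC) hyD (hro x (hsub x hxC)) hf htr' hne ?_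
      rcases ih' u hu x hxC with h | h
      · exact Or.inl h
      · exact Or.inr (lnk_mono hsub h)
    intro u hu u' hu'
    rcases List.mem_append.1 hu with hu | hu
    · rcases List.mem_append.1 hu' with hu' | hu'
      · rcases ih' u hu u' hu' with h | h
        · exact Or.inl h
        · exact Or.inr (lnk_mono hsub h)
      · rw [List.mem_singleton.1 hu']
        exact Or.inr (hnew u hu)
    · rw [List.mem_singleton.1 hu]
      rcases List.mem_append.1 hu' with hu' | hu'
      · exact Or.inr (lnk_symm (hnew u' hu'))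
      · rw [List.mem_singleton.1 hu']
        exact Or.inl rfl

end Pool.Agent.TRS
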