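import Pool.Agent.TRS.St1

/-! # TRS: the letters of `M` are orthogonal to those of `C` -/

set_option autoImplicit false

namespace Pool.Agent.TRS

open Matrix Pool.Agent.HZ Pool.Agent.PRS

theorem thm_Prp : St_Prp := by
  intro R _ G _ r S ρ a₀ b₀ L₀ c c' z z' hS a b C M hM x hx y hy
  obtain ⟨hT, hC, hmax⟩ := hM
  have htr : (el ρ c x * el ρ c y).trace = 0 := by
    by_contra hne
    obtain ⟨M₁, M₂, rfl⟩ := List.append_of_mem hy
    have h1 := (move_left y M₁).context C M₂
    have e1 : C ++ (M₁ ++ [y]) ++ M₂ = C ++ (M₁ ++ y :: M₂) := by simp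
    have e2 : C ++ (y :: M₁.map (fun x => y⁻¹ * x * y)) ++ M₂ =
        (C ++ [y]) ++ (M₁.map (fun x => y⁻¹ * x * y) ++ M₂) := by simp
    rw [e1, e2] at h1
    have h3 := hmax a b (C ++ [y]) _ (hT.reach h1) (Cn.snoc hC ⟨x, hx, hne⟩)
    rw [List.length_append, List.length_singleton] at h3
    omega
  have hsub : List.Sublist ([x] ++ [y]) (C ++ M) :=
    (List.singleton_sublist.2 hx).append (List.singleton_sublist.2 hy)
  obtain ⟨B, hB⟩ := Pre.sublist hsub
  exact hS.par a b x y B (hT.reach hB) htr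

end Pool.Agent.TRS
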