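import Pool.Agent.TRS.St1

/-!
# TRS, module QFX: vectors killed by the rank one parts
-/

set_option autoImplicit false

namespace Pool.Agent.TRS

open Matrix Pool.Agent.HZ Pool.Agent.PRS

theorem thm_Qfx : St_Qfx := by
  intro R _ G _ r S ρ c c' z z' C hC
  induction C with
  | nil =>
    refine ⟨1, 1, one_mul 1, fun X _ => ?_, fun X _ => ?_⟩
    · rw [List.prod_nil, inv_one, map_one, mul_one, one_smul]
      exact ⟨rfl, rfl⟩
    · rw [List.prod_nil, inv_one, map_one, one_mul, one_smul]
      exact ⟨rfl, rfl⟩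
  | cons y C ih =>
    obtain ⟨κ, κ', h0, h1, h2⟩ := ih fun x hx => hC x (List.mem_cons_of_mem _ hx)
    have hy := hC y List.mem_cons_self
    refine ⟨c' y * κ, c y * κ', ?_, fun X hX => ?_, fun X hX => ?_⟩
    · calc c' y * κ * (c y * κ') = (c y * c' y) * (κ * κ') := by ring
        _ = 1 := by rw [hy.2.1.1, h0, one_mul]
    · obtain ⟨h3, h4⟩ := h1 X fun x hx => hX x (List.mem_cons_of_mem _ hx)
      have h5 := hX y List.mem_cons_self
      have h6 : X * ρ y = c' y • X := by
        rw [hy.map_eq, mul_smul_comm, mul_add, mul_one, h5, add_zero]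
      have h7 : X * ρ y⁻¹ = c y • X := by
        rw [hy.map_inv, mul_smul_comm, mul_sub, mul_one, mul_smul_comm, h5, smul_zero, sub_zero]
      constructor
      · rw [List.prod_cons, map_mul, ← mul_assoc, h6, smul_mul_assoc, h3, smul_smul]
      · rw [List.prod_cons, _root_.mul_inv_rev, map_mul, ← mul_assoc, h4, smul_mul_assoc, h7, smul_smul,
          mul_comm κ']
    · obtain ⟨h3, h4⟩ := h2 X fun x hx => hX x (List.mem_cons_of_mem _ hx)
      have h5 := hX y List.mem_cons_self
      have h6 : ρ y * X = c' y • X := by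
        rw [hy.map_eq, smul_mul_assoc, add_mul, one_mul, h5, add_zero]
      have h7 : ρ y⁻¹ * X = c y • X := by
        rw [hy.map_inv, smul_mul_assoc, sub_mul, one_mul, smul_mul_assoc, h5, smul_zero, sub_zero]
      constructor
      · rw [List.prod_cons, map_mul, mul_assoc, h3, mul_smul_comm, h6, smul_smul, mul_comm κ]
      · rw [List.prod_cons, _root_.mul_inv_rev, map_mul, mul_assoc, h7, mul_smul_comm, h4, smul_smul]

end Pool.Agent.TRS
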