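import Pool.Agent.TRS.St1

/-!
# Systems of pseudo-reflections on punctured tori: the four slides of the maximal block
-/

set_option autoImplicit false

namespace Pool.Agent.TRS

open Matrix Pool.Agent.HZ Pool.Agent.PRS

section sld
variable {R : Type} [CommRing R] {G : Type} [Group G] {r : ℕ} {S : Subring R}
  {ρ : G →* Matrix (Fin r) (Fin r) R} {a₀ b₀ : G} {L₀ : List G} {c c' z z' : G → R}

private theorem sld_left (A B : List G) :
    BReach (A ++ B) (B ++ A.map fun x => B.prod⁻¹ * x * B.prod) := by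
  induction A with
  | nil => simpa using BReach.refl B
  | cons x A ih =>
    have h1 := ih.cons x
    have h2 := (pass_right x B).append_right (A.map fun x => B.prod⁻¹ * x * B.prod)
    simp only [List.cons_append, List.append_assoc, List.map_cons, List.nil_append] at h1 h2 ⊢
    exact h1.trans h2

private theorem sld_right (A B : List G) :
    BReach (A ++ B) ((B.map fun x => A.prod * x * A.prod⁻¹) ++ A) := by
  induction B with
  | nil => simpa using BReach.refl A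
  | cons x B ih =>
    have h1 := (pass_left x A).append_right B
    have h2 := ih.cons (A.prod * x * A.prod⁻¹)
    simp only [List.cons_append, List.append_assoc, List.map_cons, List.nil_append] at h1 h2 ⊢
    exact h1.trans h2

private theorem sld_cn (g : G) (f : G → G) (hf : ∀ y, el ρ c (f y) = ρ g * el ρ c y * ρ g⁻¹)
    {C : List G} (h : Cn ρ c C) : Cn ρ c (C.map f) := by
  induction h with
  | @one y h =>
    refine Cn.one ?_
    intro h0
    rw [hf] at h0
    apply h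
    calc el ρ c y = ρ g⁻¹ * (ρ g * el ρ c y * ρ g⁻¹) * ρ g := by
          rw [mul_assoc (ρ g), ← mul_assoc (ρ g⁻¹) (ρ g), map_en, one_mul, mul_assoc, map_en,
            mul_one]
      _ = 0 := by rw [h0, mul_zero, zero_mul]
  | @snoc C y _ hx ih =>
    rw [List.map_append]
    refine Cn.snoc ih ?_
    obtain ⟨x, hx, ht⟩ := hx
    refine ⟨f x, List.mem_map_of_mem hx, ?_⟩
    rw [hf, hf]
    have e : ρ g * el ρ c x * ρ g⁻¹ * (ρ g * el ρ c y * ρ g⁻¹) =
        ρ g * (el ρ c x * el ρ c y) * ρ g⁻¹ := by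
      calc ρ g * el ρ c x * ρ g⁻¹ * (ρ g * el ρ c y * ρ g⁻¹)
          = ρ g * el ρ c x * (ρ g⁻¹ * ρ g) * el ρ c y * ρ g⁻¹ := by simp only [mul_assoc]
        _ = ρ g * (el ρ c x * el ρ c y) * ρ g⁻¹ := by
          rw [map_en, mul_one]
          simp only [mul_assoc]
    rw [e, Matrix.trace_mul_cycle, map_en, one_mul]
    exact ht

private theorem sld_fix (hP : St_Prp) (hQ : St_Qfx) (h : SysT S ρ a₀ b₀ L₀ c c' z z') {a b : G}
    {C M : List G} (hm : Mxc ρ c a₀ b₀ L₀ a b C M) {u : G} (hu : u ∈ M) :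
    el ρ c (C.prod * u * C.prod⁻¹) = el ρ c u := by
  obtain ⟨κ, κ', h1, h2, h3⟩ := hQ R G r S ρ c c' z z' C
    fun y hy => h.lett a b _ hm.1 y (List.mem_append_left _ hy)
  have h4 := h3 (el ρ c u) fun x hx =>
    (hP R G r S ρ a₀ b₀ L₀ c c' z z' h a b C M hm x hx u hu).1
  have h5 := h2 (el ρ c u) fun x hx =>
    (hP R G r S ρ a₀ b₀ L₀ c c' z z' h a b C M hm x hx u hu).2
  rw [el_cj h.conj, h4.1, smul_mul_assoc, h5.2, smul_smul, h1, one_smul]

private theorem sld_l (hP : St_Prp) (hQ : St_Qfx) (h : SysT S ρ a₀ b₀ L₀ c c' z z')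
    {a b a' b' : G} {C C' M : List G} (hm : Mxc ρ c a₀ b₀ L₀ a b C M) (hC : Cn ρ c C')
    (hl : C'.length = C.length) (ht : TR a₀ b₀ L₀ a' b' (M ++ C')) :
    ∃ M', M'.map (el ρ c) = M.map (el ρ c) ∧ Mxc ρ c a₀ b₀ L₀ a' b' C' M' := by
  have h1 : Mxc ρ c a₀ b₀ L₀ a' b' C' (M.map fun x => C'.prod⁻¹ * x * C'.prod) :=
    ⟨ht.reach (sld_left M C'), hC, fun a'' b'' C'' M'' h2 h3 => by
      rw [hl]
      exact hm.2.2 a'' b'' C'' M'' h2 h3⟩
  refine ⟨_, ?_, h1⟩
  rw [List.map_map]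
  refine List.map_congr_left fun u hu => ?_
  have h2 := sld_fix hP hQ h h1
    (List.mem_map_of_mem (f := fun x => C'.prod⁻¹ * x * C'.prod) hu)
  have e : C'.prod * (C'.prod⁻¹ * u * C'.prod) * C'.prod⁻¹ = u := by group
  rw [e] at h2
  exact h2.symm

private theorem sld_r (hP : St_Prp) (hQ : St_Qfx) (h : SysT S ρ a₀ b₀ L₀ c c' z z')
    {a b a' b' : G} {C C' M : List G} (hm : Mxc ρ c a₀ b₀ L₀ a b C M) (hC : Cn ρ c C')
    (hl : C'.length = C.length)
    (ht : TR a₀ b₀ L₀ a' b' (C' ++ M.map fun x => C.prod * x * C.prod⁻¹)) :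
    ∃ M', M'.map (el ρ c) = M.map (el ρ c) ∧ Mxc ρ c a₀ b₀ L₀ a' b' C' M' := by
  refine ⟨_, ?_, ht, hC, fun a'' b'' C'' M'' h2 h3 => ?_⟩
  · rw [List.map_map]
    exact List.map_congr_left fun u hu => sld_fix hP hQ h hm hu
  · rw [hl]
    exact hm.2.2 a'' b'' C'' M'' h2 h3

end sld

/-- The four slides of the block `C`. -/
theorem thm_Sld (hP : St_Prp) (hQ : St_Qfx) : St_Sld := by
  intro R _ G _ r S ρ a₀ b₀ L₀ c c' z z' h a b C M hm
  have ht : TR a₀ b₀ L₀ a b ((M.map fun x => C.prod * x * C.prod⁻¹) ++ C) :=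
    hm.1.reach (sld_right C M)
  have e1 : ∀ g y : G, el ρ c (g⁻¹ * y * g) = ρ g⁻¹ * el ρ c y * ρ (g⁻¹)⁻¹ := fun g y => by
    rw [el_cj' h.conj, inv_inv]
  refine ⟨?_, ?_, ?_, ?_⟩
  · exact sld_l hP hQ h hm (sld_cn a _ (fun y => el_cj h.conj a y) hm.2.1) (by simp)
      (TR.blockS1 hm.1)
  · exact sld_r hP hQ h hm (sld_cn a⁻¹ _ (fun y => e1 a y) hm.2.1) (by simp) (TR.blockS2 ht)
  · exact sld_r hP hQ h hm (sld_cn b _ (fun y => el_cj h.conj b y) hm.2.1) (by simp)
      (TR.blockS3 ht)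
  · exact sld_l hP hQ h hm (sld_cn b⁻¹ _ (fun y => e1 b y) hm.2.1) (by simp)
      (TR.blockS4 hm.1)

end Pool.Agent.TRS
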