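import Pool.Agent.TRS.App

/-!
# SPS

MP_0707f5_ag (helper42; after `quasi_of_sub`, helper33).
-/

set_option autoImplicit false

namespace Pool.Agent.TRS

open Matrix Pool.Agent.HZ Pool.Agent.PRS

theorem thm_Sps : St_Sps := by
  intro G _ r ρ hr hI
  unfold Irr at hI
  push Not at hI
  obtain ⟨W, hW, hbot, htop⟩ := hI
  obtain ⟨W', hc⟩ := exists_isCompl W
  have hdim := Submodule.finrank_add_eq_of_isCompl hc
  rw [Module.finrank_fin_fun] at hdim
  have hs0 : 0 < Module.finrank ℂ W := by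
    rw [Nat.pos_iff_ne_zero]
    intro h
    exact hbot (Submodule.finrank_eq_zero.1 h)
  have ht0 : 0 < Module.finrank ℂ W' := by
    rw [Nat.pos_iff_ne_zero]
    intro h
    rw [Submodule.finrank_eq_zero.1 h] at hc
    exact htop (by have := hc.sup_eq_top; rwa [sup_bot_eq] at this)
  let s := Module.finrank ℂ W
  let t := Module.finrank ℂ W'
  let e : W ≃ₗ[ℂ] (Fin s → ℂ) := (Module.finBasis ℂ W).equivFun
  let e' : W' ≃ₗ[ℂ] (Fin t → ℂ) := (Module.finBasis ℂ W').equivFun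
  let p : (Fin r → ℂ) →ₗ[ℂ] W := W.projectionOnto W' hc
  let p' : (Fin r → ℂ) →ₗ[ℂ] W' := W'.projectionOnto W hc.symm
  have hp : ∀ v : W, p (v : Fin r → ℂ) = v := fun v => Submodule.projectionOnto_apply_left hc v
  have hp' : ∀ v : W', p' (v : Fin r → ℂ) = v := fun v =>
    Submodule.projectionOnto_apply_left hc.symm v
  have hp0 : ∀ v : Fin r → ℂ, p' v = 0 ↔ v ∈ W := fun v =>
    Submodule.projectionOnto_apply_eq_zero_iff hc.symm
  let A : Matrix (Fin r) (Fin s) ℂ := LinearMap.toMatrix' (W.subtype ∘ₗ e.symm.toLinearMap)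
  let L : Matrix (Fin s) (Fin r) ℂ := LinearMap.toMatrix' (e.toLinearMap ∘ₗ p)
  let B : Matrix (Fin t) (Fin r) ℂ := LinearMap.toMatrix' (e'.toLinearMap ∘ₗ p')
  let R : Matrix (Fin r) (Fin t) ℂ := LinearMap.toMatrix' (W'.subtype ∘ₗ e'.symm.toLinearMap)
  have hA : ∀ v, A *ᵥ v = (e.symm v : Fin r → ℂ) := fun v => by
    simp only [A]
    rw [LinearMap.toMatrix'_mulVec]
    rfl
  have hLv : ∀ v, L *ᵥ v = e (p v) := fun v => by
    simp only [L]
    rw [LinearMap.toMatrix'_mulVec]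
    rfl
  have hB : ∀ v, B *ᵥ v = e' (p' v) := fun v => by
    simp only [B]
    rw [LinearMap.toMatrix'_mulVec]
    rfl
  have hR : ∀ v, R *ᵥ v = (e'.symm v : Fin r → ℂ) := fun v => by
    simp only [R]
    rw [LinearMap.toMatrix'_mulVec]
    rfl
  have hLA : L * A = 1 := by
    apply Matrix.toLin'.injective
    ext1 i
    apply LinearMap.ext
    intro v
    simp only [LinearMap.comp_apply, Matrix.toLin'_apply, Matrix.toLin'_one, LinearMap.id_apply]
    rw [← Matrix.mulVec_mulVec, hA, hLv, hp, e.apply_symm_apply]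
  have hBR : B * R = 1 := by
    apply Matrix.toLin'.injective
    ext1 i
    apply LinearMap.ext
    intro v
    simp only [LinearMap.comp_apply, Matrix.toLin'_apply, Matrix.toLin'_one, LinearMap.id_apply]
    rw [← Matrix.mulVec_mulVec, hR, hB, hp', e'.apply_symm_apply]
  have hstab : ∀ (x : G) (v : Fin r → ℂ), v ∈ W →
      (ρ x : Matrix (Fin r) (Fin r) ℂ) *ᵥ v ∈ W := fun x v hv => hW (ρ x) ⟨x, rfl⟩ v hv
  have h1 : ∀ x, ∃ C : Matrix (Fin s) (Fin s) ℂ,
      (ρ x : Matrix (Fin r) (Fin r) ℂ) * A = A * C := by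
    intro x
    refine ⟨L * (ρ x : Matrix (Fin r) (Fin r) ℂ) * A, ?_⟩
    apply Matrix.toLin'.injective
    apply LinearMap.ext
    intro v
    simp only [Matrix.toLin'_apply, ← Matrix.mulVec_mulVec]
    rw [hA v, hLv, hA]
    have h2 := hstab x _ (e.symm v).2
    rw [show p ((ρ x : Matrix (Fin r) (Fin r) ℂ) *ᵥ (e.symm v : Fin r → ℂ)) =
      ⟨_, h2⟩ from hp ⟨_, h2⟩, e.symm_apply_apply]
  have h2 : ∀ x, ∃ C : Matrix (Fin t) (Fin t) ℂ,
      B * (ρ x : Matrix (Fin r) (Fin r) ℂ) = C * B := by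
    intro x
    refine ⟨B * (ρ x : Matrix (Fin r) (Fin r) ℂ) * R, ?_⟩
    apply Matrix.toLin'.injective
    apply LinearMap.ext
    intro v
    simp only [Matrix.toLin'_apply, ← Matrix.mulVec_mulVec]
    rw [hB v, hR, e'.symm_apply_apply, hB, hB]
    congr 1
    rw [← sub_eq_zero, ← map_sub, ← Matrix.mulVec_sub, hp0]
    apply hstab
    rw [← hp0, map_sub, hp', sub_self]
  obtain ⟨σ, hσ⟩ := exists_sub ρ A L hLA h1
  obtain ⟨τ, hτ⟩ := exists_quo ρ B R hBR h2
  have hARB : A * L + R * B = 1 := by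
    apply Matrix.toLin'.injective
    apply LinearMap.ext
    intro v
    simp only [Matrix.toLin'_apply, Matrix.add_mulVec, ← Matrix.mulVec_mulVec, Matrix.one_mulVec]
    rw [hLv, hA, hB, hR, e.symm_apply_apply, e'.symm_apply_apply]
    exact Submodule.projection_add_projection_eq_self hc v
  refine ⟨s, t, σ, τ, by omega, by omega, Or.inl ⟨A, L, hLA, hσ⟩, Or.inr ⟨B, R, hBR, hτ⟩, ?_⟩
  intro w
  have e1 : (σ w : Matrix (Fin s) (Fin s) ℂ) = L * ((ρ w : Matrix (Fin r) (Fin r) ℂ) * A) := by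
    rw [hσ w, ← Matrix.mul_assoc, hLA, Matrix.one_mul]
  have e2 : (τ w : Matrix (Fin t) (Fin t) ℂ) = B * (ρ w : Matrix (Fin r) (Fin r) ℂ) * R := by
    rw [hτ w, Matrix.mul_assoc, hBR, Matrix.mul_one]
  have e3 : (ρ w : Matrix (Fin r) (Fin r) ℂ) =
      (ρ w : Matrix (Fin r) (Fin r) ℂ) * A * L + (ρ w : Matrix (Fin r) (Fin r) ℂ) * R * B := by
    rw [Matrix.mul_assoc, Matrix.mul_assoc, ← Matrix.mul_add, hARB, Matrix.mul_one]
  conv_lhs => rw [e3]
  rw [Matrix.trace_add, e1, e2, Matrix.trace_mul_comm _ L,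
    Matrix.trace_mul_comm (_ * R) B, Matrix.mul_assoc B]

end Pool.Agent.TRS
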