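import Pool.Agent.TRS.St1

/-!
# TRS: the S-theorem from its parts
-/

set_option autoImplicit false

namespace Pool.Agent.TRS

open Matrix Pool.Agent.HZ Pool.Agent.PRS

theorem TS_of (hA : St_Ann) (hD : St_Dic) (hW : St_Wrd) : St_TS := by
  intro R _ G _ r S ρ a₀ b₀ L₀ c c' z z' h g hg
  obtain ⟨a, b, L, hL, hDT⟩ := hD R G r S ρ a₀ b₀ L₀ c c' z z' h
  rw [← hL.cl_eq] at hg
  exact hW R G r S ρ c c' z z' a b L (hL.rel h.rel) (h.lett a b L hL) hDT
    (fun u v huv => hA R G r S ρ a₀ b₀ L₀ c c' z z' h u v L (hL.trans huv)) g hg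

end Pool.Agent.TRS
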