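import Pool.Agent.TRS.St1

/-!
# Module UNR: the letters of `M` and of `C` stay orthogonal under all words in the handle generators
-/

set_option autoImplicit false

namespace Pool.Agent.TRS

open Matrix Pool.Agent.HZ Pool.Agent.PRS

namespace Unrx

section
variable {R : Type} [CommRing R] {G : Type} [Group G] {r : ℕ}
  {ρ : G →* Matrix (Fin r) (Fin r) R} {c : G → R}

/-- the vanishing for one word -/
def Zr (ρ : G →* Matrix (Fin r) (Fin r) R) (c : G → R) (a b : G) (C M : List G)
    (w : List (Bool × Bool)) : Prop :=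
  ∀ y ∈ M, ∀ x ∈ C, el ρ c y * ρ (gw a b w) * el ρ c x = 0

theorem gw_snoc (a b : G) (v : List (Bool × Bool)) (s : Bool × Bool) :
    gw a b (v ++ [s]) = gw a b v * gl a b s := by
  rw [gw_append, gw_cons, gw_nil, mul_one]

/-- transfer of words from one pair to another -/
theorem trf {a b a' b' y' : G} {n : ℕ}
    (h : ∀ v : List (Bool × Bool), v.length + 1 ≤ n → ∀ l : Bool × Bool, ∃ κ : R,
      el ρ c y' * ρ (gw a' b' v) * ρ (gl a b l) = κ • (el ρ c y' * ρ (gw a' b' v) * ρ (gl a' b' l)))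
    (v : List (Bool × Bool)) (hv : v.length ≤ n) :
    ∃ κ : R, el ρ c y' * ρ (gw a b v) = κ • (el ρ c y' * ρ (gw a' b' v)) := by
  induction v using List.reverseRecOn with
  | nil => exact ⟨1, by rw [gw_nil, gw_nil, one_smul]⟩
  | append_singleton v l ih =>
    rw [List.length_append, List.length_singleton] at hv
    obtain ⟨κ₁, h1⟩ := ih (by omega)
    obtain ⟨κ₂, h2⟩ := h v hv l
    refine ⟨κ₁ * κ₂, ?_⟩
    rw [gw_snoc, gw_snoc, map_mul, map_mul, ← mul_assoc, ← mul_assoc, h1, smul_mul_assoc, h2,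
      smul_smul]

/-- one slide -/
theorem slide (hc : ∀ a b, c (b⁻¹ * a * b) = c a) {a b a' b' : G} {C M C' M' : List G} {n : ℕ}
    (s : Bool × Bool) (hC : ∀ x ∈ C, gl a b s * x * (gl a b s)⁻¹ ∈ C')
    (hM : M'.map (el ρ c) = M.map (el ρ c))
    (hZ : ∀ w : List (Bool × Bool), w.length ≤ n → Zr ρ c a' b' C' M' w)
    (h : ∀ y' ∈ M', ∀ v : List (Bool × Bool), v.length + 1 ≤ n → ∀ l : Bool × Bool, ∃ κ : R,
      el ρ c y' * ρ (gw a' b' v) * ρ (gl a b l) = κ • (el ρ c y' * ρ (gw a' b' v) * ρ (gl a' b' l)))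
    (v : List (Bool × Bool)) (hv : v.length ≤ n) : Zr ρ c a b C M (v ++ [s]) := by
  intro y hy x hx
  have h1 : el ρ c y ∈ M'.map (el ρ c) := by
    rw [hM]
    exact List.mem_map_of_mem hy
  obtain ⟨y', hy', e1⟩ := List.mem_map.1 h1
  have e2 : ρ (gl a b s) * el ρ c x = el ρ c (gl a b s * x * (gl a b s)⁻¹) * ρ (gl a b s) := by
    rw [el_cj hc, mul_assoc, ← map_mul, inv_mul_cancel, map_one, mul_one]
  obtain ⟨κ, h2⟩ := trf (h y' hy') v hv
  rw [gw_snoc, map_mul, ← e1]
  calc el ρ c y' * (ρ (gw a b v) * ρ (gl a b s)) * el ρ c x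
      = el ρ c y' * ρ (gw a b v) * (ρ (gl a b s) * el ρ c x) := by simp only [mul_assoc]
    _ = (el ρ c y' * ρ (gw a b v)) * el ρ c (gl a b s * x * (gl a b s)⁻¹) * ρ (gl a b s) := by
      rw [e2]; simp only [mul_assoc]
    _ = 0 := by
      rw [h2, smul_mul_assoc, hZ v hv y' hy' _ (hC x hx), smul_zero, zero_mul]

end

end Unrx

open Unrx in
theorem thm_Unr (hSld : St_Sld) (hPrp : St_Prp) (hQfx : St_Qfx) : St_Unr := by
  intro R _ G _ r S ρ a₀ b₀ L₀ c c' z z' hS
  have hc := hS.conj
  -- vectors killed by the rank one parts of `C`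
  have hq : ∀ a b C M, Mxc ρ c a₀ b₀ L₀ a b C M → ∃ κ κ' : R,
      ∀ X : Matrix (Fin r) (Fin r) R, (∀ x ∈ C, X * el ρ c x = 0) →
        X * ρ C.prod = κ • X ∧ X * ρ C.prod⁻¹ = κ' • X := by
    intro a b C M h
    obtain ⟨κ, κ', -, h1, -⟩ := hQfx R G r S ρ c c' z z' C fun y hy =>
      hS.lett a b (C ++ M) h.1 y (List.mem_append_left _ hy)
    exact ⟨κ, κ', h1⟩
  have main : ∀ n : ℕ, ∀ a b C M, Mxc ρ c a₀ b₀ L₀ a b C M → ∀ w : List (Bool × Bool),
      w.length ≤ n → Zr ρ c a b C M w := by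
    intro n
    induction n with
    | zero =>
      intro a b C M h w hw y hy x hx
      obtain rfl : w = [] := List.length_eq_zero_iff.1 (by omega)
      rw [gw_nil, map_one, mul_one]
      exact (hPrp R G r S ρ a₀ b₀ L₀ c c' z z' hS a b C M h x hx y hy).2
    | succ n ih =>
      -- words which end in `a`
      have ha : ∀ a b C M, Mxc ρ c a₀ b₀ L₀ a b C M → ∀ v : List (Bool × Bool),
          v.length ≤ n → Zr ρ c a b C M (v ++ [(true, true)]) := by
        intro a b C M h v hv
        obtain ⟨⟨M', hM, hx⟩, -⟩ := hSld R G r S ρ a₀ b₀ L₀ c c' z z' hS a b C M h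
        obtain ⟨κ, κ', hk⟩ := hq _ _ _ _ hx
        have hZ := ih _ _ _ _ hx
        refine slide hc (true, true) (fun x hx => List.mem_map.2 ⟨x, hx, rfl⟩) hM hZ ?_ v hv
        set Q := (C.map fun y => a * y * a⁻¹).prod with hQ
        intro y' hy' v1 hv1 l
        rcases l with ⟨_ | _, _ | _⟩
        · -- b⁻¹
          refine ⟨κ, ?_⟩
          have e := (hk (el ρ c y' * ρ (gw a (b * Q) v1)) fun x hx =>
            hZ v1 (by omega) y' hy' x hx).1
          change el ρ c y' * ρ (gw a (b * Q) v1) * ρ b⁻¹ =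
            κ • (el ρ c y' * ρ (gw a (b * Q) v1) * ρ (b * Q)⁻¹)
          have e1 : b⁻¹ = Q * (b * Q)⁻¹ := by group
          rw [e1, map_mul, ← mul_assoc, e, smul_mul_assoc]
        · -- b
          refine ⟨κ', ?_⟩
          have e := (hk (el ρ c y' * ρ (gw a (b * Q) (v1 ++ [(false, true)]))) fun x hx =>
            hZ (v1 ++ [(false, true)]) (by simpa using hv1) y' hy' x hx).2
          rw [gw_snoc, map_mul, ← mul_assoc] at e
          change el ρ c y' * ρ (gw a (b * Q) v1) * ρ b =
            κ' • (el ρ c y' * ρ (gw a (b * Q) v1) * ρ (b * Q))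
          have e1 : b = b * Q * Q⁻¹ := by group
          conv_lhs => rw [e1, map_mul, ← mul_assoc]
          rw [← e1]
          exact e
        · exact ⟨1, by rw [one_smul]; rfl⟩
        · exact ⟨1, by rw [one_smul]; rfl⟩
      -- words which end in `b`
      have hb : ∀ a b C M, Mxc ρ c a₀ b₀ L₀ a b C M → ∀ v : List (Bool × Bool),
          v.length ≤ n → Zr ρ c a b C M (v ++ [(false, true)]) := by
        intro a b C M h v hv
        obtain ⟨-, -, ⟨M', hM, hx⟩, -⟩ := hSld R G r S ρ a₀ b₀ L₀ c c' z z' hS a b C M h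
        obtain ⟨κ, κ', hk⟩ := hq _ _ _ _ hx
        have hZ := ih _ _ _ _ hx
        refine slide hc (false, true) (fun x hx => List.mem_map.2 ⟨x, hx, rfl⟩) hM hZ ?_ v hv
        set Q := (C.map fun y => b * y * b⁻¹).prod with hQ
        intro y' hy' v1 hv1 l
        rcases l with ⟨_ | _, _ | _⟩
        · exact ⟨1, by rw [one_smul]; rfl⟩
        · exact ⟨1, by rw [one_smul]; rfl⟩
        · -- a⁻¹
          refine ⟨κ', ?_⟩
          have e := (hk (el ρ c y' * ρ (gw (a * Q⁻¹) b v1)) fun x hx =>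
            hZ v1 (by omega) y' hy' x hx).2
          change el ρ c y' * ρ (gw (a * Q⁻¹) b v1) * ρ a⁻¹ =
            κ' • (el ρ c y' * ρ (gw (a * Q⁻¹) b v1) * ρ (a * Q⁻¹)⁻¹)
          have e1 : a⁻¹ = Q⁻¹ * (a * Q⁻¹)⁻¹ := by group
          rw [e1, map_mul, ← mul_assoc, e, smul_mul_assoc]
        · -- a
          refine ⟨κ, ?_⟩
          have e := (hk (el ρ c y' * ρ (gw (a * Q⁻¹) b (v1 ++ [(true, true)]))) fun x hx =>
            hZ (v1 ++ [(true, true)]) (by simpa using hv1) y' hy' x hx).1
          rw [gw_snoc, map_mul, ← mul_assoc] at e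
          change el ρ c y' * ρ (gw (a * Q⁻¹) b v1) * ρ a =
            κ • (el ρ c y' * ρ (gw (a * Q⁻¹) b v1) * ρ (a * Q⁻¹))
          have e1 : a = a * Q⁻¹ * Q := by group
          conv_lhs => rw [e1, map_mul, ← mul_assoc]
          rw [← e1]
          exact e
      -- words which end in `a⁻¹`
      have ha' : ∀ a b C M, Mxc ρ c a₀ b₀ L₀ a b C M → ∀ v : List (Bool × Bool),
          v.length ≤ n → Zr ρ c a b C M (v ++ [(true, false)]) := by
        intro a b C M h v hv
        obtain ⟨-, ⟨M', hM, hx⟩, -, -⟩ := hSld R G r S ρ a₀ b₀ L₀ c c' z z' hS a b C M h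
        obtain ⟨κ, κ', hk⟩ := hq _ _ _ _ hx
        have hZ := ih _ _ _ _ hx
        have hZa := ha _ _ _ _ hx
        refine slide hc (true, false) (fun x hx => List.mem_map.2 ⟨x, hx, ?_⟩) hM hZ ?_ v hv
        · change a⁻¹ * x * a = a⁻¹ * x * (a⁻¹)⁻¹
          rw [inv_inv]
        set Q := (C.map fun y => a⁻¹ * y * a).prod with hQ
        have hP : C.prod = a * Q * a⁻¹ := by
          have h1 : Q = a⁻¹ * C.prod * a := by
            rw [hQ]
            clear_value Q
            clear hQ hk hZ hZa hx hM h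
            induction C with
            | nil => simp
            | cons y C ihC =>
              rw [List.map_cons, List.prod_cons, List.prod_cons, ihC]
              group
          rw [h1]
          group
        intro y' hy' v1 hv1 l
        rcases l with ⟨_ | _, _ | _⟩
        · -- b⁻¹
          refine ⟨κ', ?_⟩
          have e := (hk (el ρ c y' * ρ (gw a (b * C.prod⁻¹) (v1 ++ [(true, true)]))) fun x hx =>
            hZ (v1 ++ [(true, true)]) (by simpa using hv1) y' hy' x hx).2
          rw [gw_snoc, map_mul, ← mul_assoc] at e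
          change el ρ c y' * ρ (gw a (b * C.prod⁻¹) v1) * ρ b⁻¹ =
            κ' • (el ρ c y' * ρ (gw a (b * C.prod⁻¹) v1) * ρ (b * C.prod⁻¹)⁻¹)
          change el ρ c y' * ρ (gw a (b * C.prod⁻¹) v1) * ρ a * ρ Q⁻¹ =
            κ' • (el ρ c y' * ρ (gw a (b * C.prod⁻¹) v1) * ρ a) at e
          have e1 : b⁻¹ = a * Q⁻¹ * (a⁻¹ * (b * C.prod⁻¹)⁻¹) := by
            rw [hP]; group
          have e2 : (b * C.prod⁻¹)⁻¹ = a * (a⁻¹ * (b * C.prod⁻¹)⁻¹) := by group
          conv_lhs => rw [e1, map_mul, map_mul, ← mul_assoc, ← mul_assoc, e, smul_mul_assoc]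
          conv_rhs => rw [e2, map_mul, ← mul_assoc]
        · -- b
          refine ⟨κ, ?_⟩
          have e := (hk (el ρ c y' * ρ (gw a (b * C.prod⁻¹) ((v1 ++ [(false, true)]) ++ [(true, true)])))
            fun x hx => hZa (v1 ++ [(false, true)]) (by simpa using hv1) y' hy' x hx).1
          rw [gw_snoc, gw_snoc, map_mul, map_mul, ← mul_assoc, ← mul_assoc] at e
          change el ρ c y' * ρ (gw a (b * C.prod⁻¹) v1) * ρ b =
            κ • (el ρ c y' * ρ (gw a (b * C.prod⁻¹) v1) * ρ (b * C.prod⁻¹))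
          change el ρ c y' * ρ (gw a (b * C.prod⁻¹) v1) * ρ (b * C.prod⁻¹) * ρ a * ρ Q =
            κ • (el ρ c y' * ρ (gw a (b * C.prod⁻¹) v1) * ρ (b * C.prod⁻¹) * ρ a) at e
          have e1 : b = b * C.prod⁻¹ * a * Q * a⁻¹ := by
            rw [hP]; group
          have e2 : ρ a * ρ a⁻¹ = 1 := by rw [← map_mul, mul_inv_cancel, map_one]
          have e3 : ρ b = ρ (b * C.prod⁻¹) * ρ a * ρ Q * ρ a⁻¹ := by
            rw [← map_mul, ← map_mul, ← map_mul]
            exact congrArg ρ e1
          generalize el ρ c y' * ρ (gw a (b * C.prod⁻¹) v1) = Z at e ⊢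
          rw [e3, ← mul_assoc, ← mul_assoc, ← mul_assoc, e, smul_mul_assoc,
            mul_assoc _ (ρ a), e2, mul_one]
        · exact ⟨1, by rw [one_smul]; rfl⟩
        · exact ⟨1, by rw [one_smul]; rfl⟩
      -- words which end in `b⁻¹`
      have hb' : ∀ a b C M, Mxc ρ c a₀ b₀ L₀ a b C M → ∀ v : List (Bool × Bool),
          v.length ≤ n → Zr ρ c a b C M (v ++ [(false, false)]) := by
        intro a b C M h v hv
        obtain ⟨-, -, -, ⟨M', hM, hx⟩⟩ := hSld R G r S ρ a₀ b₀ L₀ c c' z z' hS a b C M h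
        obtain ⟨κ, κ', hk⟩ := hq _ _ _ _ hx
        have hZ := ih _ _ _ _ hx
        have hZb := hb _ _ _ _ hx
        refine slide hc (false, false) (fun x hx => List.mem_map.2 ⟨x, hx, ?_⟩) hM hZ ?_ v hv
        · change b⁻¹ * x * b = b⁻¹ * x * (b⁻¹)⁻¹
          rw [inv_inv]
        set Q := (C.map fun y => b⁻¹ * y * b).prod with hQ
        have hP : C.prod = b * Q * b⁻¹ := by
          have h1 : Q = b⁻¹ * C.prod * b := by
            rw [hQ]
            clear_value Q
            clear hQ hk hZ hZb hx hM h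
            induction C with
            | nil => simp
            | cons y C ihC =>
              rw [List.map_cons, List.prod_cons, List.prod_cons, ihC]
              group
          rw [h1]
          group
        intro y' hy' v1 hv1 l
        rcases l with ⟨_ | _, _ | _⟩
        · exact ⟨1, by rw [one_smul]; rfl⟩
        · exact ⟨1, by rw [one_smul]; rfl⟩
        · -- a⁻¹
          refine ⟨κ, ?_⟩
          have e := (hk (el ρ c y' * ρ (gw (a * C.prod) b (v1 ++ [(false, true)]))) fun x hx =>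
            hZ (v1 ++ [(false, true)]) (by simpa using hv1) y' hy' x hx).1
          rw [gw_snoc, map_mul, ← mul_assoc] at e
          change el ρ c y' * ρ (gw (a * C.prod) b v1) * ρ a⁻¹ =
            κ • (el ρ c y' * ρ (gw (a * C.prod) b v1) * ρ (a * C.prod)⁻¹)
          change el ρ c y' * ρ (gw (a * C.prod) b v1) * ρ b * ρ Q =
            κ • (el ρ c y' * ρ (gw (a * C.prod) b v1) * ρ b) at e
          have e1 : a⁻¹ = b * Q * (b⁻¹ * (a * C.prod)⁻¹) := by
            rw [hP]; group
          have e2 : (a * C.prod)⁻¹ = b * (b⁻¹ * (a * C.prod)⁻¹) := by group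
          conv_lhs => rw [e1, map_mul, map_mul, ← mul_assoc, ← mul_assoc, e, smul_mul_assoc]
          conv_rhs => rw [e2, map_mul, ← mul_assoc]
        · -- a
          refine ⟨κ', ?_⟩
          have e := (hk (el ρ c y' * ρ (gw (a * C.prod) b ((v1 ++ [(true, true)]) ++ [(false, true)])))
            fun x hx => hZb (v1 ++ [(true, true)]) (by simpa using hv1) y' hy' x hx).2
          rw [gw_snoc, gw_snoc, map_mul, map_mul, ← mul_assoc, ← mul_assoc] at e
          change el ρ c y' * ρ (gw (a * C.prod) b v1) * ρ a =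
            κ' • (el ρ c y' * ρ (gw (a * C.prod) b v1) * ρ (a * C.prod))
          change el ρ c y' * ρ (gw (a * C.prod) b v1) * ρ (a * C.prod) * ρ b * ρ Q⁻¹ =
            κ' • (el ρ c y' * ρ (gw (a * C.prod) b v1) * ρ (a * C.prod) * ρ b) at e
          have e1 : a = a * C.prod * b * Q⁻¹ * b⁻¹ := by
            rw [hP]; group
          have e2 : ρ b * ρ b⁻¹ = 1 := by rw [← map_mul, mul_inv_cancel, map_one]
          have e3 : ρ a = ρ (a * C.prod) * ρ b * ρ Q⁻¹ * ρ b⁻¹ := by
            rw [← map_mul, ← map_mul, ← map_mul]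
            exact congrArg ρ e1
          generalize el ρ c y' * ρ (gw (a * C.prod) b v1) = Z at e ⊢
          rw [e3, ← mul_assoc, ← mul_assoc, ← mul_assoc, e, smul_mul_assoc,
            mul_assoc _ (ρ b), e2, mul_one]
      intro a b C M h w hw
      rcases List.eq_nil_or_concat w with rfl | ⟨v, s, rfl⟩
      · exact ih a b C M h [] (by simp)
      · rw [List.concat_eq_append] at hw ⊢
        rw [List.length_append, List.length_singleton] at hw
        rcases s with ⟨_ | _, _ | _⟩
        · exact hb' a b C M h v (by omega)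
        · exact hb a b C M h v (by omega)
        · exact ha' a b C M h v (by omega)
        · exact ha a b C M h v (by omega)
  intro a b C M h w y hy x hx
  exact main w.length a b C M h w le_rfl y hy x hx

end Pool.Agent.TRS
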