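import Pool.Agent.TRS.Irc
import Pool.Agent.TRS.Pan

/-!
# Systems of pseudo-reflections on punctured tori: finitely many characters

Helper20, for MP_0707f5_ag.  For a given rank, number of punctures and exponent `M` there are only
finitely many characters of representations of the fundamental group of the punctured torus such
that the loops around the punctures are multiples of pseudo-reflections, the eigenvalues of the
simple loops are `M`-th roots of unity and the images of the discs with two punctures are finite.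
-/

set_option autoImplicit false

namespace Pool.Agent.TRS

open Matrix Pool.Agent.HZ Pool.Agent.PRS

/-- the hypotheses with the exponent `M` -/
structure TQ (n r M : ℕ) (ρ : F n →* GL (Fin r) ℂ) : Prop where
  pr : ∀ y ∈ tX n, PR (ρ y)
  qa : ∀ φ ∈ MC n, ∀ x : ℂ,
    (ρ (φ (FreeGroup.of 0)) : Matrix (Fin r) (Fin r) ℂ).charpoly.IsRoot x → x ^ M = 1
  qb : ∀ φ ∈ MC n, ∀ N T, tX n = N ++ T → ∀ x : ℂ,
    (ρ (φ N.prod) : Matrix (Fin r) (Fin r) ℂ).charpoly.IsRoot x → x ^ M = 1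
  fp : ∀ φ ∈ MC n, ∀ y y' T, tX n = y :: y' :: T →
    (ρ '' (Subgroup.closure {φ y, φ y'} : Subgroup (F n))).Finite

section
variable {n r M : ℕ} {ρ : F n →* GL (Fin r) ℂ}

theorem TQ.ra (h : TQ n r M ρ) (hA : St_Aut) {a b : F n} {N T : List (F n)}
    (hT : TF n a b (N ++ T)) : ∀ x : ℂ,
    (ρ (a * N.prod) : Matrix (Fin r) (Fin r) ℂ).charpoly.IsRoot x → x ^ M = 1 := by
  have h1 : TF n (a * N.prod) b (T ++ N.map fun y => b⁻¹ * y * b) := TR.blockS4 hT
  obtain ⟨ψ, hψ, h2, -, -⟩ := hA n _ _ _ h1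
  have h3 := h.qa ψ hψ
  rwa [h2] at h3

theorem TQ.rb (h : TQ n r M ρ) (hA : St_Aut) {a b : F n} {N T : List (F n)}
    (hT : TF n a b (N ++ T)) : ∀ x : ℂ,
    (ρ N.prod : Matrix (Fin r) (Fin r) ℂ).charpoly.IsRoot x → x ^ M = 1 := by
  obtain ⟨ψ, hψ, -, -, h2⟩ := hA n _ _ _ hT
  rw [List.map_eq_append_iff] at h2
  obtain ⟨l₁, l₂, h3, h4, -⟩ := h2
  have h5 := h.qb ψ hψ l₁ l₂ h3
  rwa [map_list_prod ψ, h4] at h5

theorem TQ.rp (h : TQ n r M ρ) {a b : F n} {L : List (F n)} (hT : TF n a b L) :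
    ∀ y ∈ L, PR (ρ y) := by
  intro y hy
  obtain ⟨x, hx, g, rfl⟩ := hT.conj y hy
  rw [map_mul, map_mul, map_inv]
  exact (h.pr x hx).conj _

theorem TQ.rf (h : TQ n r M ρ) (hA : St_Aut) {a b y y' : F n} {N : List (F n)}
    (hT : TF n a b (y :: y' :: N)) :
    Finite (Subgroup.closure {ρ y, ρ y'} : Subgroup (GL (Fin r) ℂ)) := by
  obtain ⟨ψ, hψ, -, -, h2⟩ := hA n _ _ _ hT
  rw [List.map_eq_cons_iff] at h2
  obtain ⟨y₀, l₁, h3, h4, h5⟩ := h2
  rw [List.map_eq_cons_iff] at h5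
  obtain ⟨y₀', l₂, h6, h7, -⟩ := h5
  have h9 := h.fp ψ hψ y₀ y₀' l₂ (by rw [h3, h6])
  rw [h4, h7] at h9
  exact finite_closure ρ _ _ h9

end

/-- the irreducible case -/
theorem Unf_irr (hTS : St_TS) (hA : St_Aut) (hB : St_Ball) (hG : St_Ger) (n r M : ℕ) (hM : 0 < M)
    (w : F n) : {t : ℂ | ∃ ρ : F n →* GL (Fin r) ℂ, Irr ρ.range ∧ TQ n r M ρ ∧
      t = (ρ w : Matrix (Fin r) (Fin r) ℂ).trace}.Finite := by
  obtain ⟨lam, hlam, hlam'⟩ := thm_LAM
  let Ω : Type := {ρ : F n →* GL (Fin r) ℂ // Irr ρ.range ∧ TQ n r M ρ}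
  let fam : Ω → F n →* GL (Fin r) ℂ := fun ρ => ρ.1
  suffices hfin : (Set.range fun ρ : Ω => (fam ρ w : Matrix (Fin r) (Fin r) ℂ).trace).Finite by
    refine hfin.subset ?_
    rintro _ ⟨ρ, h1, h2, rfl⟩
    exact ⟨⟨ρ, h1, h2⟩, rfl⟩
  apply thm_Ult
  intro U
  obtain ⟨g1, g2, g3, g4, g5, g6, g7, g8, g9, g10, g11, g12⟩ := hG Ω U r
  have hroots : {x : ℂ | x ^ M = 1}.Finite := by
    classical
    refine ((Polynomial.nthRoots M (1 : ℂ)).toFinset.finite_toSet).subset ?_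
    intro z hz
    rw [Finset.mem_coe, Multiset.mem_toFinset, Polynomial.mem_nthRoots hM]
    exact hz
  have hmem : ∀ (f : Ω → ℂ) (Z : Set ℂ), Z.Finite → (∀ x, f x ∈ Z) → gm U f ∈ gS U := by
    intro f Z hZ hf
    rw [g8]
    exact thm_Ufn _ U f (hZ.subset (by rintro _ ⟨x, rfl⟩; exact hf x))
  -- the rank one parts
  obtain ⟨ep, hep⟩ : ∃ ep : F n → Ω → Matrix (Fin r) (Fin r) ℂ, ∀ y ρ, ep y ρ =
      (lam r (fam ρ y))⁻¹ • (fam ρ y : Matrix (Fin r) (Fin r) ℂ) - 1 := ⟨_, fun _ _ => rfl⟩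
  let c : F n → GR U := fun y => gm U fun ρ => (lam r (fam ρ y))⁻¹
  let c' : F n → GR U := fun y => gm U fun ρ => lam r (fam ρ y)
  let z : F n → GR U := fun y => gm U fun ρ => 1 + (ep y ρ).trace
  let z' : F n → GR U := fun y => gm U fun ρ => (1 + (ep y ρ).trace)⁻¹
  have hel : ∀ y, el (gR U fam) c y = gA U (ep y) := by
    intro y
    show c y • gR U fam y - 1 = gA U (ep y)
    rw [g9, g4, ← g3, g2]
    congr 1
    funext φ
    exact (hep y φ).symm
  have hzero : gA U (fun _ : Ω => (0 : Matrix (Fin r) (Fin r) ℂ)) = 0 := by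
    ext i j
    show gm U (fun _ => 0) = 0
    exact map_zero (gm U)
  -- pointwise properties of the letters
  have hroot : ∀ a b L, TF n a b L → ∀ y ∈ L, ∀ ρ : Ω,
      PR (fam ρ y) ∧ ∀ x : ℂ, (fam ρ y : Matrix (Fin r) (Fin r) ℂ).charpoly.IsRoot x →
        x ^ M = 1 := by
    intro a b L h y hy ρ
    refine ⟨ρ.2.2.rp h y hy, ?_⟩
    obtain ⟨B, hB'⟩ := Pre.sublist (List.singleton_sublist.2 hy)
    have h1 := ρ.2.2.rb hA (N := [y]) (TR.reach h hB')
    rw [List.prod_singleton] at h1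
    exact h1
  have hlet : ∀ a b L, TF n a b L → ∀ y ∈ L, ∀ ρ : Ω,
      lam r (fam ρ y) ≠ 0 ∧ 1 + (ep y ρ).trace ≠ 0 ∧ RO (ep y ρ) ∧
        (lam r (fam ρ y)) ^ M = 1 ∧ (1 + (ep y ρ).trace) ^ M = 1 := by
    intro a b L h y hy ρ
    obtain ⟨h1, h2⟩ := hroot a b L h y hy ρ
    obtain ⟨h3, h4, h5, h6⟩ := hlam' r (fam ρ y) h1
    rw [hep]
    exact ⟨h3, h4, h5, (h6 M h2).1, (h6 M h2).2⟩
  have hsys : SysT (gS U) (gR U fam) (FreeGroup.of 0) (FreeGroup.of 1) (tX n) c c' z z' :=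
    { rel := Irc_rel n
      conj := fun a b => by
        show (gm U fun ρ => (lam r (fam ρ (b⁻¹ * a * b)))⁻¹) = gm U fun ρ => (lam r (fam ρ a))⁻¹
        congr 1
        funext φ
        rw [map_mul, map_mul, map_inv, hlam]
      lett := fun a b L h y hy => by
        have key := hlet a b L h y hy
        refine ⟨⟨?_, ?_, ?_, ?_⟩, ⟨?_, ?_⟩, ?_, ?_⟩
        · refine hmem _ _ hroots fun φ => ?_
          show ((lam r (fam φ y))⁻¹) ^ M = 1
          rw [inv_pow, (key φ).2.2.2.1, inv_one]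
        · exact hmem _ _ hroots fun φ => (key φ).2.2.2.1
        · exact hmem _ _ hroots fun φ => (key φ).2.2.2.2
        · refine hmem _ _ hroots fun φ => ?_
          show ((1 + (ep y φ).trace)⁻¹) ^ M = 1
          rw [inv_pow, (key φ).2.2.2.2, inv_one]
        · show gm U _ * gm U _ = 1
          rw [← map_mul, ← map_one (gm U)]
          congr 1
          funext φ
          exact inv_mul_cancel₀ (key φ).1
        · show gm U _ * gm U _ = 1
          rw [← map_mul, ← map_one (gm U)]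
          congr 1
          funext φ
          exact mul_inv_cancel₀ (key φ).2.1
        · show _ = gm U _ - 1
          rw [hel, g5, ← map_one (gm U), ← map_sub]
          congr 1
          funext φ
          exact (add_sub_cancel_left _ _).symm
        · intro X
          obtain ⟨A, rfl⟩ := g10 X
          rw [hel, g1, g1, g5, g4]
          congr 1
          funext φ
          exact (key φ).2.2.1 _
      loops := fun a b N T h => by
        have hft := finite_traces_of_roots r {x : ℂ | x ^ M = 1} hroots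
        constructor
        · intro k
          rw [g9, g5]
          refine hmem _ _ hft fun φ => ?_
          refine ⟨_, fun x hx => ?_, rfl⟩
          have h1 := φ.2.2.ra hA (N := []) (T := N ++ T) h
          rw [List.prod_nil, mul_one] at h1
          rw [map_zpow] at hx
          exact gax_zpow _ M h1 k x hx
        · rw [g9, g5]
          refine hmem _ _ hft fun φ => ?_
          exact ⟨_, fun x hx => φ.2.2.rb hA h x hx, rfl⟩
      fld := g11
      nat := g12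
      par := fun a b y y' L h h0 => by
        rw [hel, hel] at h0 ⊢
        rw [g1, g5, ← map_zero (gm U), g7] at h0
        rw [g1, g1, ← hzero, g6, g6]
        have key : ∀ᶠ φ in (U : Filter Ω), ep y φ * ep y' φ = 0 ∧ ep y' φ * ep y φ = 0 := by
          refine h0.mono fun φ h1 => ?_
          have k1 := hlet a b _ h y (by simp) φ
          have k2 := hlet a b _ h y' (by simp) φ
          have h2 := φ.2.2.rf hA h
          have h3 := k1.2.2.1
          have h4 := k2.2.2.1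
          have h5 : (ep y φ * ep y' φ).trace = 0 := h1
          rw [hep] at h3 h4
          rw [hep, hep] at h5 ⊢
          exact thm_Par r (fam φ y) (fam φ y') _ _ k1.1 k2.1 h3 h4 h2 h5
        exact ⟨key.mono fun φ h => h.1, key.mono fun φ h => h.2⟩
      irr := fun a b L h y hy y' hy' h1 h2 => by
        rw [hel, ← hzero, Ne, g6] at h1 h2
        rw [← Ultrafilter.eventually_not] at h1 h2
        obtain ⟨B, hBf, hB'⟩ := hB (n + 2) r
        have h3 : ∀ᶠ φ in (U : Filter Ω), ∃ w ∈ B,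
            ep y φ * (fam φ w : Matrix (Fin r) (Fin r) ℂ) * ep y' φ ≠ 0 := by
          filter_upwards [h1, h2] with φ k1 k2
          exact hB' (fam φ) φ.2.1 _ _ k1 k2
        obtain ⟨v, -, hv⟩ := (Ultrafilter.eventually_exists_mem_iff hBf).1 h3
        refine ⟨v, ?_, ?_⟩
        · rw [TR.cl_eq h, Irc_top]
          exact Subgroup.mem_top v
        · rw [hel, hel, g9, g1, g1, ← hzero, Ne, g6, ← Ultrafilter.eventually_not]
          exact hv }
  have h1 := hTS (GR U) (F n) r (gS U) (gR U fam) (FreeGroup.of 0) (FreeGroup.of 1) (tX n)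
    c c' z z' hsys w (by rw [Irc_top]; exact Subgroup.mem_top w)
  rw [g9, g5, g8] at h1
  exact h1

/-- eigenvalues of subrepresentations and quotients -/
theorem root_sub {G : Type} [Group G] {r s : ℕ} {ρ : G →* GL (Fin r) ℂ} {σ : G →* GL (Fin s) ℂ}
    (h : Sub ρ σ) {w : G} {x : ℂ} (hx : (σ w : Matrix (Fin s) (Fin s) ℂ).charpoly.IsRoot x) :
    (ρ w : Matrix (Fin r) (Fin r) ℂ).charpoly.IsRoot x := by
  rcases h with ⟨A, L, hLA, h⟩ | ⟨B, R, hBR, h⟩
  · obtain ⟨v, hv, hxv⟩ := exists_eigvec _ x hx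
    refine root_of_eigvec _ x (A *ᵥ v) ?_ ?_
    · intro h0
      apply hv
      have h1 := congrArg (L *ᵥ ·) h0
      simpa [Matrix.mulVec_mulVec, hLA] using h1
    · rw [Matrix.mulVec_mulVec, h w, ← Matrix.mulVec_mulVec, hxv, Matrix.mulVec_smul]
  · rw [← Matrix.charpoly_transpose] at hx ⊢
    obtain ⟨v, hv, hxv⟩ := exists_eigvec _ x hx
    refine root_of_eigvec _ x (Bᵀ *ᵥ v) ?_ ?_
    · intro h0
      apply hv
      have h1 := congrArg (Rᵀ *ᵥ ·) h0
      rw [Matrix.mulVec_mulVec, ← Matrix.transpose_mul, hBR] at h1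
      simpa using h1
    · rw [Matrix.mulVec_mulVec, ← Matrix.transpose_mul, h w, Matrix.transpose_mul,
        ← Matrix.mulVec_mulVec, hxv, Matrix.mulVec_smul]

theorem TQ.sub {n r s M : ℕ} {ρ : F n →* GL (Fin r) ℂ} {σ : F n →* GL (Fin s) ℂ}
    (h : TQ n r M ρ) (hs : Sub ρ σ) : TQ n s M σ where
  pr := fun y hy => PR_sub hs (h.pr y hy)
  qa := fun φ hφ x hx => h.qa φ hφ x (root_sub hs hx)
  qb := fun φ hφ N T hT x hx => h.qb φ hφ N T hT x (root_sub hs hx)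
  fp := fun φ hφ y y' T hT => finite_sub hs (h.fp φ hφ y y' T hT)

/-- one word -/
theorem Unf_word (hI : ∀ (n r M : ℕ), 0 < M → ∀ w : F n,
    {t : ℂ | ∃ ρ : F n →* GL (Fin r) ℂ, Irr ρ.range ∧ TQ n r M ρ ∧
      t = (ρ w : Matrix (Fin r) (Fin r) ℂ).trace}.Finite) (hS : St_Sps) (n M : ℕ) (hM : 0 < M)
    (w : F n) : ∀ r : ℕ, {t : ℂ | ∃ ρ : F n →* GL (Fin r) ℂ, TQ n r M ρ ∧
      t = (ρ w : Matrix (Fin r) (Fin r) ℂ).trace}.Finite := by
  intro r
  induction r using Nat.strong_induction_on with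
  | _ r ih =>
    rcases Nat.eq_zero_or_pos r with rfl | hr
    · refine (Set.finite_singleton (0 : ℂ)).subset ?_
      rintro _ ⟨ρ, -, rfl⟩
      simp [Matrix.trace]
    have h1 : (⋃ s ∈ Set.Iio r, ⋃ t ∈ Set.Iio r, Set.image2 (fun x y : ℂ => x + y)
        {u : ℂ | ∃ ρ : F n →* GL (Fin s) ℂ, TQ n s M ρ ∧
          u = (ρ w : Matrix (Fin s) (Fin s) ℂ).trace}
        {u : ℂ | ∃ ρ : F n →* GL (Fin t) ℂ, TQ n t M ρ ∧
          u = (ρ w : Matrix (Fin t) (Fin t) ℂ).trace}).Finite :=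
      Set.Finite.biUnion (Set.finite_Iio r) fun s hs =>
        Set.Finite.biUnion (Set.finite_Iio r) fun t ht => Set.Finite.image2 _ (ih s hs) (ih t ht)
    refine ((hI n r M hM w).union h1).subset ?_
    rintro _ ⟨ρ, hρ, rfl⟩
    by_cases hirr : Irr ρ.range
    · exact Or.inl ⟨ρ, hirr, hρ, rfl⟩
    right
    obtain ⟨s, t, σ, τ, hs, ht, hσ, hτ, htr⟩ := hS (F n) r ρ hr hirr
    simp only [Set.mem_iUnion]
    exact ⟨s, hs, t, ht, _, ⟨σ, hρ.sub hσ, rfl⟩, _, ⟨τ, hρ.sub hτ, rfl⟩, (htr w).symm⟩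

/-- finitely many characters -/
theorem Unf_char (hI : ∀ (n r M : ℕ), 0 < M → ∀ w : F n,
    {t : ℂ | ∃ ρ : F n →* GL (Fin r) ℂ, Irr ρ.range ∧ TQ n r M ρ ∧
      t = (ρ w : Matrix (Fin r) (Fin r) ℂ).trace}.Finite) (hS : St_Sps) (n r M : ℕ) (hM : 0 < M) :
    {χ : F n → ℂ | ∃ ρ : F n →* GL (Fin r) ℂ, TQ n r M ρ ∧
      χ = fun w => (ρ w : Matrix (Fin r) (Fin r) ℂ).trace}.Finite := by
  have hfin := fun w => Unf_word hI hS n M hM w r
  obtain ⟨s, hs⟩ := exists_words r (n + 2)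
  have hpi : (Set.univ.pi fun x : s => {t : ℂ | ∃ ρ : F n →* GL (Fin r) ℂ, TQ n r M ρ ∧
      t = (ρ x : Matrix (Fin r) (Fin r) ℂ).trace}).Finite :=
    Set.Finite.pi fun x => hfin x
  refine Set.Finite.of_finite_image (f := fun (χ : F n → ℂ) (x : s) => χ x)
    (hpi.subset ?_) ?_
  · rintro _ ⟨_, ⟨ρ, hρ, rfl⟩, rfl⟩ x _
    exact ⟨ρ, hρ, rfl⟩
  · rintro _ ⟨ρ, hρ, rfl⟩ _ ⟨ρ', hρ', rfl⟩ h1
    funext x
    exact hs ρ ρ' (fun y hy => congrFun h1 ⟨y, hy⟩) x

theorem TQ.comp {n r M : ℕ} {ρ : F n →* GL (Fin r) ℂ} (h : TQ n r M ρ) {φ : MulAut (F n)}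
    (hφ : φ ∈ MC n) : TQ n r M (ρ.comp φ.toMonoidHom) where
  pr := fun y hy => by
    obtain ⟨y', hy', h1⟩ := hφ y hy
    obtain ⟨g, hg⟩ := isConj_iff.1 h1
    have h2 : φ y = g⁻¹ * y' * g := by
      rw [← hg]
      group
    show PR (ρ (φ y))
    rw [h2, map_mul, map_mul, map_inv]
    exact (h.pr y' hy').conj _
  qa := fun ψ hψ x hx => h.qa (φ * ψ) (Pan_mul hφ hψ) x hx
  qb := fun ψ hψ N T hT x hx => h.qb (φ * ψ) (Pan_mul hφ hψ) N T hT x hx
  fp := fun ψ hψ y y' T hT => by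
    have h1 := h.fp (φ * ψ) (Pan_mul hφ hψ) y y' T hT
    refine h1.subset ?_
    rintro _ ⟨w, hw, rfl⟩
    refine ⟨φ w, ?_, rfl⟩
    have h2 : (Subgroup.closure {(φ * ψ) y, (φ * ψ) y'} : Subgroup (F n)) =
        (Subgroup.closure {ψ y, ψ y'}).map φ.toMonoidHom := by
      rw [MonoidHom.map_closure, Set.image_pair]
      rfl
    rw [h2]
    exact ⟨w, hw, rfl⟩

theorem TQ.gal {n r M : ℕ} {ρ : F n →* GL (Fin r) ℂ} (h : TQ n r M ρ) (σ : RingAut ℂ) :
    TQ n r M (gal σ ρ) := by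
  have key : ∀ (w : F n) (x : ℂ), (PRS.gal σ ρ w : Matrix (Fin r) (Fin r) ℂ).charpoly.IsRoot x →
      (∀ x : ℂ, (ρ w : Matrix (Fin r) (Fin r) ℂ).charpoly.IsRoot x → x ^ M = 1) → x ^ M = 1 := by
    intro w x hx h1
    have h2 : (PRS.gal σ ρ w : Matrix (Fin r) (Fin r) ℂ).charpoly =
        (ρ w : Matrix (Fin r) (Fin r) ℂ).charpoly.map (σ : ℂ →+* ℂ) := by
      rw [gal_coe]
      exact Matrix.charpoly_map _ (σ : ℂ →+* ℂ)
    rw [h2] at hx
    have h3 : (ρ w : Matrix (Fin r) (Fin r) ℂ).charpoly.IsRoot (σ.symm x) := by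
      rw [Polynomial.IsRoot.def, Polynomial.eval_map, ← σ.apply_symm_apply x] at hx
      have h4 : σ ((ρ w : Matrix (Fin r) (Fin r) ℂ).charpoly.eval (σ.symm x)) = 0 := by
        have h5 := Polynomial.hom_eval₂ (ρ w : Matrix (Fin r) (Fin r) ℂ).charpoly
          (RingHom.id ℂ) (σ : ℂ →+* ℂ) (σ.symm x)
        rw [RingHom.comp_id] at h5
        exact h5.trans hx
      exact (map_eq_zero_iff σ σ.injective).1 h4
    have h4 := h1 _ h3
    have h5 := congrArg σ h4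
    rwa [map_pow, σ.apply_symm_apply, map_one] at h5
  refine ⟨fun y hy => gal_PR σ ρ y (h.pr y hy), fun φ hφ x hx => key _ x hx (h.qa φ hφ),
    fun φ hφ N T hT x hx => key _ x hx (h.qb φ hφ N T hT), fun φ hφ y y' T hT => ?_⟩
  have h1 := (h.fp φ hφ y y' T hT).image (GeneralLinearGroup.map (n := Fin r) (σ : ℂ →+* ℂ))
  rw [← Set.image_comp] at h1
  exact h1

/-- the orbit of the character under the mapping classes and the automorphisms of `ℂ` -/
theorem Unf_orb (hI : ∀ (n r M : ℕ), 0 < M → ∀ w : F n,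
    {t : ℂ | ∃ ρ : F n →* GL (Fin r) ℂ, Irr ρ.range ∧ TQ n r M ρ ∧
      t = (ρ w : Matrix (Fin r) (Fin r) ℂ).trace}.Finite) (hS : St_Sps) (n r : ℕ)
    (ρ : F n →* GL (Fin r) ℂ) (h1 : ∀ y ∈ tX n, PR (ρ y))
    (h2 : ∀ φ ∈ MC n, Quasi (ρ (φ (FreeGroup.of 0))))
    (h3 : ∀ φ ∈ MC n, ∀ N T, tX n = N ++ T → Quasi (ρ (φ N.prod)))
    (h4 : ∀ φ ∈ MC n, ∀ y y' T, tX n = y :: y' :: T →
      (ρ '' (Subgroup.closure {φ y, φ y'} : Subgroup (F n))).Finite) :
    {χ : F n → ℂ | ∃ φ ∈ MC n, ∃ σ : RingAut ℂ,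
      χ = fun w => σ (ρ (φ w) : Matrix (Fin r) (Fin r) ℂ).trace}.Finite := by
  obtain ⟨M, hM, hexp⟩ := exists_exponent ρ.range (range_fg ρ)
  have hT : TQ n r M ρ :=
    { pr := h1
      qa := fun φ hφ x hx => hexp _ ⟨_, rfl⟩ x hx (h2 φ hφ x hx)
      qb := fun φ hφ N T hT x hx => hexp _ ⟨_, rfl⟩ x hx (h3 φ hφ N T hT x hx)
      fp := h4 }
  refine (Unf_char hI hS n r M hM).subset ?_
  rintro _ ⟨φ, hφ, σ, rfl⟩
  refine ⟨_, (hT.comp hφ).gal σ, ?_⟩
  funext w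
  exact (gal_trace σ (ρ.comp φ.toMonoidHom) w).symm

end Pool.Agent.TRS
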