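import Pool.Agent.TRS.St1

/-!
# TRS, module ZER: the letters outside of a maximal connected beginning are scalars
-/

set_option autoImplicit false

namespace Pool.Agent.TRS

open Matrix Pool.Agent.HZ Pool.Agent.PRS

section zer
variable {R : Type} [CommRing R] {G : Type} [Group G] {r : ℕ} {S : Subring R}
  {ρ : G →* Matrix (Fin r) (Fin r) R} {c c' z z' : G → R}

private theorem ZER_grp {a b : G} {A B : Matrix (Fin r) (Fin r) R} (s : Bool × Bool) (g : G)
    (ih : ∀ w : List (Bool × Bool), A * ρ (gw a b w) * ρ g * B = 0) (w : List (Bool × Bool)) :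
    A * ρ (gw a b w) * ρ (gl a b s * g) * B = 0 := by
  have h := ih (w ++ [s])
  rw [gw_append, gw_cons, gw_nil, mul_one, map_mul] at h
  rw [map_mul]
  simpa only [mul_assoc] using h

private theorem ZER_pos {A B V X : Matrix (Fin r) (Fin r) R} {y g : G} (hy : Lt S ρ c c' z z' y)
    (h1 : A * V * X * B = 0) (h2 : A * V * el ρ c y * X * B = 0) (hX : X = ρ g) :
    A * V * ρ (y * g) * B = 0 := by
  rw [map_mul, hy.map_eq, ← hX, smul_mul_assoc, add_mul, one_mul, mul_smul_comm, smul_mul_assoc,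
    mul_add, add_mul, h1, zero_add]
  rw [show A * V * (el ρ c y * X) * B = A * V * el ρ c y * X * B by simp only [mul_assoc], h2,
    smul_zero]

private theorem ZER_neg {A B V X : Matrix (Fin r) (Fin r) R} {y g : G} (hy : Lt S ρ c c' z z' y)
    (h1 : A * V * X * B = 0) (h2 : A * V * el ρ c y * X * B = 0) (hX : X = ρ g) :
    A * V * ρ (y⁻¹ * g) * B = 0 := by
  rw [map_mul, hy.map_inv, ← hX, smul_mul_assoc, sub_mul, one_mul, mul_smul_comm, smul_mul_assoc,
    mul_sub, sub_mul, h1, zero_sub]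
  rw [smul_mul_assoc, mul_smul_comm, smul_mul_assoc,
    show A * V * (el ρ c y * X) * B = A * V * el ρ c y * X * B by simp only [mul_assoc], h2,
    smul_zero, neg_zero, smul_zero]

end zer

theorem thm_Zer (hU : St_Unr) : St_Zer := by
  intro R _ G _ r S ρ a₀ b₀ L₀ c c' z z' hS a b C M hm
  have U := hU R G r S ρ a₀ b₀ L₀ c c' z z' hS a b C M hm
  have hlt := hS.lett a b (C ++ M) hm.1
  have key : ∀ g ∈ cl a b (C ++ M), ∀ y ∈ M, ∀ x ∈ C, ∀ w : List (Bool × Bool),
      el ρ c y * ρ (gw a b w) * ρ g * el ρ c x = 0 := by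
    intro g hg
    have mid : ∀ (g' : G), (∀ y ∈ M, ∀ x ∈ C, ∀ w : List (Bool × Bool),
        el ρ c y * ρ (gw a b w) * ρ g' * el ρ c x = 0) → ∀ x₁ ∈ C ++ M, ∀ y ∈ M, ∀ x ∈ C,
        ∀ w : List (Bool × Bool),
        el ρ c y * ρ (gw a b w) * el ρ c x₁ * ρ g' * el ρ c x = 0 := by
      intro g' ih x₁ hx₁ y hy x hx w
      rcases List.mem_append.1 hx₁ with h | h
      · rw [U w y hy x₁ h, zero_mul, zero_mul]
      · have h1 := ih x₁ h x hx []
        rw [gw_nil, map_one, mul_one] at h1
        calc el ρ c y * ρ (gw a b w) * el ρ c x₁ * ρ g' * el ρ c x =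
            el ρ c y * ρ (gw a b w) * (el ρ c x₁ * ρ g' * el ρ c x) := by simp only [mul_assoc]
          _ = 0 := by rw [h1, mul_zero]
    unfold cl at hg
    induction hg using Subgroup.closure_induction_left with
    | one =>
      intro y hy x hx w
      rw [map_one, mul_one]
      exact U w y hy x hx
    | mul_left x₁ hx₁ g' hg' ih =>
      intro y hy x hx w
      rcases hx₁ with (rfl | hb) | hL
      · exact ZER_grp (true, true) g' (fun w => ih y hy x hx w) w
      · rw [Set.mem_singleton_iff.1 hb]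
        exact ZER_grp (false, true) g' (fun w => ih y hy x hx w) w
      · exact ZER_pos (hlt x₁ hL) (ih y hy x hx w) (mid g' ih x₁ hL y hy x hx w) rfl
    | inv_mul_cancel x₁ hx₁ g' hg' ih =>
      intro y hy x hx w
      rcases hx₁ with (rfl | hb) | hL
      · exact ZER_grp (true, false) g' (fun w => ih y hy x hx w) w
      · rw [Set.mem_singleton_iff.1 hb]
        exact ZER_grp (false, false) g' (fun w => ih y hy x hx w) w
      · exact ZER_neg (hlt x₁ hL) (ih y hy x hx w) (mid g' ih x₁ hL y hy x hx w) rfl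
  intro y hy
  obtain ⟨x, hx, hx0⟩ := hm.2.1.mem_ne
  by_contra hy0
  obtain ⟨g, hg, hne⟩ := hS.irr a b (C ++ M) hm.1 y (List.mem_append_right _ hy) x
    (List.mem_append_left _ hx) hy0 hx0
  apply hne
  have h := key g hg y hy x hx []
  rwa [gw_nil, map_one, mul_one] at h

end Pool.Agent.TRS
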