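import Pool.Agent.TRS.ANN
import Pool.Agent.TRS.PRP
import Pool.Agent.TRS.SLD
import Pool.Agent.TRS.QFX
import Pool.Agent.TRS.UNR
import Pool.Agent.TRS.ZER
import Pool.Agent.TRS.LNK
import Pool.Agent.TRS.DIC
import Pool.Agent.TRS.TWR
import Pool.Agent.TRS.EXP
import Pool.Agent.TRS.SWP
import Pool.Agent.TRS.SW0
import Pool.Agent.TRS.NRM
import Pool.Agent.TRS.WR1
import Pool.Agent.TRS.SPL
import Pool.Agent.TRS.WRD
import Pool.Agent.TRS.TSa
import Pool.Agent.TRS.Aut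
import Pool.Agent.TRS.Ball
import Pool.Agent.TRS.Ger
import Pool.Agent.TRS.Sps
import Pool.Agent.TRS.Unf

/-!
# Systems of pseudo-reflections on punctured tori: assembly

Helper20, for MP_0707f5_ag.
-/

set_option autoImplicit false

namespace Pool.Agent.TRS

open Matrix Pool.Agent.HZ Pool.Agent.PRS

/-- the S-theorem -/
theorem thm_TS : St_TS :=
  TS_of thm_Ann (thm_Dic (thm_Zer (thm_Unr (thm_Sld thm_Prp thm_Qfx) thm_Prp thm_Qfx)) thm_Lnk
    thm_Ann) (thm_Wrd (thm_Wr1 thm_Nrm (thm_Swp thm_Twr thm_Exp) (thm_Sw0 thm_Exp)) thm_Spl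
      thm_Twr)

/-- finitely many characters for given rank, number of punctures and exponent -/
theorem thm_char (n r M : ℕ) (hM : 0 < M) :
    {χ : F n → ℂ | ∃ ρ : F n →* GL (Fin r) ℂ, TQ n r M ρ ∧
      χ = fun w => (ρ w : Matrix (Fin r) (Fin r) ℂ).trace}.Finite :=
  Unf_char (Unf_irr thm_TS thm_Aut thm_Ball thm_Ger) thm_Sps n r M hM

/-- the orbit of the character under the mapping classes and the automorphisms of `ℂ` -/
theorem thm_orb (n r : ℕ) (ρ : F n →* GL (Fin r) ℂ) (h1 : ∀ y ∈ tX n, PR (ρ y))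
    (h2 : ∀ φ ∈ MC n, Quasi (ρ (φ (FreeGroup.of 0))))
    (h3 : ∀ φ ∈ MC n, ∀ N T, tX n = N ++ T → Quasi (ρ (φ N.prod)))
    (h4 : ∀ φ ∈ MC n, ∀ y y' T, tX n = y :: y' :: T →
      (ρ '' (Subgroup.closure {φ y, φ y'} : Subgroup (F n))).Finite) :
    {χ : F n → ℂ | ∃ φ ∈ MC n, ∃ σ : RingAut ℂ,
      χ = fun w => σ (ρ (φ w) : Matrix (Fin r) (Fin r) ℂ).trace}.Finite :=
  Unf_orb (Unf_irr thm_TS thm_Aut thm_Ball thm_Ger) thm_Sps n r ρ h1 h2 h3 h4

end Pool.Agent.TRS
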