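import Pool.Agent.TRS.Defs
import Pool.Agent.PRS.RED
import Pool.Agent.PRS.DUA
import Pool.Agent.HZ.RedC
import Pool.Agent.HZ.RedE
import Mathlib.Order.Filter.Germ.Basic
import Mathlib.Order.Filter.Ultrafilter.Basic

/-!
# Systems of pseudo-reflections on punctured tori: the application

Helper20, helper15, for MP_0707f5_ag.  `F n` is the fundamental group of a torus with `n + 1`
punctures, `tX n` the list of the loops around the punctures, `MC n` the mapping classes which fix
the base point.
-/

set_option autoImplicit false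

namespace Pool.Agent.TRS

open Matrix Pool.Agent.HZ Pool.Agent.PRS

/-- the fundamental group of a torus with `n + 1` punctures: `a = of 0`, `b = of 1`, and
`x_1, ..., x_n` -/
abbrev F (n : ℕ) : Type := FreeGroup (Fin (n + 2))

/-- the first `n` punctures -/
def tY (n : ℕ) : List (F n) := (List.finRange n).map fun i => FreeGroup.of i.succ.succ

/-- the loops around the `n + 1` punctures, `x_1 * ... * x_(n+1) = a⁻¹ * b⁻¹ * a * b` -/
def tX (n : ℕ) : List (F n) :=
  tY n ++ [(tY n).prod⁻¹ *
    ((FreeGroup.of 0)⁻¹ * (FreeGroup.of 1)⁻¹ * (FreeGroup.of 0 * FreeGroup.of 1))]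

/-- the mapping classes of the punctured torus with a base point, which preserve the orientation
(Dehn, Nielsen, Baer): the automorphisms which map loops around punctures to loops around
punctures -/
def MC (n : ℕ) : Set (MulAut (F n)) := {φ | ∀ y ∈ tX n, ∃ y' ∈ tX n, IsConj (φ y) y'}

/-- the hypotheses: the loops around the punctures are multiples of pseudo-reflections, the images of
the pairs of pants one hole of which is a puncture are finite -/
structure TH (n r : ℕ) (ρ : F n →* GL (Fin r) ℂ) : Prop where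
  pr : ∀ y ∈ tX n, PR (ρ y)
  pa : ∀ φ ∈ MC n, ∀ y T, tX n = y :: T →
    (ρ '' (Subgroup.closure {φ (FreeGroup.of 0), φ y} : Subgroup (F n))).Finite
  pb : ∀ φ ∈ MC n, ∀ N y T, tX n = N ++ y :: T →
    (ρ '' (Subgroup.closure {φ N.prod, φ y} : Subgroup (F n))).Finite

/-- tuples reachable from the standard tuple -/
def TF (n : ℕ) (a b : F n) (L : List (F n)) : Prop :=
  TR (FreeGroup.of 0) (FreeGroup.of 1) (tX n) a b L

/-- **AUT**.  Reachable tuples are images of the standard tuple under mapping classes.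
PROOF. (1) Every tuple `(a, b; L)` with `L.length = n + 1` and `a * b = b * a * L.prod` defines an
endomorphism `h` of `F n` with `h (of 0) = a`, `h (of 1) = b`, `(tX n).map h = L`: put
`h (of i.succ.succ) = ` the `i`-th entry; the last entry is right because
`L.prod = a⁻¹ b⁻¹ a b`.  Two endomorphisms which agree on `of 0, of 1` and `tY n` are equal.
(2) Elementary moves: for each constructor of `TR` applied to the standard tuple `t₀` (with `BMove` at
an arbitrary place) let `h` be the endomorphism with `h t₀ = move t₀` and `k` the one with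
`k t₀ = inverse move t₀` (`BMove.r` and `BMove.l` are inverse to each other, `sl` and `ls` are,
`twa k` and `twa (-k)`, `twb k` and `twb (-k)`).  Moves commute with homomorphisms (cf. `TR.map`), so
`h (k t₀) = inverse move (h t₀) = t₀` and `k (h t₀) = t₀`: `h` and `k` are inverse to each other.
They are in `MC n` by `TR.conj`.
(3) Induction on the path: `(a, b; L) = ψ t₀`, the next tuple is `move (ψ t₀) = ψ (move t₀) =
(ψ * h) t₀`, and `MC n` is closed under products. -/
def St_Aut : Prop := ∀ (n : ℕ) (a b : F n) (L : List (F n)), TF n a b L →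
    ∃ ψ ∈ MC n, ψ (FreeGroup.of 0) = a ∧ ψ (FreeGroup.of 1) = b ∧ (tX n).map ψ = L

/-- **PAN**.  The consequences of the hypotheses which are used.
PROOF. `MC n` is closed under products: `φ (ψ y)` is conjugate to `φ y'`, so to some `y''`.
`exists_exponent` for `ρ.range` (finitely generated, `range_fg`, see `good_of_pants` in
PRS/IRR.lean) gives `M`.
(1) `N = []`: `a * [].prod = a`, and in general: `TR.blockS4` gives `TF n (a * N.prod) b (T ++ N')`;
this list has length `n + 1` (`TR.length`), so it is `y :: T'`, and `St_Aut` gives `ψ ∈ MC n` with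
`ψ (of 0) = a * N.prod`, `ψ y₀ = y` (`tX n = y₀ :: _`); `pa` for `φ * ψ` shows that the powers of
`ρ (φ (a * N.prod))` are in a finite set (`quasi_of_finite`), so its eigenvalues are roots of unity,
so of order dividing `M`.
(2) `N.prod`: `N = []`: the eigenvalue is `1`.  `N = N' ++ [y]`: `St_Aut` for `(a, b; N ++ T)` gives
`ψ`, `tX n = N₀ ++ y₀ :: T₀` with `N₀.map ψ = N'`, `ψ y₀ = y` (`List.map_eq_append_iff`), and `pb` for
`φ * ψ`: `N.prod = N'.prod * y` is in the closure.
(3) letters: `TR.conj` for `(a, b; L)`: `y = g⁻¹ x g`, `x ∈ tX n`, `φ x` is conjugate to some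
`x' ∈ tX n`, so `ρ (φ y)` is conjugate to `ρ x'` (`PR.conj`, `PR_conj'`).
(4) pairs: `pb` with `N = [y]` as in (2), `finite_closure` (PRS/IRR.lean). -/
def St_Pan : Prop := ∀ (n r : ℕ) (ρ : F n →* GL (Fin r) ℂ), TH n r ρ →
    (∀ φ ∈ MC n, ∀ ψ ∈ MC n, φ * ψ ∈ MC n) ∧
    (∃ M > 0, ∀ φ ∈ MC n, ∀ (a b : F n) (N T : List (F n)), TF n a b (N ++ T) →
      (∀ x : ℂ, (ρ (φ (a * N.prod)) : Matrix (Fin r) (Fin r) ℂ).charpoly.IsRoot x → x ^ M = 1) ∧
      ∀ x : ℂ, (ρ (φ N.prod) : Matrix (Fin r) (Fin r) ℂ).charpoly.IsRoot x → x ^ M = 1) ∧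
    (∀ φ ∈ MC n, ∀ (a b : F n) (L : List (F n)), TF n a b L → ∀ y ∈ L, PR (ρ (φ y))) ∧
    ∀ φ ∈ MC n, ∀ (a b y y' : F n) (N : List (F n)), TF n a b (y :: y' :: N) →
      Finite (Subgroup.closure {ρ (φ y), ρ (φ y')} : Subgroup (GL (Fin r) ℂ))

/-- **BALL**.  Irreducibility is seen by finitely many words, which depend only on the rank.
PROOF. Let `B k` be the finite set of the products of at most `k` generators and inverses of
generators (`B 0 = {1}`, `B (k+1) = B k ∪ {s * w}`), `B = B r`.  Let `v` be a column of `E'` which is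
not zero and `f` a row of `E` which is not zero; it is enough that `f ⬝ᵥ (σ w *ᵥ v) ≠ 0` for some
`w ∈ B r` (an entry of `E * σ w * E'`).  Let `W k` be the span of the `σ w *ᵥ v`, `w ∈ B k`.  If
`W (k+1) = W k` then `W k` is stable under the generators and their inverses, so under the group, and
it contains `v ≠ 0`, so `W k = ⊤` by irreducibility.  So `k + 1 ≤ finrank (W k)` or `W k = ⊤` by
induction on `k`, so `W r = ⊤`.  If all `f ⬝ᵥ (σ w *ᵥ v) = 0` then `f = 0` on `W r = ⊤`, so `f = 0`. -/
def St_Ball : Prop := ∀ (n r : ℕ), ∃ B : Set (FreeGroup (Fin n)), B.Finite ∧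
    ∀ σ : FreeGroup (Fin n) →* GL (Fin r) ℂ, Irr σ.range →
    ∀ E E' : Matrix (Fin r) (Fin r) ℂ, E ≠ 0 → E' ≠ 0 →
    ∃ w ∈ B, E * (σ w : Matrix (Fin r) (Fin r) ℂ) * E' ≠ 0

/-- **ULT**.  A function which is constant for all ultrafilters has finitely many values.
PROOF. If the range is infinite then the filter `Filter.comap f Filter.cofinite` is not trivial (a set
of the filter contains the preimage of the complement of a finite set, and the range is not
contained in a finite set); take an ultrafilter below it (`Ultrafilter.of`); for every `c` the set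
`{x | f x ≠ c}` is in it, contradiction. -/
def St_Ult : Prop := ∀ (Ω : Type) (f : Ω → ℂ),
    (∀ U : Ultrafilter Ω, ∃ c : ℂ, ∀ᶠ x in (U : Filter Ω), f x = c) → (Set.range f).Finite

/-- **UFN**.  A function with finitely many values is constant for an ultrafilter.
PROOF. `Ω` is the union of the finitely many sets `f⁻¹ {c}`, `c` in the range; one of them is in `U`
(`Ultrafilter.finite_biUnion_mem_iff` or `Ultrafilter.eventually_exists_mem_iff`). -/
def St_Ufn : Prop := ∀ (Ω : Type) (U : Ultrafilter Ω) (f : Ω → ℂ), (Set.range f).Finite →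
    ∃ c : ℂ, ∀ᶠ x in (U : Filter Ω), f x = c

/-- **SPL**.  A reducible representation is split into two smaller ones, with the sum of the
characters.
PROOF. Copy the proof of `quasi_of_sub` (PRS/RED.lean): `W`, a complement `W'`, the matrices
`A, L, B, R` with `L A = 1`, `B R = 1`, `ρ A = A σ`, `B ρ = τ B`; moreover `A L + R B = 1` (both
projections).  So `tr ρ w = tr (ρ w (A L + R B)) = tr (L ρ w A) + tr (B ρ w R) = tr σ w + tr τ w`. -/
def St_Sps : Prop := ∀ (G : Type) [Group G] (r : ℕ) (ρ : G →* GL (Fin r) ℂ), 0 < r →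
    ¬ Irr ρ.range → ∃ (s t : ℕ) (σ : G →* GL (Fin s) ℂ) (τ : G →* GL (Fin t) ℂ),
      s < r ∧ t < r ∧ Sub ρ σ ∧ Sub ρ τ ∧ ∀ w, (ρ w : Matrix (Fin r) (Fin r) ℂ).trace =
        (σ w : Matrix (Fin s) (Fin s) ℂ).trace + (τ w : Matrix (Fin t) (Fin t) ℂ).trace

/-! ### representations over germs -/

/-- the ring of germs of complex functions along an ultrafilter -/
abbrev GR {Ω : Type} (U : Ultrafilter Ω) : Type := Filter.Germ (U : Filter Ω) ℂ

/-- the germ of a function, as a homomorphism -/
noncomputable def gm {Ω : Type} (U : Ultrafilter Ω) : (Ω → ℂ) →+* GR U :=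
  Filter.Germ.coeRingHom (U : Filter Ω)

/-- the constants -/
noncomputable def gS {Ω : Type} (U : Ultrafilter Ω) : Subring (GR U) :=
  ((gm U).comp (Pi.constRingHom Ω ℂ)).range

/-- the germ of a family of representations -/
noncomputable def gR {Ω : Type} (U : Ultrafilter Ω) {n r : ℕ}
    (fam : Ω → FreeGroup (Fin n) →* GL (Fin r) ℂ) :
    FreeGroup (Fin n) →* Matrix (Fin r) (Fin r) (GR U) :=
  ((gm U).mapMatrix (m := Fin r)).toMonoidHom.comp (DUA_rep Ω fam)

/-- the germ of a family of matrices -/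
noncomputable def gA {Ω : Type} (U : Ultrafilter Ω) {r : ℕ}
    (A : Ω → Matrix (Fin r) (Fin r) ℂ) : Matrix (Fin r) (Fin r) (GR U) :=
  Matrix.of fun i j => gm U fun x => A x i j

/-- **GER**.  Rules for germs of families of matrices.
PROOF. Entrywise; `Filter.Germ.coe_eq` (equality of germs is equality eventually); for matrices the
intersection of finitely many sets of `U` (`Filter.eventually_all`).  The last one: choose
representatives of the entries (`Filter.Germ.inductionOn` or `Quotient.out`). -/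
def St_Ger : Prop := ∀ (Ω : Type) (U : Ultrafilter Ω) (r : ℕ),
    (∀ A B : Ω → Matrix (Fin r) (Fin r) ℂ, gA U A * gA U B = gA U fun x => A x * B x) ∧
    (∀ A B : Ω → Matrix (Fin r) (Fin r) ℂ, gA U A - gA U B = gA U fun x => A x - B x) ∧
    (gA U (fun _ => (1 : Matrix (Fin r) (Fin r) ℂ)) = 1) ∧
    (∀ (c : Ω → ℂ) (A : Ω → Matrix (Fin r) (Fin r) ℂ), gm U c • gA U A = gA U fun x => c x • A x) ∧
    (∀ A : Ω → Matrix (Fin r) (Fin r) ℂ, (gA U A).trace = gm U fun x => (A x).trace) ∧
    (∀ A B : Ω → Matrix (Fin r) (Fin r) ℂ, gA U A = gA U B ↔ ∀ᶠ x in (U : Filter Ω), A x = B x) ∧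
    (∀ f g : Ω → ℂ, gm U f = gm U g ↔ ∀ᶠ x in (U : Filter Ω), f x = g x) ∧
    (∀ f : Ω → ℂ, gm U f ∈ gS U ↔ ∃ c : ℂ, ∀ᶠ x in (U : Filter Ω), f x = c) ∧
    (∀ (n : ℕ) (fam : Ω → FreeGroup (Fin n) →* GL (Fin r) ℂ) (w : FreeGroup (Fin n)),
      gR U fam w = gA U fun x => (fam x w : Matrix (Fin r) (Fin r) ℂ)) ∧
    (∀ X : Matrix (Fin r) (Fin r) (GR U), ∃ A : Ω → Matrix (Fin r) (Fin r) ℂ, X = gA U A) ∧
    (∀ s ∈ gS U, s ≠ 0 → ∃ t ∈ gS U, s * t = 1) ∧
    ∀ m : ℕ, 0 < m → ∃ t ∈ gS U, (m : GR U) * t = 1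

/-- the family of the representations `ρ ∘ φ`, `φ ∈ MC n` -/
noncomputable def fM {n r : ℕ} (ρ : F n →* GL (Fin r) ℂ) (φ : MC n) : F n →* GL (Fin r) ℂ :=
  ρ.comp (φ : MulAut (F n)).toMonoidHom

/-- the conclusion for one word -/
def FinT {n r : ℕ} (ρ : F n →* GL (Fin r) ℂ) : Prop :=
  ∀ w, (Set.range fun φ : MC n => (fM ρ φ w : Matrix (Fin r) (Fin r) ℂ).trace).Finite

/-- the theorem: the orbit of the character under the mapping class group is finite -/
def St_Tor : Prop := ∀ (n r : ℕ) (ρ : F n →* GL (Fin r) ℂ), TH n r ρ →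
    {χ : F n → ℂ | ∃ φ ∈ MC n, χ = fun w => (ρ (φ w) : Matrix (Fin r) (Fin r) ℂ).trace}.Finite

/-- **TOR**.  The theorem from the irreducible case.
PROOF. Strong induction on `r` for `FinT` (all `ρ` with `TH n r ρ`): `r = 0`: traces are `0`.
Irreducible: hypothesis.  Reducible: `St_Sps`; `TH` passes to `σ`, `τ` (`PR_sub`, `finite_sub`); the
set of the sums of two finite sets is finite.  Then `exists_words` (HZ/RedC.lean): the map
`χ ↦ (χ restricted to the finite set)` is injective on the set of the characters and its image is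
contained in a finite product of finite sets (see the end of `thm_ORB` in PRS/ORB.lean). -/
def St_Asm : Prop :=
    (∀ (n r : ℕ) (ρ : F n →* GL (Fin r) ℂ), 0 < r → Irr ρ.range → TH n r ρ → FinT ρ) → St_Tor

end Pool.Agent.TRS
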