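import Pool.Agent.TRS.App

/-!
# TRS, module Asm (MP_0707f5_ag): the theorem from the irreducible case
-/

set_option autoImplicit false

namespace Pool.Agent.TRS

open Matrix Pool.Agent.HZ Pool.Agent.PRS

private theorem Asm_th {n r s : ℕ} {ρ : F n →* GL (Fin r) ℂ} {σ : F n →* GL (Fin s) ℂ}
    (h : TH n r ρ) (hs : Sub ρ σ) : TH n s σ where
  pr := fun y hy => PR_sub hs (h.pr y hy)
  pa := fun φ hφ y T hT => finite_sub hs (h.pa φ hφ y T hT)
  pb := fun φ hφ N y T hT => finite_sub hs (h.pb φ hφ N y T hT)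

private theorem Asm_fin (hS : St_Sps)
    (hI : ∀ (n r : ℕ) (ρ : F n →* GL (Fin r) ℂ), 0 < r → Irr ρ.range → TH n r ρ → FinT ρ)
    (n : ℕ) : ∀ (r : ℕ) (ρ : F n →* GL (Fin r) ℂ), TH n r ρ → FinT ρ := by
  intro r
  induction r using Nat.strong_induction_on with
  | _ r ih =>
    intro ρ hρ
    rcases Nat.eq_zero_or_pos r with rfl | hr
    · intro w
      refine (Set.finite_singleton (0 : ℂ)).subset ?_
      rintro _ ⟨φ, rfl⟩
      simp [Matrix.trace]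
    by_cases hirr : Irr ρ.range
    · exact hI n r ρ hr hirr hρ
    obtain ⟨s, t, σ, τ, hs, ht, hσ, hτ, htr⟩ := hS (F n) r ρ hr hirr
    intro w
    have h1 := ih s hs σ (Asm_th hρ hσ) w
    have h2 := ih t ht τ (Asm_th hρ hτ) w
    refine (Set.Finite.image2 (fun x y : ℂ => x + y) h1 h2).subset ?_
    rintro _ ⟨φ, rfl⟩
    refine ⟨_, ⟨φ, rfl⟩, _, ⟨φ, rfl⟩, ?_⟩
    exact (htr ((φ : MulAut (F n)) w)).symm

theorem thm_Asm (hS : St_Sps) : St_Asm := by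
  intro hI n r ρ hρ
  have hfin := Asm_fin hS hI n r ρ hρ
  obtain ⟨s, hs⟩ := exists_words r (n + 2)
  have hpi : (Set.univ.pi fun x : s => Set.range fun φ : MC n =>
      (fM ρ φ x : Matrix (Fin r) (Fin r) ℂ).trace).Finite :=
    Set.Finite.pi fun x => hfin x
  refine Set.Finite.of_finite_image (f := fun (χ : F n → ℂ) (x : s) => χ x)
    (hpi.subset ?_) ?_
  · rintro _ ⟨_, ⟨φ, hφ, rfl⟩, rfl⟩ x _
    exact ⟨⟨φ, hφ⟩, rfl⟩
  · rintro _ ⟨φ, hφ, rfl⟩ _ ⟨φ', hφ', rfl⟩ h1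
    funext x
    exact hs (ρ.comp φ.toMonoidHom) (ρ.comp φ'.toMonoidHom)
      (fun y hy => congrFun h1 ⟨y, hy⟩) x

end Pool.Agent.TRS
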