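import Pool.Agent.TRS.AllT
import Pool.Agent.PRS.FinX
import Pool.Agent.PRS.FinA

/-!
# Mapping classes of the punctured annulus and lists in the braid orbit

Helper20, for MP_0707f5_ag.  `sT (n + 1)` is the list of the loops around the `n + 1` punctures of
an annulus, `of 0` the loop around the first end, `of 0 * (sT (n + 1)).prod` the one around the
second end.
-/

set_option autoImplicit false

namespace Pool.Agent.TRS

open Matrix Pool.Agent.HZ Pool.Agent.PRS

/-- the mapping classes of the annulus with `n + 1` punctures -/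
def MA (n : ℕ) : Set (MulAut (F n)) :=
  {φ | (∀ y ∈ sT (n + 1), ∃ y' ∈ sT (n + 1), IsConj (φ y) y') ∧
    ∀ e ∈ [(FreeGroup.of 0 : F n), FreeGroup.of 0 * (sT (n + 1)).prod], IsConj (φ e) e}

theorem Brg_std (n : ℕ) : std (n + 1) = FreeGroup.of 0 :: sT n := by
  rw [std, sT, List.finRange_succ, List.map_cons, List.map_map]
  rfl

theorem F2r {α β : Type} {R : α → β → Prop} {K : List α} {L1 L2 : List β}
    (h : List.Forall₂ R K (L1 ++ L2)) :
    ∃ K1 K2, List.Forall₂ R K1 L1 ∧ List.Forall₂ R K2 L2 ∧ K = K1 ++ K2 := by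
  induction L1 generalizing K with
  | nil => exact ⟨[], K, List.Forall₂.nil, h, rfl⟩
  | cons x L1 ih =>
    rw [List.cons_append, List.forall₂_cons_right_iff] at h
    obtain ⟨a, K', h1, h2, rfl⟩ := h
    obtain ⟨K1, K2, h3, h4, rfl⟩ := ih h2
    exact ⟨a :: K1, K2, List.Forall₂.cons h1 h3, h4, rfl⟩

theorem F2l {α β : Type} {R : α → β → Prop} {K1 K2 : List α} {L : List β}
    (h : List.Forall₂ R (K1 ++ K2) L) :
    ∃ L1 L2, List.Forall₂ R K1 L1 ∧ List.Forall₂ R K2 L2 ∧ L = L1 ++ L2 := by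
  obtain ⟨L1, L2, h1, h2, h3⟩ := F2r h.flip
  exact ⟨L1, L2, h1.flip, h2.flip, h3⟩

/-- the entries of a list in the orbit are conjugates of the entries in another order -/
theorem Brg_move {G : Type} [Group G] {K L L' : List G} (h : List.Forall₂ IsConj K L)
    (hm : BMove L L') : ∃ K' : List G, K'.Perm K ∧ List.Forall₂ IsConj K' L' := by
  cases hm with
  | r P S a b =>
    obtain ⟨K1, K2, h1, h2, rfl⟩ := F2r h
    rw [List.forall₂_cons_right_iff] at h2
    obtain ⟨a', K3, h3, h4, rfl⟩ := h2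
    rw [List.forall₂_cons_right_iff] at h4
    obtain ⟨b', K4, h5, h6, rfl⟩ := h4
    refine ⟨K1 ++ b' :: a' :: K4, (List.Perm.swap a' b' K4).append_left K1, ?_⟩
    refine List.rel_append h1 (List.Forall₂.cons h5 (List.Forall₂.cons ?_ h6))
    refine h3.trans (isConj_iff.2 ⟨b⁻¹, by group⟩)
  | l P S a b =>
    obtain ⟨K1, K2, h1, h2, rfl⟩ := F2r h
    rw [List.forall₂_cons_right_iff] at h2
    obtain ⟨a', K3, h3, h4, rfl⟩ := h2
    rw [List.forall₂_cons_right_iff] at h4
    obtain ⟨b', K4, h5, h6, rfl⟩ := h4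
    refine ⟨K1 ++ b' :: a' :: K4, (List.Perm.swap a' b' K4).append_left K1, ?_⟩
    refine List.rel_append h1 (List.Forall₂.cons ?_ (List.Forall₂.cons h3 h6))
    refine h5.trans (isConj_iff.2 ⟨a, by group⟩)

theorem Brg_reach {G : Type} [Group G] {L L' : List G} (h : BReach L L') :
    ∃ K : List G, K.Perm L ∧ List.Forall₂ IsConj K L' := by
  induction h with
  | refl => exact ⟨L, List.Perm.refl L, List.forall₂_same.2 fun x _ => IsConj.refl x⟩
  | tail _ hs ih =>
    obtain ⟨K, h1, h2⟩ := ih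
    obtain ⟨K', h3, h4⟩ := Brg_move h2 hs
    exact ⟨K', h3.trans h1, h4⟩

/-- braids are automorphisms -/
theorem Brg_aut {n : ℕ} {L : List (FreeGroup (Fin n))} (h : BReach (std n) L) :
    ∃ φ : MulAut (FreeGroup (Fin n)), (std n).map φ = L := by
  have key : ∀ {L : List (FreeGroup (Fin n))}, BReach (std n) L →
      ∀ β : FreeGroup (Fin n) →* FreeGroup (Fin n), (std n).map β = L →
      ∃ γ : FreeGroup (Fin n) →* FreeGroup (Fin n), BReach (std n) ((std n).map γ) ∧
        β.comp γ = MonoidHom.id _ := by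
    intro L h β hβ
    have h1 : BReach ((std n).map β) (std n) := by
      rw [hβ]
      exact h.symm
    obtain ⟨L', h2, h3⟩ := h1.lift β
    obtain ⟨γ, -, h4⟩ := exists_braid h2
    refine ⟨γ, by rw [h4]; exact h2, ?_⟩
    rw [← h4, List.map_map] at h3
    apply FreeGroup.ext_hom
    intro i
    have h5 : (std n).map (β ∘ γ) = (std n).map id := by rw [h3, List.map_id]
    exact List.map_inj_left.1 h5 (FreeGroup.of i) (List.mem_map.2 ⟨i, List.mem_finRange i, rfl⟩)
  obtain ⟨β, -, hβ⟩ := exists_braid h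
  obtain ⟨γ, h1, h2⟩ := key h β hβ
  obtain ⟨δ, -, h3⟩ := key h1 γ rfl
  have h4 : δ = β := by
    have := congrArg (fun f => β.comp f) h3
    simp only [← MonoidHom.comp_assoc, h2, MonoidHom.id_comp, MonoidHom.comp_id] at this
    exact this
  rw [h4] at h3
  exact ⟨MonoidHom.toMulEquiv β γ h3 h2, hβ⟩

/-- different generators are not conjugate -/
theorem Brg_ne {n : ℕ} {i j : Fin n} (h : IsConj (FreeGroup.of i : FreeGroup (Fin n))
    (FreeGroup.of j)) : i = j := by
  classical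
  obtain ⟨g, hg⟩ := isConj_iff.1 h
  by_contra hij
  have h1 := congrArg (FreeGroup.lift fun k : Fin n =>
    if k = i then Multiplicative.ofAdd (1 : ℤ) else 1) hg
  rw [map_mul, map_mul, map_inv, FreeGroup.lift_apply_of, FreeGroup.lift_apply_of, if_pos rfl,
    if_neg (Ne.symm hij), mul_comm (FreeGroup.lift _ g), mul_inv_cancel_right] at h1
  have h2 : (1 : ℤ) = 0 := h1
  exact one_ne_zero h2

/-- lists in the orbit which begin with a conjugate of `of 0` come from mapping classes -/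
theorem Brg_mc {n : ℕ} {q : F n} {L : List (F n)} (h : BReach (std (n + 2)) (q :: L))
    (hq : IsConj (FreeGroup.of 0) q)
    (hL : ∀ y ∈ L, ∃ y' ∈ sT (n + 1), IsConj y y') :
    ∃ φ ∈ MA n, φ (FreeGroup.of 0) = q ∧ (sT (n + 1)).map φ = L := by
  obtain ⟨φ, hφ⟩ := Brg_aut h
  have h0 := hφ
  rw [Brg_std, List.map_cons, List.cons.injEq] at hφ
  obtain ⟨h1, h2⟩ := hφ
  refine ⟨φ, ⟨?_, ?_⟩, h1, h2⟩
  · intro y hy
    refine hL _ ?_
    rw [← h2]
    exact List.mem_map_of_mem hy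
  · intro e he
    simp only [List.mem_cons, List.not_mem_nil, or_false] at he
    rcases he with rfl | rfl
    · rw [h1]
      exact hq.symm
    · have h3 : φ (FreeGroup.of 0 * (sT (n + 1)).prod) = FreeGroup.of 0 * (sT (n + 1)).prod := by
        have h4 := h.prod_eq
        rw [Brg_std, List.prod_cons, List.prod_cons] at h4
        rw [map_mul, h1, map_list_prod φ, h2, h4]
      rw [h3]

/-- the pairs of pants -/
theorem Brg_pants {n : ℕ} {A B : List (F n)} {y : F n}
    (h : BReach (std (n + 2)) (A ++ y :: B))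
    (hy : ∃ i : Fin (n + 2), i ≠ 0 ∧ ∃ g, y = g * FreeGroup.of i * g⁻¹) :
    ∃ φ ∈ MA n, ∃ (N : List (F n)) (y₀ : F n) (T : List (F n)), sT (n + 1) = N ++ y₀ :: T ∧
      φ y₀ = y ∧ (A.prod = φ (FreeGroup.of 0 * N.prod) ∨ A.prod = φ N.prod) := by
  obtain ⟨K, hK, hKL⟩ := Brg_reach h
  rw [Brg_std] at hK
  have h0 : (FreeGroup.of 0 : F n) ∈ K := hK.mem_iff.2 List.mem_cons_self
  obtain ⟨K1, K2, rfl⟩ := List.append_of_mem h0
  have hK' : (K1 ++ K2).Perm (sT (n + 1)) := by
    have h1 := List.perm_middle.symm.trans hK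
    exact (List.perm_cons _).1 h1
  -- the special entry
  obtain ⟨P, Q', h1, h2, h3⟩ := F2l hKL
  rw [List.forall₂_cons_left_iff] at h2
  obtain ⟨q, Q, h4, h5, rfl⟩ := h2
  have hc : ∀ x ∈ P ++ Q, ∃ y' ∈ sT (n + 1), IsConj x y' := by
    intro x hx
    have h6 : List.Forall₂ IsConj (K1 ++ K2) (P ++ Q) := List.rel_append h1 h5
    obtain ⟨i, hi, rfl⟩ := List.mem_iff_getElem.1 hx
    have hi' : i < (K1 ++ K2).length := by rw [h6.length_eq]; exact hi
    refine ⟨(K1 ++ K2)[i], hK'.mem_iff.1 (List.getElem_mem hi'), ?_⟩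
    exact ((List.forall₂_iff_get.1 h6).2 i hi' hi).symm
  have hyq : y ≠ q := by
    rintro rfl
    obtain ⟨i, hi, g, hg⟩ := hy
    apply hi
    have h6 : IsConj (FreeGroup.of 0 : F n) (FreeGroup.of i) := by
      refine h4.trans (isConj_iff.2 ⟨g⁻¹, ?_⟩)
      rw [hg]
      group
    exact (Brg_ne h6).symm
  have hfin : ∀ (N' T' : List (F n)) (q' : F n), BReach (std (n + 2)) (q' :: (N' ++ y :: T')) →
      IsConj (FreeGroup.of 0) q' → (∀ x ∈ N' ++ y :: T', ∃ y' ∈ sT (n + 1), IsConj x y') →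
      (A.prod = q' * N'.prod ∨ A.prod = N'.prod) →
      ∃ φ ∈ MA n, ∃ (N : List (F n)) (y₀ : F n) (T : List (F n)), sT (n + 1) = N ++ y₀ :: T ∧
        φ y₀ = y ∧ (A.prod = φ (FreeGroup.of 0 * N.prod) ∨ A.prod = φ N.prod) := by
    intro N' T' q' k1 k2 k3 k4
    obtain ⟨φ, hφ, g1, g2⟩ := Brg_mc k1 k2 k3
    rw [List.map_eq_append_iff] at g2
    obtain ⟨N, T₁, g3, g4, g5⟩ := g2
    rw [List.map_eq_cons_iff] at g5
    obtain ⟨y₀, T, rfl, g6, g7⟩ := g5
    refine ⟨φ, hφ, N, y₀, T, g3, g6, ?_⟩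
    rw [map_mul, g1, map_list_prod φ, g4]
    exact k4
  -- the position of the special entry
  rcases List.append_eq_append_iff.1 h3 with ⟨C, e1, e2⟩ | ⟨C, e1, e2⟩
  · -- P = A ++ C, y :: B = C ++ q :: Q
    cases C with
    | nil =>
      simp only [List.nil_append, List.cons.injEq] at e2
      exact absurd e2.1 hyq
    | cons y' C =>
      simp only [List.cons_append, List.cons.injEq] at e2
      obtain ⟨rfl, rfl⟩ := e2
      have k1 : BReach (A ++ y :: (C ++ q :: Q))
          (((A ++ y :: C).prod * q * (A ++ y :: C).prod⁻¹) :: (A ++ y :: C ++ Q)) := by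
        have k2 := (pass_left q (A ++ y :: C)).append_right Q
        simpa using k2
      have k3 : A ++ y :: C ++ Q = A ++ y :: (C ++ Q) := by simp
      rw [k3] at k1
      refine hfin A (C ++ Q) _ (h.trans k1) ?_ ?_ (Or.inr rfl)
      · exact h4.trans (isConj_iff.2 ⟨(A ++ y :: C).prod, rfl⟩)
      · intro x hx
        apply hc
        rw [e1]
        simpa using hx
  · -- A = P ++ C, q :: Q = C ++ y :: B
    cases C with
    | nil =>
      simp only [List.nil_append, List.cons.injEq] at e2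
      exact absurd e2.1.symm hyq
    | cons q' C =>
      simp only [List.cons_append, List.cons.injEq] at e2
      obtain ⟨rfl, rfl⟩ := e2
      have k1 : BReach (P ++ q :: C ++ y :: B)
          ((P.prod * q * P.prod⁻¹) :: (P ++ C ++ y :: B)) := by
        have k2 := (pass_left q P).append_right (C ++ y :: B)
        simpa using k2
      rw [e1] at h
      refine hfin (P ++ C) B _ (h.trans k1) ?_ ?_ (Or.inl ?_)
      · exact h4.trans (isConj_iff.2 ⟨_, rfl⟩)
      · intro x hx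
        apply hc
        simpa using hx
      · rw [e1]
        simp [mul_assoc]

/-- the theorem for the annulus -/
theorem thm_ann (n r : ℕ) (ρ : F n →* GL (Fin r) ℂ) (h1 : ∀ y ∈ sT (n + 1), PR (ρ y))
    (h2 : ∀ φ ∈ MA n, ∀ (N T : List (F n)) (y : F n), sT (n + 1) = N ++ y :: T →
      (ρ '' (Subgroup.closure {φ (FreeGroup.of 0 * N.prod), φ y} : Subgroup (F n))).Finite ∧
      (ρ '' (Subgroup.closure {φ N.prod, φ y} : Subgroup (F n))).Finite) :
    ∀ w, Quasi (ρ w) := by
  refine thx (n + 2) r ρ 0 (by omega) (fun i hi => ?_) fun A B y h hy => ?_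
  · obtain ⟨j, rfl⟩ := Fin.exists_succ_eq.2 hi
    exact h1 _ (List.mem_map.2 ⟨j, List.mem_finRange j, rfl⟩)
  · obtain ⟨φ, hφ, N, y₀, T, g1, g2, g3⟩ := Brg_pants h hy
    obtain ⟨k1, k2⟩ := h2 φ hφ N T y₀ g1
    rcases g3 with g3 | g3
    · rw [g3, ← g2]
      exact k1
    · rw [g3, ← g2]
      exact k2

/-- finite orbits of representations with roots of unity as eigenvalues -/
theorem orb_of_quasi (n r : ℕ) (ρ : F n →* GL (Fin r) ℂ) (h : ∀ w, Quasi (ρ w))
    (X : Set (MulAut (F n))) :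
    {χ : F n → ℂ | ∃ φ ∈ X, ∃ σ : RingAut ℂ,
      χ = fun w => σ (ρ (φ w) : Matrix (Fin r) (Fin r) ℂ).trace}.Finite := by
  obtain ⟨M, hM, hexp⟩ := exists_exponent ρ.range (range_fg ρ)
  have hroots : {x : ℂ | x ^ M = 1}.Finite := by
    classical
    refine ((Polynomial.nthRoots M (1 : ℂ)).toFinset.finite_toSet).subset ?_
    intro z hz
    rw [Finset.mem_coe, Multiset.mem_toFinset, Polynomial.mem_nthRoots hM]
    exact hz
  have hft := finite_traces_of_roots r {x : ℂ | x ^ M = 1} hroots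
  obtain ⟨s, hs⟩ := exists_words r (n + 2)
  have hpi : (Set.univ.pi fun _ : s => {t : ℂ | ∃ U : Matrix (Fin r) (Fin r) ℂ,
      (∀ c : ℂ, U.charpoly.IsRoot c → c ∈ {x : ℂ | x ^ M = 1}) ∧ U.trace = t}).Finite :=
    Set.Finite.pi fun _ => hft
  refine Set.Finite.of_finite_image (f := fun (χ : F n → ℂ) (x : s) => χ x)
    (hpi.subset ?_) ?_
  · rintro _ ⟨_, ⟨φ, hφ, σ, rfl⟩, rfl⟩ x _
    refine ⟨(gal σ ρ (φ x) : Matrix (Fin r) (Fin r) ℂ), ?_, gal_trace σ ρ (φ x)⟩
    intro c hc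
    have h2 : (gal σ ρ (φ x) : Matrix (Fin r) (Fin r) ℂ).charpoly =
        (ρ (φ x) : Matrix (Fin r) (Fin r) ℂ).charpoly.map (σ : ℂ →+* ℂ) := by
      rw [gal_coe]
      exact Matrix.charpoly_map _ (σ : ℂ →+* ℂ)
    rw [h2] at hc
    have h3 : (ρ (φ x) : Matrix (Fin r) (Fin r) ℂ).charpoly.IsRoot (σ.symm c) := by
      rw [Polynomial.IsRoot.def, Polynomial.eval_map, ← σ.apply_symm_apply c] at hc
      have h4 : σ ((ρ (φ x) : Matrix (Fin r) (Fin r) ℂ).charpoly.eval (σ.symm c)) = 0 := by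
        have h5 := Polynomial.hom_eval₂ (ρ (φ x) : Matrix (Fin r) (Fin r) ℂ).charpoly
          (RingHom.id ℂ) (σ : ℂ →+* ℂ) (σ.symm c)
        rw [RingHom.comp_id] at h5
        exact h5.trans hc
      exact (map_eq_zero_iff σ σ.injective).1 h4
    have h4 := hexp _ ⟨_, rfl⟩ _ h3 (h _ _ h3)
    have h5 := congrArg σ h4
    rwa [map_pow, σ.apply_symm_apply, map_one] at h5
  · rintro _ ⟨φ, hφ, σ, rfl⟩ _ ⟨φ', hφ', σ', rfl⟩ h1
    funext x
    have h2 := hs (gal σ (ρ.comp φ.toMonoidHom)) (gal σ' (ρ.comp φ'.toMonoidHom)) (fun y hy => by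
      rw [gal_trace, gal_trace]
      exact congrFun h1 ⟨y, hy⟩) x
    rw [gal_trace, gal_trace] at h2
    exact h2

/-- the theorem for the torus, with finite images on the pairs of pants -/
theorem thm_tor (n r : ℕ) (ρ : F n →* GL (Fin r) ℂ) (h1 : ∀ y ∈ tX n, PR (ρ y))
    (h2 : ∀ φ ∈ MC n, ∀ (N T : List (F n)) (y : F n), tX n = N ++ y :: T →
      (ρ '' (Subgroup.closure {φ (FreeGroup.of 0 * N.prod), φ y} : Subgroup (F n))).Finite ∧
      (ρ '' (Subgroup.closure {φ N.prod, φ y} : Subgroup (F n))).Finite) :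
    {χ : F n → ℂ | ∃ φ ∈ MC n, ∃ σ : RingAut ℂ,
      χ = fun w => σ (ρ (φ w) : Matrix (Fin r) (Fin r) ℂ).trace}.Finite := by
  have hq : ∀ (u v w : F n), (ρ '' (Subgroup.closure {u, v} : Subgroup (F n))).Finite →
      w ∈ (Subgroup.closure {u, v} : Subgroup (F n)) → Quasi (ρ w) := by
    intro u v w hf hw
    exact quasi_of_finite _ _ hf fun k => ⟨w ^ k, Subgroup.pow_mem _ hw k, map_pow ρ w k⟩
  refine thm_orb n r ρ h1 (fun φ hφ => ?_) (fun φ hφ N T hT => ?_) fun φ hφ y y' T hT => ?_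
  · obtain ⟨y, T, hT⟩ := Pan_ne n
    have h3 := (h2 φ hφ [] T y hT).1
    rw [List.prod_nil, mul_one] at h3
    exact hq _ _ _ h3 (Subgroup.subset_closure (Set.mem_insert _ _))
  · rcases List.eq_nil_or_concat N with rfl | ⟨N', y, rfl⟩
    · obtain ⟨y, T, hT⟩ := Pan_ne n
      have h3 := (h2 φ hφ [] T y hT).2
      exact hq _ _ _ h3 (Subgroup.subset_closure (Set.mem_insert _ _))
    · rw [List.concat_eq_append] at hT ⊢
      have h3 := (h2 φ hφ N' T y (by simpa using hT)).2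
      refine hq _ _ _ h3 ?_
      rw [List.prod_append, List.prod_singleton, map_mul]
      exact Subgroup.mul_mem _ (Subgroup.subset_closure (Set.mem_insert _ _))
        (Subgroup.subset_closure (Set.mem_insert_of_mem _ (Set.mem_singleton _)))
  · have h3 := (h2 φ hφ [y] T y' (by simpa using hT)).2
    rwa [List.prod_singleton] at h3

end Pool.Agent.TRS
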