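import Pool.Agent.TRS.St2

/-!
# TRS module C1T: one puncture, the traces are cyclotomic integers
-/

set_option autoImplicit false

namespace Pool.Agent.TRS

open Matrix Pool.Agent.HZ Pool.Agent.PRS

private theorem tX_zero : tX 0 = [1⁻¹ * ((FreeGroup.of 0 : F 0)⁻¹ * (FreeGroup.of 1)⁻¹ *
    (FreeGroup.of 0 * FreeGroup.of 1))] := by
  simp [tX, tY]

private theorem one_mem_MC : (1 : MulAut (F 0)) ∈ MC 0 := fun y hy => ⟨y, hy, IsConj.refl _⟩

private theorem cl_top : cl (FreeGroup.of 0 : F 0) (FreeGroup.of 1) (tX 0) = ⊤ := by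
  rw [eq_top_iff, ← FreeGroup.closure_range_of, Subgroup.closure_le]
  rintro _ ⟨i, rfl⟩
  fin_cases i
  · exact cl_a _ _ _
  · exact cl_b _ _ _

/-- elements of the group of a reachable pair -/
private theorem pair_root {r : ℕ} {ρ : F 0 →* GL (Fin r) ℂ} (hT : TH 0 r ρ) {M : ℕ}
    (hexp : ∀ h ∈ ρ.range, ∀ z : ℂ, (h : Matrix (Fin r) (Fin r) ℂ).charpoly.IsRoot z →
      (∃ n > 0, z ^ n = 1) → z ^ M = 1) {φ : MulAut (F 0)} (hφ : φ ∈ MC 0) {x : F 0}
    (hx : tX 0 = [x]) {g : F 0}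
    (hg : g ∈ (Subgroup.closure {φ (FreeGroup.of 0), φ x} : Subgroup (F 0))) :
    ∀ z : ℂ, (ρ g : Matrix (Fin r) (Fin r) ℂ).charpoly.IsRoot z → z ^ M = 1 := by
  intro z hz
  refine hexp _ ⟨g, rfl⟩ z hz ?_
  refine quasi_of_finite (ρ g) _ (hT.pa φ hφ x [] hx) (fun k => ?_) z hz
  exact ⟨g ^ k, Subgroup.pow_mem _ hg k, map_pow ρ g k⟩

theorem thm_C1T (hWrd : St_Wrd) (hAut : St_Aut) (hLam : St_Lam) : St_C1T := by
  intro r ρ hT
  obtain ⟨M, hM, hexp⟩ := exists_exponent ρ.range (range_fg ρ)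
  refine ⟨M, hM, fun w => ?_⟩
  obtain ⟨lam, hconj, hlam⟩ := hLam
  set S : Subring ℂ := (Algebra.adjoin ℤ {x : ℂ | x ^ M = 1}).toSubring with hS
  have hmem : ∀ x : ℂ, x ^ M = 1 → x ∈ S := fun x hx => Algebra.subset_adjoin hx
  have hinv : ∀ x : ℂ, x ^ M = 1 → x⁻¹ ∈ S := fun x hx => hmem _ (by rw [inv_pow, hx, inv_one])
  let ρ' : F 0 →* Matrix (Fin r) (Fin r) ℂ := (Units.coeHom _).comp ρ
  have hρ' : ∀ y, ρ' y = (ρ y : Matrix (Fin r) (Fin r) ℂ) := fun y => rfl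
  obtain ⟨x, hx⟩ : ∃ x : F 0, tX 0 = [x] := ⟨_, tX_zero⟩
  have hrel : (FreeGroup.of 0 : F 0) * FreeGroup.of 1 =
      FreeGroup.of 1 * FreeGroup.of 0 * (tX 0).prod := by
    rw [tX_zero, List.prod_singleton]
    group
  have hlett : ∀ y ∈ tX 0, Lt S ρ' (fun y => (lam r (ρ y))⁻¹) (fun y => lam r (ρ y))
      (fun y => 1 + ((lam r (ρ y))⁻¹ • (ρ y : Matrix (Fin r) (Fin r) ℂ) - 1).trace)
      (fun y => (1 + ((lam r (ρ y))⁻¹ • (ρ y : Matrix (Fin r) (Fin r) ℂ) - 1).trace)⁻¹) y := by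
    intro y hy
    obtain ⟨h1, h2, h3, h4⟩ := hlam r (ρ y) (hT.pr y hy)
    have hyx : y = x := by
      rw [hx, List.mem_singleton] at hy
      exact hy
    obtain ⟨h5, h6⟩ := h4 M (pair_root hT hexp one_mem_MC hx (g := y) (by
      rw [hyx]
      exact Subgroup.subset_closure (by simp)))
    refine ⟨⟨hinv _ h5, hmem _ h5, hmem _ h6, hinv _ h6⟩,
      ⟨inv_mul_cancel₀ h1, mul_inv_cancel₀ h2⟩, ?_, ?_⟩
    · rw [el, hρ', add_sub_cancel_left]
    · intro X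
      exact h3 X
  have hDT : DT S ρ' (fun y => (lam r (ρ y))⁻¹) (FreeGroup.of 0 : F 0) (FreeGroup.of 1) (tX 0) := by
    intro y hy y' hy'
    rw [hx, List.mem_singleton] at hy hy'
    rw [hy, hy']
    exact Or.inl rfl
  have hKG : ∀ u v, TR (FreeGroup.of 0 : F 0) (FreeGroup.of 1) (tX 0) u v (tX 0) →
      KG S ρ' u (tX 0) := by
    intro u v huv g hg
    obtain ⟨ψ, hψ, e0, -, e2⟩ := hAut 0 u v (tX 0) huv
    have e3 : ψ x = x := by
      rw [hx, List.map_cons, List.map_nil] at e2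
      exact List.singleton_injective e2
    have hg' : g ∈ (Subgroup.closure {ψ (FreeGroup.of 0), ψ x} : Subgroup (F 0)) := by
      rw [e0, e3]
      refine (Subgroup.closure_mono ?_) hg
      rintro y (hy | hy)
      · exact Or.inl hy
      · rw [Set.mem_ofPred_eq, hx, List.mem_singleton] at hy
        exact Or.inr hy
    rw [hρ']
    exact trace_mem _ S fun z hz => hmem z (pair_root hT hexp hψ hx hg' z hz)
  have h := hWrd ℂ (F 0) r S ρ' _ _ _ _ (FreeGroup.of 0) (FreeGroup.of 1) (tX 0) hrel hlett hDT hKG w (by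
    rw [cl_top]
    exact Subgroup.mem_top w)
  exact h

end Pool.Agent.TRS
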