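import Pool.Agent.PRS.XB
import Pool.Agent.PRS.Rk
import Pool.Agent.PRS.Ent

/-!
# Systems of pseudo-reflections on punctured tori: tuples and moves

Helper15, helper20, for MP_0707f5_ag.  Tuples `(a, b; L)` of elements of a group with
`a * b = b * a * L.prod`: `a, b` are the handle generators and the entries of `L` the punctures of a
torus with `L.length` punctures.  `TR a₀ b₀ L₀ a b L`: the tuple is obtained from the first one by
braid moves of the punctures, Dehn twists of the handle and pushes of punctures around the handle.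
-/

set_option autoImplicit false

namespace Pool.Agent.TRS

open Matrix Pool.Agent.HZ Pool.Agent.PRS

/-- tuples reachable from `(a₀, b₀; L₀)` -/
inductive TR {G : Type} [Group G] (a₀ b₀ : G) (L₀ : List G) : G → G → List G → Prop
  | refl : TR a₀ b₀ L₀ a₀ b₀ L₀
  | move {a b : G} {L L' : List G} : TR a₀ b₀ L₀ a b L → BMove L L' → TR a₀ b₀ L₀ a b L'
  | twa {a b : G} {L : List G} (k : ℤ) : TR a₀ b₀ L₀ a b L → TR a₀ b₀ L₀ a (a ^ k * b) L
  | twb {a b : G} {L : List G} (k : ℤ) : TR a₀ b₀ L₀ a b L → TR a₀ b₀ L₀ (b ^ k * a) b L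
  | sl {a b y : G} {M : List G} : TR a₀ b₀ L₀ a b (y :: M) →
      TR a₀ b₀ L₀ (a * y) b (M ++ [b⁻¹ * y * b])
  | ls {a b y : G} {M : List G} : TR a₀ b₀ L₀ a b (M ++ [y]) →
      TR a₀ b₀ L₀ (a * (b * y⁻¹ * b⁻¹)) b (b * y * b⁻¹ :: M)

section tr
variable {G : Type} [Group G] {a₀ b₀ : G} {L₀ : List G}

theorem TR.trans {a b a' b' : G} {L L' : List G} (h : TR a₀ b₀ L₀ a b L) (h' : TR a b L a' b' L') :
    TR a₀ b₀ L₀ a' b' L' := by
  induction h' with
  | refl => exact h
  | move _ hm ih => exact ih.move hm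
  | twa k _ ih => exact ih.twa k
  | twb k _ ih => exact ih.twb k
  | sl _ ih => exact ih.sl
  | ls _ ih => exact ih.ls

theorem TR.reach {a b : G} {L L' : List G} (h : TR a₀ b₀ L₀ a b L) (h' : BReach L L') :
    TR a₀ b₀ L₀ a b L' := by
  induction h' with
  | refl => exact h
  | tail _ hs ih => exact ih.move hs

theorem TR.length {a b : G} {L : List G} (h : TR a₀ b₀ L₀ a b L) : L.length = L₀.length := by
  induction h with
  | refl => rfl
  | move _ hm ih => rw [hm.length_eq, ih]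
  | twa k _ ih => exact ih
  | twb k _ ih => exact ih
  | sl _ ih => simpa using ih
  | ls _ ih => simpa using ih

/-- the relation of the torus -/
theorem TR.rel {a b : G} {L : List G} (h : TR a₀ b₀ L₀ a b L)
    (h0 : a₀ * b₀ = b₀ * a₀ * L₀.prod) : a * b = b * a * L.prod := by
  induction h with
  | refl => exact h0
  | move _ hm ih => rw [hm.prod_eq, ih]
  | @twa a b L k _ ih =>
    have h1 : L.prod = a⁻¹ * b⁻¹ * (a * b) := by rw [ih]; group
    rw [h1]
    have h2 : a * a ^ k = a ^ k * a := by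
      rw [← _root_.zpow_one_add, add_comm, _root_.zpow_add_one]
    calc a * (a ^ k * b) = a ^ k * (a * b) := by rw [← mul_assoc, h2, mul_assoc]
      _ = a ^ k * b * a * (a⁻¹ * b⁻¹ * (a * b)) := by group
  | @twb a b L k _ ih =>
    have h1 : L.prod = a⁻¹ * b⁻¹ * (a * b) := by rw [ih]; group
    rw [h1]
    have h2 : b * b ^ k = b ^ k * b := by
      rw [← _root_.zpow_one_add, add_comm, _root_.zpow_add_one]
    calc b ^ k * a * b = b ^ k * (b * a) * (a⁻¹ * b⁻¹ * (a * b)) := by group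
      _ = b * (b ^ k * a) * (a⁻¹ * b⁻¹ * (a * b)) := by
        rw [← mul_assoc (b ^ k) b a, ← h2]
        simp only [mul_assoc]
  | @sl a b y M _ ih =>
    rw [List.prod_cons] at ih
    have h1 : M.prod = y⁻¹ * (a⁻¹ * b⁻¹ * (a * b)) := by rw [ih]; group
    rw [List.prod_append, List.prod_singleton, h1]
    group
  | @ls a b y M _ ih =>
    rw [List.prod_append, List.prod_singleton] at ih
    have h1 : M.prod = (a⁻¹ * b⁻¹ * (a * b)) * y⁻¹ := by rw [ih]; group
    rw [List.prod_cons, h1]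
    group

/-- the rotation of the torus -/
theorem TR.rot {a b : G} {L : List G} (h : TR a₀ b₀ L₀ a b L) :
    TR a₀ b₀ L₀ (a⁻¹ * b * a) a⁻¹ L := by
  have h1 := ((h.twa (-1)).twb 1).twa (-1)
  have e1 : (a ^ (-1 : ℤ) * b) ^ (1 : ℤ) * a = a⁻¹ * b * a := by
    rw [_root_.zpow_one, _root_.zpow_neg_one]
  rw [e1] at h1
  have e2 : (a⁻¹ * b * a) ^ (-1 : ℤ) * (a ^ (-1 : ℤ) * b) = a⁻¹ := by
    rw [_root_.zpow_neg_one, _root_.zpow_neg_one]
    group
  rwa [e2] at h1

theorem TR.rot' {a b : G} {L : List G} (h : TR a₀ b₀ L₀ a b L) :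
    TR a₀ b₀ L₀ b⁻¹ (b⁻¹ * a * b) L := by
  have h1 := ((h.twb (-1)).twa 1).twb (-1)
  have e1 : (b ^ (-1 : ℤ) * a) ^ (1 : ℤ) * b = b⁻¹ * a * b := by
    rw [_root_.zpow_one, _root_.zpow_neg_one]
  rw [e1] at h1
  have e2 : (b⁻¹ * a * b) ^ (-1 : ℤ) * (b ^ (-1 : ℤ) * a) = b⁻¹ := by
    rw [_root_.zpow_neg_one, _root_.zpow_neg_one]
    group
  rwa [e2] at h1

/-- pushes of one puncture along `a` -/
theorem TR.sla {a b y : G} {M : List G} (h : TR a₀ b₀ L₀ a b (y :: M)) :
    TR a₀ b₀ L₀ a (b * (a * y * a⁻¹)) (M ++ [a * y * a⁻¹]) := by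
  have h1 := h.rot.sl.rot'
  have e1 : (a⁻¹)⁻¹ * y * a⁻¹ = a * y * a⁻¹ := by rw [inv_inv]
  have e2 : (a⁻¹)⁻¹ * (a⁻¹ * b * a * y) * a⁻¹ = b * (a * y * a⁻¹) := by group
  rw [e1, e2, inv_inv] at h1
  exact h1

theorem TR.lsa {a b y : G} {M : List G} (h : TR a₀ b₀ L₀ a b (M ++ [y])) :
    TR a₀ b₀ L₀ a (b * y⁻¹) (a⁻¹ * y * a :: M) := by
  have h1 := h.rot.ls.rot'
  have e1 : a⁻¹ * y * (a⁻¹)⁻¹ = a⁻¹ * y * a := by rw [inv_inv]
  have e2 : (a⁻¹)⁻¹ * (a⁻¹ * b * a * (a⁻¹ * y⁻¹ * (a⁻¹)⁻¹)) * a⁻¹ = b * y⁻¹ := by group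
  rw [e1, e2, inv_inv] at h1
  exact h1

/-- pushes of blocks of punctures, four directions -/
theorem TR.blockS1 {a b : G} {A M : List G} (h : TR a₀ b₀ L₀ a b (A ++ M)) :
    TR a₀ b₀ L₀ a (b * (A.map fun y => a * y * a⁻¹).prod) (M ++ A.map fun y => a * y * a⁻¹) := by
  induction A generalizing b M with
  | nil => simpa using h
  | cons y A ih =>
    have h1 := TR.sla (M := A ++ M) (by simpa using h)
    rw [List.append_assoc] at h1
    have h2 := ih h1
    simpa [mul_assoc] using h2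

theorem TR.blockS2 {a b : G} {A M : List G} (h : TR a₀ b₀ L₀ a b (M ++ A)) :
    TR a₀ b₀ L₀ a (b * A.prod⁻¹) ((A.map fun y => a⁻¹ * y * a) ++ M) := by
  induction A using List.reverseRecOn generalizing b M with
  | nil => simpa using h
  | append_singleton A y ih =>
    rw [← List.append_assoc] at h
    have h1 := TR.lsa h
    have h2 := ih (b := b * y⁻¹) (M := a⁻¹ * y * a :: M) (by simpa using h1)
    simpa [mul_assoc] using h2

theorem TR.blockS3 {a b : G} {A M : List G} (h : TR a₀ b₀ L₀ a b (M ++ A)) :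
    TR a₀ b₀ L₀ (a * (A.map fun y => b * y * b⁻¹).prod⁻¹) b
      ((A.map fun y => b * y * b⁻¹) ++ M) := by
  induction A using List.reverseRecOn generalizing a M with
  | nil => simpa using h
  | append_singleton A y ih =>
    rw [← List.append_assoc] at h
    have h1 := TR.ls h
    have h2 := ih (a := a * (b * y⁻¹ * b⁻¹)) (M := b * y * b⁻¹ :: M) (by simpa using h1)
    simpa [mul_assoc] using h2

theorem TR.blockS4 {a b : G} {A M : List G} (h : TR a₀ b₀ L₀ a b (A ++ M)) :
    TR a₀ b₀ L₀ (a * A.prod) b (M ++ A.map fun y => b⁻¹ * y * b) := by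
  induction A generalizing a M with
  | nil => simpa using h
  | cons y A ih =>
    have h1 := TR.sl (M := A ++ M) (by simpa using h)
    rw [List.append_assoc] at h1
    have h2 := ih h1
    simpa [mul_assoc] using h2

/-- the twist around `a * y` -/
theorem TR.ann {a b y : G} {M : List G} (h : TR a₀ b₀ L₀ a b (y :: M)) (k : ℤ) :
    TR a₀ b₀ L₀ ((a * y) ^ k * a * ((a * y) ^ k)⁻¹) ((a * y) ^ k * b)
      ((a * y) ^ k * y * ((a * y) ^ k)⁻¹ :: M) := by
  have h1 := (h.sl.twa k).ls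
  have e1 : (a * y) ^ k * b * (b⁻¹ * y * b) * ((a * y) ^ k * b)⁻¹ =
      (a * y) ^ k * y * ((a * y) ^ k)⁻¹ := by group
  have e2 : a * y * ((a * y) ^ k * b * (b⁻¹ * y * b)⁻¹ * ((a * y) ^ k * b)⁻¹) =
      (a * y) ^ k * a * ((a * y) ^ k)⁻¹ := by
    have e3 : a * y * (a * y) ^ k = (a * y) ^ k * (a * y) := by
      rw [← _root_.zpow_one_add, add_comm, _root_.zpow_add_one]
    calc a * y * ((a * y) ^ k * b * (b⁻¹ * y * b)⁻¹ * ((a * y) ^ k * b)⁻¹)
        = (a * y * (a * y) ^ k) * y⁻¹ * ((a * y) ^ k)⁻¹ := by group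
      _ = (a * y) ^ k * a * ((a * y) ^ k)⁻¹ := by rw [e3]; group
  rw [e1, e2] at h1
  exact h1

/-- the moves of the annulus -/
theorem TR.rch {a b : G} {L : List G} (h : TR a₀ b₀ L₀ a b L) {a' : G} {L' : List G}
    (h' : Rch a L a' L') : ∃ b', TR a₀ b₀ L₀ a' b' L' := by
  induction h' with
  | refl => exact ⟨b, h⟩
  | move _ hm ih =>
    obtain ⟨b', hb⟩ := ih
    exact ⟨b', hb.move hm⟩
  | @twist a' y M _ ih =>
    obtain ⟨b', hb⟩ := ih
    have h1 := hb.ann 1
    rw [_root_.zpow_one] at h1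
    exact ⟨_, h1⟩
  | @untwist a' y M _ ih =>
    obtain ⟨b', hb⟩ := ih
    have h1 := hb.ann (-1)
    rw [_root_.zpow_neg_one, inv_inv] at h1
    exact ⟨_, h1⟩

/-- the letters are conjugates of the first letters -/
theorem TR.conj {a b : G} {L : List G} (h : TR a₀ b₀ L₀ a b L) :
    ∀ y ∈ L, ∃ x ∈ L₀, ∃ g : G, y = g⁻¹ * x * g := by
  induction h with
  | refl => exact fun y hy => ⟨y, hy, 1, by group⟩
  | move _ hm ih =>
    intro y hy
    obtain ⟨x, hx, g, rfl⟩ := move_conj hm y hy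
    obtain ⟨u, hu, k, rfl⟩ := ih x hx
    exact ⟨u, hu, k * g, by group⟩
  | twa k _ ih => exact ih
  | twb k _ ih => exact ih
  | @sl a b y M _ ih =>
    intro x hx
    rcases List.mem_append.1 hx with hx | hx
    · exact ih x (List.mem_cons_of_mem _ hx)
    · rw [List.mem_singleton] at hx
      subst hx
      obtain ⟨u, hu, k, e⟩ := ih y List.mem_cons_self
      exact ⟨u, hu, k * b, by rw [e]; group⟩
  | @ls a b y M _ ih =>
    intro x hx
    rcases List.mem_cons.1 hx with rfl | hx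
    · obtain ⟨u, hu, k, e⟩ := ih y (by simp)
      exact ⟨u, hu, k * b⁻¹, by rw [e]; group⟩
    · exact ih x (List.mem_append_left _ hx)

/-- images under homomorphisms -/
theorem TR.map {H : Type} [Group H] (f : G →* H) {a b : G} {L : List G}
    (h : TR a₀ b₀ L₀ a b L) : TR (f a₀) (f b₀) (L₀.map f) (f a) (f b) (L.map f) := by
  induction h with
  | refl => exact TR.refl
  | move _ hm ih => exact ih.move (hm.map f)
  | twa k _ ih => simpa using ih.twa k
  | twb k _ ih => simpa using ih.twb k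
  | @sl a b y M _ ih =>
    have h1 := TR.sl (y := f y) (M := M.map f) (by simpa using ih)
    simpa using h1
  | @ls a b y M _ ih =>
    have h1 := TR.ls (y := f y) (M := M.map f) (by simpa using ih)
    simpa using h1

/-- the group of a tuple -/
def cl (a b : G) (L : List G) : Subgroup G := Subgroup.closure ({a, b} ∪ {x | x ∈ L})

theorem cl_a (a b : G) (L : List G) : a ∈ cl a b L := Subgroup.subset_closure (Or.inl (Or.inl rfl))

theorem cl_b (a b : G) (L : List G) : b ∈ cl a b L := Subgroup.subset_closure (Or.inl (Or.inr rfl))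

theorem cl_L (a b : G) {L : List G} {y : G} (h : y ∈ L) : y ∈ cl a b L :=
  Subgroup.subset_closure (Or.inr h)

theorem cl_le {a b : G} {L : List G} {H : Subgroup G} (ha : a ∈ H) (hb : b ∈ H)
    (hL : ∀ y ∈ L, y ∈ H) : cl a b L ≤ H := by
  unfold cl
  rw [Subgroup.closure_le]
  rintro x ((rfl | hx) | hx)
  · exact ha
  · rw [Set.mem_singleton_iff.1 hx]
    exact hb
  · exact hL x hx

/-- the moves do not change the group -/
theorem TR.cl_eq {a b : G} {L : List G} (h : TR a₀ b₀ L₀ a b L) : cl a b L = cl a₀ b₀ L₀ := by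
  induction h with
  | refl => rfl
  | @move a b L L' _ hm ih =>
    rw [← ih]
    have h1 : Subgroup.closure {x | x ∈ L'} = Subgroup.closure {x | x ∈ L} :=
      (BReach.of_move hm).closure_eq
    unfold cl
    rw [Subgroup.closure_union, Subgroup.closure_union, h1]
  | @twa a b L k _ ih =>
    rw [← ih]
    apply le_antisymm
    · exact cl_le (cl_a _ _ _) (Subgroup.mul_mem _ (Subgroup.zpow_mem _ (cl_a _ _ _) k) (cl_b _ _ _))
        fun y hy => cl_L _ _ hy
    · refine cl_le (cl_a _ _ _) ?_ fun y hy => cl_L _ _ hy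
      have h1 := Subgroup.mul_mem _ (Subgroup.inv_mem _ (Subgroup.zpow_mem _
        (cl_a a (a ^ k * b) L) k)) (cl_b a (a ^ k * b) L)
      rwa [inv_mul_cancel_left] at h1
  | @twb a b L k _ ih =>
    rw [← ih]
    apply le_antisymm
    · exact cl_le (Subgroup.mul_mem _ (Subgroup.zpow_mem _ (cl_b _ _ _) k) (cl_a _ _ _))
        (cl_b _ _ _) fun y hy => cl_L _ _ hy
    · refine cl_le ?_ (cl_b _ _ _) fun y hy => cl_L _ _ hy
      have h1 := Subgroup.mul_mem _ (Subgroup.inv_mem _ (Subgroup.zpow_mem _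
        (cl_b (b ^ k * a) b L) k)) (cl_a (b ^ k * a) b L)
      rwa [inv_mul_cancel_left] at h1
  | @sl a b y M _ ih =>
    rw [← ih]
    apply le_antisymm
    · refine cl_le (Subgroup.mul_mem _ (cl_a _ _ _) (cl_L _ _ List.mem_cons_self)) (cl_b _ _ _) ?_
      intro x hx
      rcases List.mem_append.1 hx with hx | hx
      · exact cl_L _ _ (List.mem_cons_of_mem _ hx)
      · rw [List.mem_singleton.1 hx]
        exact Subgroup.mul_mem _ (Subgroup.mul_mem _ (Subgroup.inv_mem _ (cl_b _ _ _))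
          (cl_L _ _ List.mem_cons_self)) (cl_b _ _ _)
    · have hy : y ∈ cl (a * y) b (M ++ [b⁻¹ * y * b]) := by
        have h1 := Subgroup.mul_mem _ (Subgroup.mul_mem _ (cl_b (a * y) b (M ++ [b⁻¹ * y * b]))
          (cl_L (a * y) b (L := M ++ [b⁻¹ * y * b]) (y := b⁻¹ * y * b) (by simp)))
          (Subgroup.inv_mem _ (cl_b (a * y) b (M ++ [b⁻¹ * y * b])))
        have e : b * (b⁻¹ * y * b) * b⁻¹ = y := by group
        rwa [e] at h1
      refine cl_le ?_ (cl_b _ _ _) ?_
      · have h1 := Subgroup.mul_mem _ (cl_a (a * y) b (M ++ [b⁻¹ * y * b]))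
          (Subgroup.inv_mem _ hy)
        rwa [mul_inv_cancel_right] at h1
      · intro x hx
        rcases List.mem_cons.1 hx with rfl | hx
        · exact hy
        · exact cl_L _ _ (List.mem_append_left _ hx)
  | @ls a b y M _ ih =>
    rw [← ih]
    apply le_antisymm
    · have hy : b * y * b⁻¹ ∈ cl a b (M ++ [y]) := Subgroup.mul_mem _ (Subgroup.mul_mem _
        (cl_b _ _ _) (cl_L _ _ (by simp))) (Subgroup.inv_mem _ (cl_b _ _ _))
      refine cl_le ?_ (cl_b _ _ _) ?_
      · have h1 := Subgroup.mul_mem _ (cl_a a b (M ++ [y])) (Subgroup.inv_mem _ hy)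
        have e : a * (b * y * b⁻¹)⁻¹ = a * (b * y⁻¹ * b⁻¹) := by group
        rwa [e] at h1
      · intro x hx
        rcases List.mem_cons.1 hx with rfl | hx
        · exact hy
        · exact cl_L _ _ (List.mem_append_left _ hx)
    · have hy' : b * y * b⁻¹ ∈ cl (a * (b * y⁻¹ * b⁻¹)) b (b * y * b⁻¹ :: M) :=
        cl_L _ _ List.mem_cons_self
      refine cl_le ?_ (cl_b _ _ _) ?_
      · have h1 := Subgroup.mul_mem _ (cl_a (a * (b * y⁻¹ * b⁻¹)) b (b * y * b⁻¹ :: M)) hy'
        have e : a * (b * y⁻¹ * b⁻¹) * (b * y * b⁻¹) = a := by group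
        rwa [e] at h1
      · intro x hx
        rcases List.mem_append.1 hx with hx | hx
        · exact cl_L _ _ (List.mem_cons_of_mem _ hx)
        · rw [List.mem_singleton.1 hx]
          have h1 := Subgroup.mul_mem _ (Subgroup.mul_mem _ (Subgroup.inv_mem _
            (cl_b (a * (b * y⁻¹ * b⁻¹)) b (b * y * b⁻¹ :: M))) hy')
            (cl_b (a * (b * y⁻¹ * b⁻¹)) b (b * y * b⁻¹ :: M))
          have e : b⁻¹ * (b * y * b⁻¹) * b = y := by group
          rwa [e] at h1

end tr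

end Pool.Agent.TRS
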