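import Pool.Agent.TRS.Defs

/-!
# Systems of pseudo-reflections on punctured tori: statements, first part

Helper15, helper20, for MP_0707f5_ag.  The S-theorem: let `ρ` be a representation over a commutative
ring `R` and `S` a subring in which all nonzero elements of `S` are invertible.  If the data of the
reachable tuples `(a, b; L)` are in `S`, then all traces are in `S`.
The proofs are in the docstrings; `L.prod = a⁻¹ b⁻¹ a b`, i.e. `a b = b a P`, `P = L.prod`, so
`a⁻¹ b = b P⁻¹ a⁻¹`, `b⁻¹ a = a P b⁻¹`, `b⁻¹ a⁻¹ = P⁻¹ a⁻¹ b⁻¹`.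
-/

set_option autoImplicit false
set_option linter.unusedSectionVars false

namespace Pool.Agent.TRS

open Matrix Pool.Agent.HZ Pool.Agent.PRS

section defs
variable {R : Type} [CommRing R] {G : Type} [Group G] {r : ℕ}

/-- the hypotheses of the S-theorem -/
structure SysT (S : Subring R) (ρ : G →* Matrix (Fin r) (Fin r) R) (a₀ b₀ : G) (L₀ : List G)
    (c c' z z' : G → R) : Prop where
  rel : a₀ * b₀ = b₀ * a₀ * L₀.prod
  conj : ∀ a b, c (b⁻¹ * a * b) = c a
  lett : ∀ a b L, TR a₀ b₀ L₀ a b L → ∀ y ∈ L, Lt S ρ c c' z z' y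
  loops : ∀ a b N T, TR a₀ b₀ L₀ a b (N ++ T) →
    (∀ k : ℤ, (ρ (a ^ k)).trace ∈ S) ∧ (ρ N.prod).trace ∈ S
  fld : ∀ s ∈ S, s ≠ 0 → ∃ t ∈ S, s * t = 1
  nat : ∀ m : ℕ, 0 < m → ∃ t ∈ S, (m : R) * t = 1
  par : ∀ a b y y' L, TR a₀ b₀ L₀ a b (y :: y' :: L) → (el ρ c y * el ρ c y').trace = 0 →
    el ρ c y * el ρ c y' = 0 ∧ el ρ c y' * el ρ c y = 0
  irr : ∀ a b L, TR a₀ b₀ L₀ a b L → ∀ y ∈ L, ∀ y' ∈ L, el ρ c y ≠ 0 → el ρ c y' ≠ 0 →
    ∃ g ∈ cl a b L, el ρ c y * ρ g * el ρ c y' ≠ 0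

/-- products of rank one parts -/
def ew (ρ : G →* Matrix (Fin r) (Fin r) R) (c : G → R) (E : List G) : Matrix (Fin r) (Fin r) R :=
  (E.map (el ρ c)).prod

/-- the letters `a, a⁻¹, b, b⁻¹` -/
def gl (a b : G) : Bool × Bool → G
  | (true, true) => a
  | (true, false) => a⁻¹
  | (false, true) => b
  | (false, false) => b⁻¹

/-- words in `a, b` -/
def gw (a b : G) (w : List (Bool × Bool)) : G := (w.map (gl a b)).prod

/-- symbols: the letters `a, a⁻¹, b, b⁻¹` and rank one parts -/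
inductive Sy (G : Type)
  | g (s : Bool × Bool)
  | e (y : G)

/-- the matrix of a symbol -/
def sv (ρ : G →* Matrix (Fin r) (Fin r) R) (c : G → R) (a b : G) : Sy G → Matrix (Fin r) (Fin r) R
  | Sy.g s => ρ (gl a b s)
  | Sy.e y => el ρ c y

/-- the matrix of a word -/
def wv (ρ : G →* Matrix (Fin r) (Fin r) R) (c : G → R) (a b : G) (w : List (Sy G)) :
    Matrix (Fin r) (Fin r) R := (w.map (sv ρ c a b)).prod

/-- is a group letter -/
def Sy.isG : Sy G → Bool
  | Sy.g _ => true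
  | Sy.e _ => false

/-- the number of group letters -/
def gn (w : List (Sy G)) : ℕ := w.countP Sy.isG

/-- the rank one parts in the word belong to entries of `L` -/
def InL (L : List G) (w : List (Sy G)) : Prop := ∀ y, Sy.e y ∈ w → y ∈ L

/-- the traces of the words with at most `n` group letters are in `S` -/
def PP (S : Subring R) (ρ : G →* Matrix (Fin r) (Fin r) R) (c : G → R) (L : List G) (n : ℕ)
    (a b : G) : Prop := ∀ w : List (Sy G), InL L w → gn w ≤ n → (wv ρ c a b w).trace ∈ S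

/-- one run: the traces of `E g`, `E` a nonempty product of rank one parts -/
def QQ (S : Subring R) (ρ : G →* Matrix (Fin r) (Fin r) R) (c : G → R) (L : List G)
    (a b : G) (g : List (Bool × Bool)) : Prop :=
  ∀ E : List G, E ≠ [] → (∀ y ∈ E, y ∈ L) → (ew ρ c E * ρ (gw a b g)).trace ∈ S

/-- linked letters -/
def Lk (S : Subring R) (ρ : G →* Matrix (Fin r) (Fin r) R) (c : G → R) (L : List G) (y y' : G) :
    Prop := ∃ W W' : List G, (∀ x ∈ W, x ∈ L) ∧ (∀ x ∈ W', x ∈ L) ∧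
      ∃ t ∈ S, t * (el ρ c y * ew ρ c W * el ρ c y' * ew ρ c W').trace = 1

/-- the dichotomy for the letters of a tuple -/
def DT (S : Subring R) (ρ : G →* Matrix (Fin r) (Fin r) R) (c : G → R) (a b : G) (L : List G) :
    Prop := ∀ y ∈ L, ∀ y' ∈ L, el ρ c y = el ρ c y' ∨ Lk S ρ c L y y' ∨
      ∀ g ∈ cl a b L, el ρ c y * ρ g * el ρ c y' = 0

/-- connected lists of letters: every letter meets an earlier one -/
inductive Cn (ρ : G →* Matrix (Fin r) (Fin r) R) (c : G → R) : List G → Prop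
  | one {y : G} : el ρ c y ≠ 0 → Cn ρ c [y]
  | snoc {C : List G} {y : G} : Cn ρ c C → (∃ x ∈ C, (el ρ c x * el ρ c y).trace ≠ 0) →
      Cn ρ c (C ++ [y])

/-- a connected beginning of maximal length among all reachable tuples -/
def Mxc (ρ : G →* Matrix (Fin r) (Fin r) R) (c : G → R) (a₀ b₀ : G) (L₀ : List G) (a b : G)
    (C M : List G) : Prop :=
  TR a₀ b₀ L₀ a b (C ++ M) ∧ Cn ρ c C ∧
    ∀ a' b' C' M', TR a₀ b₀ L₀ a' b' (C' ++ M') → Cn ρ c C' → C'.length ≤ C.length

end defs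

/-! ### basic lemmas -/

section basic
variable {R : Type} [CommRing R] {G : Type} [Group G] {r : ℕ}
  (ρ : G →* Matrix (Fin r) (Fin r) R) (c : G → R) (a b : G)

theorem gw_nil : gw a b [] = 1 := rfl

theorem gw_cons (s : Bool × Bool) (w : List (Bool × Bool)) : gw a b (s :: w) = gl a b s * gw a b w := by
  simp [gw]

theorem gw_append (v w : List (Bool × Bool)) : gw a b (v ++ w) = gw a b v * gw a b w := by
  simp [gw]

theorem ew_nil : ew ρ c [] = 1 := rfl

theorem ew_cons (y : G) (E : List G) : ew ρ c (y :: E) = el ρ c y * ew ρ c E := by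
  simp [ew]

theorem ew_append (E E' : List G) : ew ρ c (E ++ E') = ew ρ c E * ew ρ c E' := by
  simp [ew]

theorem wv_nil : wv ρ c a b [] = 1 := rfl

theorem wv_cons (s : Sy G) (w : List (Sy G)) : wv ρ c a b (s :: w) = sv ρ c a b s * wv ρ c a b w := by
  simp [wv]

theorem wv_append (v w : List (Sy G)) : wv ρ c a b (v ++ w) = wv ρ c a b v * wv ρ c a b w := by
  simp [wv]

theorem sv_g (s : Bool × Bool) : sv ρ c a b (Sy.g s) = ρ (gl a b s) := rfl

theorem sv_e (y : G) : sv ρ c a b (Sy.e y) = el ρ c y := rfl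

theorem wv_map_e (E : List G) : wv ρ c a b (E.map Sy.e) = ew ρ c E := by
  rw [wv, ew, List.map_map]
  rfl

theorem wv_map_g (g : List (Bool × Bool)) : wv ρ c a b (g.map Sy.g) = ρ (gw a b g) := by
  rw [wv, gw, List.map_map, map_list_prod, List.map_map]
  rfl

theorem gn_nil : gn ([] : List (Sy G)) = 0 := rfl

theorem gn_append (v w : List (Sy G)) : gn (v ++ w) = gn v + gn w := List.countP_append

theorem gn_cons_g (s : Bool × Bool) (w : List (Sy G)) : gn (Sy.g s :: w) = gn w + 1 :=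
  List.countP_cons_of_pos rfl

theorem gn_cons_e (y : G) (w : List (Sy G)) : gn (Sy.e y :: w) = gn w := by
  simp [gn, Sy.isG]

theorem gn_map_e (E : List G) : gn (E.map Sy.e) = 0 := by
  induction E with
  | nil => rfl
  | cons y E ih => rw [List.map_cons, gn_cons_e, ih]

theorem gn_map_g (g : List (Bool × Bool)) : gn (g.map (Sy.g : Bool × Bool → Sy G)) = g.length := by
  induction g with
  | nil => rfl
  | cons y E ih => rw [List.map_cons, gn_cons_g, ih, List.length_cons]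

theorem InL_append {L : List G} {v w : List (Sy G)} : InL L (v ++ w) ↔ InL L v ∧ InL L w := by
  constructor
  · exact fun h => ⟨fun y hy => h y (List.mem_append_left _ hy),
      fun y hy => h y (List.mem_append_right _ hy)⟩
  · rintro ⟨h1, h2⟩ y hy
    rcases List.mem_append.1 hy with h | h
    · exact h1 y h
    · exact h2 y h

theorem InL_cons_g {L : List G} {s : Bool × Bool} {w : List (Sy G)} :
    InL L (Sy.g s :: w) ↔ InL L w := by
  simp [InL]

theorem InL_cons_e {L : List G} {y : G} {w : List (Sy G)} :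
    InL L (Sy.e y :: w) ↔ y ∈ L ∧ InL L w := by
  simp [InL, forall_eq_or_imp]

theorem InL_map_e {L E : List G} : InL L (E.map Sy.e) ↔ ∀ y ∈ E, y ∈ L := by
  simp [InL]

theorem InL_map_g {L : List G} (g : List (Bool × Bool)) : InL L (g.map Sy.g) := by
  simp [InL]

theorem gl_mem (L : List G) (s : Bool × Bool) : gl a b s ∈ cl a b L := by
  rcases s with ⟨_ | _, _ | _⟩
  · exact Subgroup.inv_mem _ (cl_b a b L)
  · exact cl_b a b L
  · exact Subgroup.inv_mem _ (cl_a a b L)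
  · exact cl_a a b L

theorem gw_mem (L : List G) (g : List (Bool × Bool)) : gw a b g ∈ cl a b L := by
  induction g with
  | nil => exact Subgroup.one_mem _
  | cons s g ih =>
    rw [gw_cons]
    exact Subgroup.mul_mem _ (gl_mem a b L s) ih

theorem Cn.mem_ne {ρ : G →* Matrix (Fin r) (Fin r) R} {c : G → R} {C : List G} (h : Cn ρ c C) :
    ∃ x ∈ C, el ρ c x ≠ 0 := by
  induction h with
  | one h => exact ⟨_, List.mem_singleton.2 rfl, h⟩
  | snoc _ _ ih =>
    obtain ⟨x, hx, h⟩ := ih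
    exact ⟨x, List.mem_append_left _ hx, h⟩

end basic

/-! ### the annuli -/

/-- **ANN**.  The traces of the annulus groups.
PROOF. `uq_of thm_Zz` (`PRS/FinX.lean`: `St_Uq`) for `(a; L)`.  `SysX`: if `RP a L a' N`,
`Rch a L a' (N ++ T)`, then `TR a₀ b₀ L₀ a' b' (N ++ T)` for some `b'` (`TR.rch`); the traces of
`(a' * N.prod) ^ k`: `TR.blockS4` gives a reachable tuple with first entry `a' * N.prod`, `loops` with
the empty beginning. -/
def St_Ann : Prop := ∀ (R : Type) [CommRing R] (G : Type) [Group G] (r : ℕ) (S : Subring R)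
    (ρ : G →* Matrix (Fin r) (Fin r) R) (a₀ b₀ : G) (L₀ : List G) (c c' z z' : G → R),
    SysT S ρ a₀ b₀ L₀ c c' z z' → ∀ a b L, TR a₀ b₀ L₀ a b L → KG S ρ a L

/-! ### the maximal connected beginning -/

/-- **PRP**.  The letters of `M` are orthogonal to those of `C`.
PROOF. If `tr (el x * el y) ≠ 0` with `x ∈ C`, `y ∈ M`, `M = M₁ ++ y :: M₂`: move `y` to the left over
`M₁` (`(u, y) → (y, y⁻¹ u y)`, `y` does not change), `C ++ [y]` is a longer connected beginning.  So
the traces are zero; `[x, y]` is a sublist of `C ++ M`, so `BReach (C ++ M) ([x, y] ++ B)`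
(`Pre.sublist`) and `par`. -/
def St_Prp : Prop := ∀ (R : Type) [CommRing R] (G : Type) [Group G] (r : ℕ) (S : Subring R)
    (ρ : G →* Matrix (Fin r) (Fin r) R) (a₀ b₀ : G) (L₀ : List G) (c c' z z' : G → R),
    SysT S ρ a₀ b₀ L₀ c c' z z' → ∀ a b C M, Mxc ρ c a₀ b₀ L₀ a b C M →
      ∀ x ∈ C, ∀ y ∈ M, el ρ c x * el ρ c y = 0 ∧ el ρ c y * el ρ c x = 0

/-- **SLD**.  The four slides of the block `C`.
PROOF. S1: `TR.blockS1` gives `TR a (b * C'.prod) (M ++ C')`, `C' = a C a⁻¹` entrywise.  Move `C'` to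
the left over `M`: the letters of `C'` do not change, `M` becomes `M' = M.map (Q⁻¹ * u * Q)`,
`Q = C'.prod`.  `Cn C'` (the rank one parts of `C'` are conjugate by `ρ a`, `el_cj`, the traces of
products do not change), and `C'` has the same length, so `Mxc` holds.  `St_Prp` for the new
tuple: with `u' = Q⁻¹ u Q`, `el u = ρ Q * el u' * ρ Q⁻¹ = el u'` since `el x * el u' = 0 = el u' * el x`
for `x ∈ C'` (so `ρ Q * el u' = κ • el u'`, `κ = ∏ c' x`, and `el u' * ρ Q⁻¹ = κ⁻¹ • el u'`).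
S2: move `C` to the right over `M` (`(x, u) → (x u x⁻¹, x)`): `M' = M.map (Q * u * Q⁻¹)`, `Q = C.prod`,
the rank one parts do not change by `St_Prp`; then `TR.blockS2`.  S3: the same with `TR.blockS3`.
S4: `TR.blockS4`, then as in S1. -/
def St_Sld : Prop := ∀ (R : Type) [CommRing R] (G : Type) [Group G] (r : ℕ) (S : Subring R)
    (ρ : G →* Matrix (Fin r) (Fin r) R) (a₀ b₀ : G) (L₀ : List G) (c c' z z' : G → R),
    SysT S ρ a₀ b₀ L₀ c c' z z' → ∀ a b C M, Mxc ρ c a₀ b₀ L₀ a b C M →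
      (∃ M', M'.map (el ρ c) = M.map (el ρ c) ∧
        Mxc ρ c a₀ b₀ L₀ a (b * (C.map fun y => a * y * a⁻¹).prod)
          (C.map fun y => a * y * a⁻¹) M') ∧
      (∃ M', M'.map (el ρ c) = M.map (el ρ c) ∧
        Mxc ρ c a₀ b₀ L₀ a (b * C.prod⁻¹) (C.map fun y => a⁻¹ * y * a) M') ∧
      (∃ M', M'.map (el ρ c) = M.map (el ρ c) ∧
        Mxc ρ c a₀ b₀ L₀ (a * (C.map fun y => b * y * b⁻¹).prod⁻¹) b
          (C.map fun y => b * y * b⁻¹) M') ∧
      (∃ M', M'.map (el ρ c) = M.map (el ρ c) ∧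
        Mxc ρ c a₀ b₀ L₀ (a * C.prod) b (C.map fun y => b⁻¹ * y * b) M')

/-- **QFX**.  Vectors killed by the rank one parts.
PROOF. Induction on `C`, `Lt.map_eq`, `Lt.map_inv`; `κ = ∏ c' x`, `κ' = ∏ c x`. -/
def St_Qfx : Prop := ∀ (R : Type) [CommRing R] (G : Type) [Group G] (r : ℕ) (S : Subring R)
    (ρ : G →* Matrix (Fin r) (Fin r) R) (c c' z z' : G → R) (C : List G),
    (∀ y ∈ C, Lt S ρ c c' z z' y) → ∃ κ κ' : R, κ * κ' = 1 ∧
      (∀ X : Matrix (Fin r) (Fin r) R, (∀ x ∈ C, X * el ρ c x = 0) →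
        X * ρ C.prod = κ • X ∧ X * ρ C.prod⁻¹ = κ' • X) ∧
      (∀ X : Matrix (Fin r) (Fin r) R, (∀ x ∈ C, el ρ c x * X = 0) →
        ρ C.prod * X = κ • X ∧ ρ C.prod⁻¹ * X = κ' • X)

/-- **UNR**.  `el y * w * el x = 0` for `y ∈ M`, `x ∈ C` and all words `w` in `a, b`.
PROOF. `P(n)`: for ALL `a b C M` with `Mxc` and all words `w` of length at most `n`.  `P(0)` is
`St_Prp`.  Use `St_Qfx` for `C'`, `Q = C'.prod`.
`P(n)` implies `P(n+1)`: `w = v ++ [s]`, `|v| ≤ n`.  Slide `C` by `s` (`St_Sld`; `C' = s C s⁻¹`, new pair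
`(a', b')`): `ρ s * el x = el x' * ρ s` with `x' = s x s⁻¹ ∈ C'`, and `el y = el y'` with `y' ∈ M'`.  So
it is enough that `el y' * ρ (v(a, b)) * el x' = 0`.
TRF: `el y' * ρ (v(a, b)) = κ_v • (el y' * ρ (v(a', b')))` for `|v| ≤ n`, by induction on `v = v₁ ++ [l]`:
`el y' * ρ (v₁(a, b)) * ρ l(a, b) = κ • (el y' * ρ (v₁(a', b')) * ρ l(a, b))`.
`s = a` (S1): `a = a'`, `b = b' Q⁻¹`, `b⁻¹ = Q b'⁻¹`: `el y' * ρ (v₁' b') * ρ Q⁻¹ = κ • ..` by `St_Qfx` and
`P(n)` for the word `v₁ b` (length `≤ n`), `el y' * ρ v₁' * ρ Q = κ • ..` by `P(n)` for `v₁`.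
`s = b` (S3): `b = b'`, `a = a' Q`, `a⁻¹ = Q⁻¹ a'⁻¹`, the same.  So first: words of length `≤ n + 1`
which end in `a` or `b` are done, for ALL `Mxc` tuples.
`s = a⁻¹` (S2): `a = a'`, `b = b' a Q a⁻¹`, `b⁻¹ = a Q⁻¹ a⁻¹ b'⁻¹`: `el y' * ρ (v₁' b' a) * ρ Q = κ • ..`
since the word `v₁ b a` has length `≤ n + 1` and ends in `a` (done); `el y' * ρ (v₁' a) * ρ Q⁻¹` by
`P(n)`.  `s = b⁻¹` (S4): `b = b'`, `a' = a b Q b⁻¹`, so `a = a' b Q⁻¹ b⁻¹`, `a⁻¹ = b Q b⁻¹ a'⁻¹`: words
`v₁ a b` (ends in `b`, length `≤ n + 1`) and `v₁ b`.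
Finally `el y' * ρ (v(a', b')) * el x' = 0` by `P(n)`. -/
def St_Unr : Prop := ∀ (R : Type) [CommRing R] (G : Type) [Group G] (r : ℕ) (S : Subring R)
    (ρ : G →* Matrix (Fin r) (Fin r) R) (a₀ b₀ : G) (L₀ : List G) (c c' z z' : G → R),
    SysT S ρ a₀ b₀ L₀ c c' z z' → ∀ a b C M, Mxc ρ c a₀ b₀ L₀ a b C M →
      ∀ (w : List (Bool × Bool)), ∀ y ∈ M, ∀ x ∈ C, el ρ c y * ρ (gw a b w) * el ρ c x = 0

/-- **ZER**.  The letters of `M` are scalars.
PROOF. By `Subgroup.closure_induction_left` on `g ∈ cl a b (C ++ M)`: for ALL words `w`, all `y ∈ M`,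
`x ∈ C`, `el y * ρ (gw a b w) * ρ g * el x = 0`.  `g = 1`: `St_Unr`.  `g = s * g'` with
`s = a^±1, b^±1`: `w ++ [s]` and the induction hypothesis.  `g = x₁^±1 * g'`, `x₁ ∈ C ++ M`:
`ρ x₁ = c' (1 + el x₁)`, `ρ x₁⁻¹ = c (1 - z' el x₁)`; the first term is zero by induction, the second
one contains `el y * ρ (gw a b w) * el x₁ * ρ g' * el x`: if `x₁ ∈ C` then
`el y * ρ (gw a b w) * el x₁ = 0` by `St_Unr`; if `x₁ ∈ M` then `el x₁ * ρ g' * el x = 0` by induction
(`y = x₁`, `w = []`).  So `el y * ρ g * el x = 0` for all `g ∈ cl a b (C ++ M)`, and there is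
`x ∈ C` with `el x ≠ 0` (`Cn`), so `irr` (contrapositive) gives `el y = 0`. -/
def St_Zer : Prop := ∀ (R : Type) [CommRing R] (G : Type) [Group G] (r : ℕ) (S : Subring R)
    (ρ : G →* Matrix (Fin r) (Fin r) R) (a₀ b₀ : G) (L₀ : List G) (c c' z z' : G → R),
    SysT S ρ a₀ b₀ L₀ c c' z z' → ∀ a b C M, Mxc ρ c a₀ b₀ L₀ a b C M → ∀ y ∈ M, el ρ c y = 0

/-- **LNK**.  Letters of a connected list are linked.
PROOF. Induction on `Cn`.  New letter `y`, `x ∈ C` with `tr (el x * el y) ≠ 0`, and `x' ∈ C`.  If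
`el x' = el x` take `W = W' = []`; otherwise `x'` and `x` are linked by `W, W'` and
`tr (el x' W el x * el y * el x W') = tr (el x * el y) * tr (el x' W el x W')` by the rank one
identity for `el x`; both factors have an inverse in `S` (`fld` for the first one).  The relation is
symmetric (rotate), the first letter: equality. -/
def St_Lnk : Prop := ∀ (R : Type) [CommRing R] (G : Type) [Group G] (r : ℕ) (S : Subring R)
    (ρ : G →* Matrix (Fin r) (Fin r) R) (c : G → R) (C : List G), Cn ρ c C →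
    (∀ y ∈ C, RO (el ρ c y)) → (∀ s ∈ S, s ≠ 0 → ∃ t ∈ S, s * t = 1) →
    (∀ E : List G, (∀ y ∈ E, y ∈ C) → (ew ρ c E).trace ∈ S) →
    ∀ y ∈ C, ∀ y' ∈ C, el ρ c y = el ρ c y' ∨ Lk S ρ c C y y'

/-- **DIC**.  There is a reachable tuple with the dichotomy.
PROOF. If `el y = 0` for all letters `y` of `L₀`: take the first tuple, third case of `DT`.
Otherwise move a letter `y ∈ L₀` with `el y ≠ 0` to the front (`Pre.sublist` for `[y]`): `Cn [y]`, so
there is a connected beginning, and one of maximal length (`≤ L₀.length`), `Mxc a b C M`.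
`St_Zer`: pairs with one letter in `M` are in the third case.  Letters in `C`: `St_Lnk` (and
enlarge `C` to `C ++ M` in `Lk`); the traces of products of rank one parts are in `S` by `St_Ann` and
`thm_KW` (`KX` with exponents zero). -/
def St_Dic : Prop := ∀ (R : Type) [CommRing R] (G : Type) [Group G] (r : ℕ) (S : Subring R)
    (ρ : G →* Matrix (Fin r) (Fin r) R) (a₀ b₀ : G) (L₀ : List G) (c c' z z' : G → R),
    SysT S ρ a₀ b₀ L₀ c c' z z' → ∃ a b L, TR a₀ b₀ L₀ a b L ∧ DT S ρ c a b L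

/-! ### words -/

/-- **TWR** (two runs).
PROOF. `el y = el y'`: `tr (e X e Y) = tr (e X) tr (e Y)`, both words have fewer than `n` group letters.
`Lk`: the identity `tr (e X e' Y) tr (e W e' W') = tr (e X e' W') tr (e W e' Y)` (from
`e' Y e X e' = tr (e' Y e X) e'` and `e X e' W' e = tr (e X e' W') e`), the right hand side is in `S`
and `tr (e W e' W')` has an inverse in `S`.  Third case of `DT`: `el y * wv X * el y' = 0`, because
`wv X` is in the `R`-span of the `ρ g`, `g ∈ cl a b L`. -/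
def St_Twr : Prop := ∀ (R : Type) [CommRing R] (G : Type) [Group G] (r : ℕ) (S : Subring R)
    (ρ : G →* Matrix (Fin r) (Fin r) R) (c c' z z' : G → R) (a b : G) (L : List G),
    (∀ y ∈ L, Lt S ρ c c' z z' y) → DT S ρ c a b L → ∀ n : ℕ, PP S ρ c L n a b →
    ∀ (X Y : List (Sy G)) (y y' : G), y ∈ L → y' ∈ L → InL L X → InL L Y → 0 < gn X → 0 < gn Y →
      gn X + gn Y ≤ n + 1 →
      (el ρ c y * wv ρ c a b X * el ρ c y' * wv ρ c a b Y).trace ∈ S

/-- **EXP**.  Expansion of `P = L.prod` and of its inverse, inside any linear form.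
PROOF. `κ = ∏ c' y`, `κ' = ∏ c y`.  Induction on `A` for all linear `φ`, `A` a list of letters of
`L`: `φ (ρ (y * A.prod)) = c' y * (φ (ρ A.prod) + φ (el y * ρ A.prod))`; the form `φ (el y * ·)` is in
`S` on all `ew E`, also on `1 = ew []`, so on `ρ A.prod` by induction.  The inverse in the same way
(`Lt.map_inv`, from the right). -/
def St_Exp : Prop := ∀ (R : Type) [CommRing R] (G : Type) [Group G] (r : ℕ) (S : Subring R)
    (ρ : G →* Matrix (Fin r) (Fin r) R) (c c' z z' : G → R) (L : List G),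
    (∀ y ∈ L, Lt S ρ c c' z z' y) → ∃ κ ∈ S, ∃ κ' ∈ S, κ * κ' = 1 ∧
      ∀ φ : Matrix (Fin r) (Fin r) R →ₗ[R] R,
        (∀ E : List G, E ≠ [] → (∀ y ∈ E, y ∈ L) → φ (ew ρ c E) ∈ S) →
        φ (ρ L.prod) - κ * φ 1 ∈ S ∧ φ (ρ L.prod⁻¹) - κ' * φ 1 ∈ S

/-- **SWP** (swaps).  `n + 1` is the length of the words.
PROOF. Use `St_Exp` with linear forms `φ X = tr (U * X * V)`.  Let `g = g₁ ++ [s, t] ++ g₂`.  If
`s, t` are both `a^±1` or both `b^±1` the elements commute.  The four other cases and their inverses: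
`a b = b a P`, `a⁻¹ b = b P⁻¹ a⁻¹`, `b⁻¹ a = a P b⁻¹`, `b⁻¹ a⁻¹ = P⁻¹ a⁻¹ b⁻¹`.  In `tr (ew E * ρ g)`
replace `s t` by the right hand side and expand `P^±1`: the leading term is `κ^±1` times the trace of
the swapped word; in the other terms a nonempty product `E'` is inserted; if it is separated from
`E` by group letters on both sides, the trace is in `S` by `St_Twr` (write `ew E = el y * ew E₁`,
`ew E' = el y' * ew E₁'`, and the word is `el y * X * el y' * Y`); otherwise (`a b = b a P` at the end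
of `g`, or `P⁻¹ a⁻¹ b⁻¹` at the beginning) it is multiplied to `E` (cyclically), and we use `QQ` of the
swapped word for the new product.  In the first kind of case (`a⁻¹ b`, `b⁻¹ a`) the converse direction
follows by multiplication with `κ^∓1`; for `b a = a b P⁻¹` and `a⁻¹ b⁻¹ = P b⁻¹ a⁻¹` argue in the same
way as above. -/
def St_Swp : Prop := ∀ (R : Type) [CommRing R] (G : Type) [Group G] (r : ℕ) (S : Subring R)
    (ρ : G →* Matrix (Fin r) (Fin r) R) (c c' z z' : G → R) (a b : G) (L : List G),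
    a * b = b * a * L.prod → (∀ y ∈ L, Lt S ρ c c' z z' y) → DT S ρ c a b L →
    ∀ n : ℕ, PP S ρ c L n a b → ∀ g g' : List (Bool × Bool), g.Perm g' → g.length = n + 1 →
      QQ S ρ c L a b g → QQ S ρ c L a b g'

/-- **SW0** (swaps without rank one parts).
PROOF. As `St_Swp` for the traces `tr (ρ (gw a b g))`: replace `s t` and expand `P^±1`; the leading
term is `κ^±1 tr (ρ (gw swapped))`, the others are, after a rotation, `tr (ew E' * ρ (gw g''))` with
`g''` a word of the same length `n + 1`, in `S` by `QQ` for all words of this length. -/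
def St_Sw0 : Prop := ∀ (R : Type) [CommRing R] (G : Type) [Group G] (r : ℕ) (S : Subring R)
    (ρ : G →* Matrix (Fin r) (Fin r) R) (c c' z z' : G → R) (a b : G) (L : List G),
    a * b = b * a * L.prod → (∀ y ∈ L, Lt S ρ c c' z z' y) →
    ∀ n : ℕ, (∀ g : List (Bool × Bool), g.length = n + 1 → QQ S ρ c L a b g) →
    ∀ g g' : List (Bool × Bool), g.Perm g' → g.length = n + 1 →
      (ρ (gw a b g)).trace ∈ S → (ρ (gw a b g')).trace ∈ S

/-- **NRM** (normal forms).  Every word in `a^±1, b^±1` is a permutation of a word in which two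
neighbours cancel, of a power of one letter, or of a word which is shorter in one of the pairs
`(a, a^±1 b)`, `(b^±1 a, b)`.
PROOF. If a letter and its inverse occur: `g ~ s :: s⁻¹ :: g'` and `gw g = gw g'`.  Otherwise
`g ~ replicate p (true, ε) ++ replicate q (false, δ)`.  `p = 0` or `q = 0`: a power.  `p, q ≥ 1`:
`(+,+)`: `p ≥ q`: `g' = (ab)^q a^(p-q)` in the pair `(a, a b)`; `p < q`: `(ba)^p b^(q-p)` in `(b a, b)`.
`(-,-)`: `(b⁻¹a⁻¹)^q a^(-(p-q))` in `(a, a b)`; `(a⁻¹b⁻¹)^p b^(-(q-p))` in `(b a, b)`.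
`(+,-)`: `(b⁻¹a)^q a^(p-q)` in `(a, a⁻¹ b)`; `(b⁻¹a)^p b^(-(q-p))` in `(b⁻¹ a, b)`.
`(-,+)`: `(a⁻¹b)^q a^(-(p-q))` in `(a, a⁻¹ b)`; `(a⁻¹b)^p b^(q-p)` in `(b⁻¹ a, b)`.  The new length is
`max p q < p + q`. -/
def St_Nrm : Prop := ∀ (G : Type) [Group G] (a b : G) (g : List (Bool × Bool)), g ≠ [] →
    ∃ g' : List (Bool × Bool), g.Perm g' ∧
      ((∃ g'' : List (Bool × Bool), g''.length < g.length ∧ gw a b g' = gw a b g'') ∨
      (∃ k : ℤ, gw a b g' = a ^ k) ∨ (∃ k : ℤ, gw a b g' = b ^ k) ∨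
      (∃ (k : ℤ) (g'' : List (Bool × Bool)), g''.length < g.length ∧
        gw a b g' = gw a (a ^ k * b) g'') ∨
      ∃ (k : ℤ) (g'' : List (Bool × Bool)), g''.length < g.length ∧
        gw a b g' = gw (b ^ k * a) b g'')

/-- **WR1**.  Words with at most one run.
PROOF. (1) `QQ u v g` for `|g| = n + 1`: by `St_Nrm` and `St_Swp` (for `u, v`: `TR.cl_eq` for `DT`,
`TR.rel`) it is enough to see `QQ u v g'`, `g'` of `St_Nrm`: cancelled: `PP n u v` (the word
`E.map Sy.e ++ g''.map Sy.g`); shorter in another pair: `PP n` for this pair (`TR.trans`, `TR.twa`,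
`TR.twb`); a power of `u`: `KG` for `u`, `thm_KW` (`KX` for the word `E.map (0, ·)`); a power of `v`:
`KG` for `v⁻¹` (`TR.rot'`).  (2) the traces `tr (ρ (gw u v g))` in the same way with `St_Sw0`. -/
def St_Wr1 : Prop := ∀ (R : Type) [CommRing R] (G : Type) [Group G] (r : ℕ) (S : Subring R)
    (ρ : G →* Matrix (Fin r) (Fin r) R) (c c' z z' : G → R) (a b : G) (L : List G),
    a * b = b * a * L.prod → (∀ y ∈ L, Lt S ρ c c' z z' y) → DT S ρ c a b L →
    (∀ u v, TR a b L u v L → KG S ρ u L) → ∀ n : ℕ, (∀ u v, TR a b L u v L → PP S ρ c L n u v) →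
    ∀ u v, TR a b L u v L → ∀ g : List (Bool × Bool), g.length = n + 1 →
      QQ S ρ c L u v g ∧ (ρ (gw u v g)).trace ∈ S

/-- **SPL**.  The shape of a word, up to rotation.
PROOF. If there is a rank one symbol, rotate it to the front.  `U₁` the longest beginning without
group letters, then `g` the longest beginning of the rest with group letters only, then the rest
`w₂`; if `w₂` has no group letters: rotate `U₁ ++ g ++ w₂` to `w₂ ++ U₁ ++ g`.  Otherwise (then
`g ≠ []`, and `w₂` begins with a rank one symbol `e y'`) the second case with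
`X = U₁.tail ++ g`, `Y = w₂.tail`. -/
def St_Spl : Prop := ∀ (G : Type) [Group G] (w : List (Sy G)),
    (∃ g : List (Bool × Bool), w = g.map Sy.g) ∨
    (∃ (E : List G) (g : List (Bool × Bool)), E ≠ [] ∧
      w.IsRotated (E.map Sy.e ++ g.map Sy.g)) ∨
    ∃ (X Y : List (Sy G)) (y y' : G), 0 < gn X ∧ 0 < gn Y ∧
      w.IsRotated (Sy.e y :: (X ++ Sy.e y' :: Y))

/-- **WRD**.  All traces of the group of one tuple with the dichotomy.
PROOF. Induction on `n`: `PP n u v` for ALL `u, v` with `TR a b L u v L` (`DT` and the relation hold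
for `u, v`: `TR.cl_eq`, `TR.rel`).  `n = 0`: words in rank one parts: `KG` for `u` and `thm_KW`
(exponents zero).  `n + 1`: `St_Spl` (traces are invariant under rotation, `gn` too): no rank one
part: `St_Wr1` (or `PP n` if `gn w ≤ n`); one run: `St_Wr1`; two runs: `St_Twr`.
At the end: `∀ w : List (Sy G), InL L w → (wv w * ρ g).trace ∈ S` for `g ∈ cl a b L` by
`Subgroup.closure_induction_left` (as `KX → KG` in `PRS/XKW.lean`: a factor `a^±1, b^±1` is the symbol
`Sy.g`, a factor `y^±1` gives two terms, `Lt.map_eq`, `Lt.map_inv`). -/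
def St_Wrd : Prop := ∀ (R : Type) [CommRing R] (G : Type) [Group G] (r : ℕ) (S : Subring R)
    (ρ : G →* Matrix (Fin r) (Fin r) R) (c c' z z' : G → R) (a b : G) (L : List G),
    a * b = b * a * L.prod → (∀ y ∈ L, Lt S ρ c c' z z' y) → DT S ρ c a b L →
    (∀ u v, TR a b L u v L → KG S ρ u L) → ∀ g ∈ cl a b L, (ρ g).trace ∈ S

/-- **TS**, the S-theorem.
PROOF. `St_Dic`, `St_Ann`, `St_Wrd`, `TR.cl_eq`. -/
def St_TS : Prop := ∀ (R : Type) [CommRing R] (G : Type) [Group G] (r : ℕ) (S : Subring R)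
    (ρ : G →* Matrix (Fin r) (Fin r) R) (a₀ b₀ : G) (L₀ : List G) (c c' z z' : G → R),
    SysT S ρ a₀ b₀ L₀ c c' z z' → ∀ g ∈ cl a₀ b₀ L₀, (ρ g).trace ∈ S

end Pool.Agent.TRS
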