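import Pool.Agent.TRS.St1
import Pool.Agent.TRS.App
import Pool.Agent.PRS.PosA
import Pool.Agent.PRS.IRR

/-!
# Pseudo-reflections on once punctured tori: statements

Helper15, helper35, for MP_0707f5_ag.  One puncture: the handle generators `A, B` and
`X = A⁻¹ B⁻¹ A B`, a multiple of a pseudo-reflection.  Finite image for irreducible representations
under the condition of helper35 on one simple loop.
-/

set_option autoImplicit false

namespace Pool.Agent.TRS

open Matrix Pool.Agent.HZ Pool.Agent.PRS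
open scoped ComplexOrder

/-- **C1T**.  One puncture: the traces are cyclotomic integers.
PROOF. `St_Wrd` for `R = ℂ`, `G = F 0`, the standard tuple `(of 0, of 1; tX 0)`,
`S = (Algebra.adjoin ℤ {x | x ^ M = 1}).toSubring`, `c y = (lam (ρ y))⁻¹` etc. as in `thm_CYC`
(PRS/CYC.lean).  `M` from `exists_exponent` for `ρ.range`.  The reachable tuples `(u, v; L)` are
`ψ (standard tuple)`, `ψ ∈ MC 0` (`St_Aut`), `L = [y]`, and `closure ({u} ∪ {y})` is the group of `pa`
for `ψ`, with finite image, so all eigenvalues of its elements are roots of unity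
(`quasi_of_finite`, PRS/IRR.lean) of order dividing `M`, and the traces are in `S` (`trace_mem`).
`DT`: both letters are equal (`tX 0` has one entry).  `cl (of 0) (of 1) (tX 0) = ⊤`
(`FreeGroup.closure_range_of`).  The relation: `tX 0 = [1⁻¹ * (a⁻¹ b⁻¹ (a b))]`. -/
def St_C1T : Prop := ∀ (r : ℕ) (ρ : F 0 →* GL (Fin r) ℂ), TH 0 r ρ → ∃ M > 0, ∀ w,
    (ρ w : Matrix (Fin r) (Fin r) ℂ).trace ∈ Algebra.adjoin ℤ {x : ℂ | x ^ M = 1}

/-- **D1T**.  One puncture: the character is the character of the conjugate dual.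
PROOF. `St_Wrd` as in `St_C1T` for `R = Bool → ℂ`, `S` = the pairs `(t, t)`, the representation
`DUA_rep Bool (DUA_fam ρ)` and the functions `c, c', z, z'` of `thm_Dua` (PRS/DUA.lean; the facts
about letters are proved there).  `KG` for a reachable pair: elements `g` of the finite image have
eigenvalues of absolute value one, so `tr ρ g⁻¹ = conj (tr ρ g)` (`trace_inv`). -/
def St_D1T : Prop := ∀ (r : ℕ) (ρ : F 0 →* GL (Fin r) ℂ), TH 0 r ρ →
    ∀ w, (ρ w⁻¹ : Matrix (Fin r) (Fin r) ℂ).trace = star (ρ w : Matrix (Fin r) (Fin r) ℂ).trace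

/-- the condition: no full coset of the powers of `l` among the eigenvalues of `A` on the eigenspace
`X v = l v` -/
def CA {r : ℕ} (A X : Matrix (Fin r) (Fin r) ℂ) (l : ℂ) : Prop :=
  ∀ g : ℂ, ∃ i : ℕ, ∀ v : Fin r → ℂ, A *ᵥ v = (g * l ^ i) • v → X *ᵥ v = l • v → v = 0

/-- **PO1**.  Definiteness.
PROOF. (Conventions of PRS/PosA.lean: `hf H v w = star v ⬝ᵥ H *ᵥ w`, `qf`.)  `r = 1`: `H` is a nonzero
real `1 × 1` matrix.  Let `r ≥ 2`, `X = l + u ⊗ f` (`exists_vecMulVec`).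
(0) `u ≠ 0` and `f ≠ 0`: otherwise `X = l`, `A B = l • B A`; `A` has an eigenvector `v`, `A v = g v`;
then `A (B^i v) = g l^i (B^i v)` and `X (B^i v) = l (B^i v)` for all `i`, so by `CA` some
`B^i v = 0`, contradiction.
(1) `orbit_sign` for `K = closure {A, X}`: `hf H u w = k (f ⬝ᵥ w)`, `k ≠ 0`, and `qf H u * qf H w > 0`
for `0 ≠ w` in the span of `K u`; `qf H u ≠ 0`.  Replace `H` by `-H` if necessary: `qf H u > 0`.
(2) `A ^ N = 1` for some `N > 0` (`K` finite).  For `g ^ N = 1` let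
`P g v = N⁻¹ ∑ (t < N) g^(-t) A^t v`: `A (P g v) = g • P g v`, `∑ (g ^ N = 1) P g v = v`, and
eigenvectors of `A` for different `g, g'` of absolute value one are orthogonal for `hf H`
(`hf (A v) (A w) = hf v w`).
(3) STEP: let `0 ≠ x`, `A x = g x`, `g ^ N = 1`, `qf H x ≤ 0`.  Put `w = P g u` (in the span of `K u`),
`x' = x - (hf H w x / hf H w w) • w` if `w ≠ 0`, `x' = x` if `w = 0`.  Then `A x' = g x'`,
`hf H w x' = 0`, so `hf H u x' = 0` (the other components of `u` are orthogonal to `x'`), so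
`f ⬝ᵥ x' = 0` and `X x' = l x'`; `qf H x' = qf H x - |hf H w x|² / qf H w ≤ 0`; `x' ≠ 0`, otherwise
`x` is a multiple of `w` and `qf H x > 0`.  Then `B x' ≠ 0`, `A (B x') = B (A (X x')) = l g (B x')` and
`qf H (B x') = qf H x' ≤ 0`.  So for all `i` there is `0 ≠ x_i` with `A x_i = g l^i x_i`,
`qf H x_i ≤ 0` and (the vector `x_i'`) `0 ≠ v`, `A v = g l^i v`, `X v = l v`; note `l ^ N' = 1` for some
`N'` (take `N` a multiple of the order of `K`; `l` is an eigenvalue of `X` as `r ≥ 2`), so the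
`g l^i` are again `N`-th roots of unity.  This contradicts `CA`.
(4) So all eigenvectors `x` of `A` have `qf H x > 0`; for `v ≠ 0`,
`qf H v = ∑ (g ^ N = 1) qf H (P g v) > 0`. -/
def St_Po1 : Prop := ∀ (r : ℕ) (A B X : GL (Fin r) ℂ) (l : ℂ) (H : Matrix (Fin r) (Fin r) ℂ),
    0 < r → A * B = B * A * X →
    ((X : Matrix (Fin r) (Fin r) ℂ) - l • (1 : Matrix (Fin r) (Fin r) ℂ)).rank ≤ 1 →
    Finite (Subgroup.closure {A, X} : Subgroup (GL (Fin r) ℂ)) →
    CA (A : Matrix (Fin r) (Fin r) ℂ) (X : Matrix (Fin r) (Fin r) ℂ) l →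
    H.IsHermitian → IsUnit H →
    (A : Matrix (Fin r) (Fin r) ℂ)ᴴ * H * (A : Matrix (Fin r) (Fin r) ℂ) = H →
    (B : Matrix (Fin r) (Fin r) ℂ)ᴴ * H * (B : Matrix (Fin r) (Fin r) ℂ) = H →
    ∃ s : ℝ, ((s : ℂ) • H).PosDef

/-- **FI1**.  Irreducible representations, the condition for the standard loop.
PROOF. `St_C1T`: all traces are in `ℤ[μ_M]`.  For every `σ ∈ Aut ℂ` the representation `gal σ ρ`
(PRS/IRR.lean) is irreducible (`gal_irr`), satisfies `TH 0 r` (`gal_PR`, images of finite sets) and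
the condition with `σ l` (apply `σ⁻¹` to the eigenvectors); `St_D1T`, `St_Her` and `St_Po1`
(`A = ρ (of 0)`, `B = ρ (of 1)`, `X = ρ x`, `pa` for `φ = 1`) give an invariant definite form, so
`‖σ (tr ρ w)‖ ≤ r` (`St_Uni`).  `St_Kro`: finitely many traces; `St_Tra` as at the end of `thm_Irr`. -/
def St_Fi1 : Prop := ∀ (r : ℕ) (ρ : F 0 →* GL (Fin r) ℂ), 0 < r → Irr ρ.range → TH 0 r ρ →
    (∃ l : ℂ, ∀ x ∈ tX 0,
      ((ρ x : Matrix (Fin r) (Fin r) ℂ) - l • (1 : Matrix (Fin r) (Fin r) ℂ)).rank ≤ 1 ∧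
      CA (ρ (FreeGroup.of 0) : Matrix (Fin r) (Fin r) ℂ) (ρ x : Matrix (Fin r) (Fin r) ℂ) l) →
    ∀ w, Quasi (ρ w)

/-- **TO1**.  Finite image for one puncture.
PROOF. `ρ ∘ φ` is irreducible with the same image and satisfies `TH 0 r` (`MC` is closed under
products; letters: `φ x` is conjugate to the one puncture), and `CA` is the hypothesis; `St_Fi1`;
all elements are `φ w`.  Then `fin_of_quasi` (PRS/FinA.lean); an irreducible group is completely
reducible. -/
def St_To1 : Prop := ∀ (r : ℕ) (ρ : F 0 →* GL (Fin r) ℂ), 0 < r → Irr ρ.range → TH 0 r ρ →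
    (∃ φ ∈ MC 0, ∃ l : ℂ, ∀ x ∈ tX 0,
      ((ρ (φ x) : Matrix (Fin r) (Fin r) ℂ) - l • (1 : Matrix (Fin r) (Fin r) ℂ)).rank ≤ 1 ∧
      CA (ρ (φ (FreeGroup.of 0)) : Matrix (Fin r) (Fin r) ℂ)
        (ρ (φ x) : Matrix (Fin r) (Fin r) ℂ) l) →
    Finite ρ.range

end Pool.Agent.TRS
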