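import Pool.Agent.TRS.St2
import Pool.Agent.TRS.Pan
import Pool.Agent.PRS.FinA

/-!
# TRS, module TO1: one puncture, finite image
-/

set_option autoImplicit false

namespace Pool.Agent.TRS

open Matrix Pool.Agent.HZ Pool.Agent.PRS

variable {r : ℕ}

private theorem to1_th (ρ : F 0 →* GL (Fin r) ℂ) (h : TH 0 r ρ) {φ : MulAut (F 0)}
    (hφ : φ ∈ MC 0) : TH 0 r (ρ.comp φ.toMonoidHom) := by
  refine ⟨fun y hy => ?_, fun ψ hψ y T hT => ?_, fun ψ hψ N y T hT => ?_⟩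
  · obtain ⟨y', hy', h1⟩ := hφ y hy
    obtain ⟨g, hg⟩ := isConj_iff.1 h1.symm
    have h2 := PR_conj' (ρ y') (ρ g) (h.pr y' hy')
    rw [← map_mul, ← map_inv, ← map_mul, hg] at h2
    exact h2
  · have h1 := h.pa (φ * ψ) (Pan_mul hφ hψ) y T hT
    have h2 : (ρ.comp φ.toMonoidHom) ''
        (Subgroup.closure {ψ (FreeGroup.of 0), ψ y} : Subgroup (F 0)) =
        ρ '' (Subgroup.closure {(φ * ψ) (FreeGroup.of 0), (φ * ψ) y} : Subgroup (F 0)) := by
      have h3 : (Subgroup.closure {(φ * ψ) (FreeGroup.of 0), (φ * ψ) y} : Subgroup (F 0)) =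
          (Subgroup.closure {ψ (FreeGroup.of 0), ψ y}).map φ.toMonoidHom := by
        rw [MonoidHom.map_closure, Set.image_pair]
        rfl
      rw [h3, Subgroup.coe_map, ← Set.image_comp]
      rfl
    rw [h2]
    exact h1
  · have h1 := h.pb (φ * ψ) (Pan_mul hφ hψ) N y T hT
    have h2 : (ρ.comp φ.toMonoidHom) ''
        (Subgroup.closure {ψ N.prod, ψ y} : Subgroup (F 0)) =
        ρ '' (Subgroup.closure {(φ * ψ) N.prod, (φ * ψ) y} : Subgroup (F 0)) := by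
      have h3 : (Subgroup.closure {(φ * ψ) N.prod, (φ * ψ) y} : Subgroup (F 0)) =
          (Subgroup.closure {ψ N.prod, ψ y}).map φ.toMonoidHom := by
        rw [MonoidHom.map_closure, Set.image_pair]
        rfl
      rw [h3, Subgroup.coe_map, ← Set.image_comp]
      rfl
    rw [h2]
    exact h1

theorem thm_To1 (hF : St_Fi1) : St_To1 := by
  intro r ρ hr hirr hT hC
  obtain ⟨φ, hφ, l, hl⟩ := hC
  have hrange : (ρ.comp φ.toMonoidHom).range = ρ.range := by
    ext x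
    constructor
    · rintro ⟨w, rfl⟩
      exact ⟨φ w, rfl⟩
    · rintro ⟨w, rfl⟩
      refine ⟨φ⁻¹ w, ?_⟩
      show ρ (φ (φ⁻¹ w)) = ρ w
      rw [← MulAut.mul_apply, mul_inv_cancel, MulAut.one_apply]
  have h1 := hF r (ρ.comp φ.toMonoidHom) hr (by rw [hrange]; exact hirr) (to1_th ρ hT hφ)
    ⟨l, fun x hx => hl x hx⟩
  have h2 : ∀ w, Quasi (ρ w) := by
    intro w
    have h3 := h1 (φ⁻¹ w)
    have h4 : (ρ.comp φ.toMonoidHom) (φ⁻¹ w) = ρ w := by
      show ρ (φ (φ⁻¹ w)) = ρ w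
      rw [← MulAut.mul_apply, mul_inv_cancel, MulAut.one_apply]
    rwa [h4] at h3
  refine fin_of_quasi _ r ρ h2 fun W hW => ?_
  rcases hirr W hW with rfl | rfl
  · exact ⟨⊤, fun g _ v _ => Submodule.mem_top, isCompl_bot_top⟩
  · exact ⟨⊥, fun g _ v hv => by
      rw [Submodule.mem_bot] at hv ⊢
      rw [hv, mulVec_zero], isCompl_top_bot⟩

end Pool.Agent.TRS
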